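import Pool.Agent.Helper15.GPR.Lev

set_option autoImplicit false

/-!
# Project GL++ (MP_120218), Conc: concentration of a sum of independent uniform variables
-/

namespace Pool.Agent.Helper15.GPR

open Finset

/-- exponential sum -/
noncomputable def es {q : ℕ} [NeZero q] (V : Finset (ZMod q)) (x : ZMod q) : ℂ :=
  ∑ v ∈ V, ZMod.stdAddChar (x * v)

theorem es_zero {q : ℕ} [NeZero q] (V : Finset (ZMod q)) : es V 0 = V.card := by
  unfold es
  simp only [zero_mul, AddChar.map_zero_eq_one, Finset.sum_const, nsmul_eq_mul, mul_one]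

theorem es_norm_le {q : ℕ} [NeZero q] (V : Finset (ZMod q)) (x : ZMod q) : ‖es V x‖ ≤ V.card := by
  unfold es
  refine (norm_sum_le _ _).trans (le_of_eq ?_)
  rw [Finset.sum_congr rfl (fun v _ => AddChar.norm_apply _ _), Finset.sum_const, nsmul_eq_mul,
    mul_one]

theorem es_sq {q : ℕ} [NeZero q] (V : Finset (ZMod q)) :
    ∑ x, ‖es V x‖ ^ 2 = (q : ℝ) * V.card := by
  have h1 : (((∑ x, ‖es V x‖ ^ 2 : ℝ)) : ℂ) = ((q : ℝ) * V.card : ℝ) := by
    push_cast
    have h2 : ∀ x : ZMod q, (‖es V x‖ : ℂ) ^ 2 =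
        ∑ v ∈ V, ∑ w ∈ V, (ZMod.stdAddChar (x * (v - w)) : ℂ) := by
      intro x
      rw [← Complex.mul_conj']
      unfold es
      rw [map_sum, Finset.sum_mul_sum]
      refine Finset.sum_congr rfl fun v _ => Finset.sum_congr rfl fun w _ => ?_
      rw [← AddChar.map_neg_eq_conj, ← AddChar.map_add_eq_mul]
      congr 1
      ring
    rw [Finset.sum_congr rfl (fun x _ => h2 x), Finset.sum_comm]
    have h3 : ∀ v ∈ V, ∑ x : ZMod q, ∑ w ∈ V, (ZMod.stdAddChar (x * (v - w)) : ℂ) = q := by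
      intro v hv
      rw [Finset.sum_comm]
      have h4 : ∀ w ∈ V, ∑ x : ZMod q, (ZMod.stdAddChar (x * (v - w)) : ℂ) =
          if w = v then (q : ℂ) else 0 := by
        intro w _
        rw [AddChar.sum_mulShift (v - w) (ZMod.isPrimitive_stdAddChar q), ZMod.card]
        by_cases h : w = v
        · rw [if_pos h, if_pos (sub_eq_zero.2 h.symm)]
        · rw [if_neg h, if_neg (fun h' => h (sub_eq_zero.1 h').symm)]
          simp
      rw [Finset.sum_congr rfl h4, Finset.sum_ite_eq' V v, if_pos hv]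
    rw [Finset.sum_congr rfl h3, Finset.sum_const, nsmul_eq_mul, mul_comm]
  exact_mod_cast h1

theorem unit_re (z w : ℂ) (hz : ‖z‖ = 1) (hw : ‖w‖ = 1) :
    1 - (z * w).re ≤ 2 * (1 - z.re) + 2 * (1 - w.re) := by
  have h1 : z.re ^ 2 + z.im ^ 2 = 1 := by
    have h := Complex.sq_norm z
    rw [hz, Complex.normSq_apply] at h
    nlinarith
  have h2 : w.re ^ 2 + w.im ^ 2 = 1 := by
    have h := Complex.sq_norm w
    rw [hw, Complex.normSq_apply] at h
    nlinarith
  rw [Complex.mul_re]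
  nlinarith [sq_nonneg (z.re + w.re - 2), sq_nonneg (w.im - z.im)]

theorem es_sub {q : ℕ} [NeZero q] (V : Finset (ZMod q)) (x y : ZMod q) :
    (V.card : ℝ) - ‖es V (x + y)‖ ≤
      2 * ((V.card : ℝ) - ‖es V x‖) + 2 * ((V.card : ℝ) - ‖es V y‖) := by
  obtain ⟨c, hc, hcx⟩ := Complex.exists_norm_eq_mul_self (es V x)
  obtain ⟨d, hd, hdy⟩ := Complex.exists_norm_eq_mul_self (es V y)
  have e1 : ‖es V x‖ = ∑ v ∈ V, (c * ZMod.stdAddChar (x * v)).re := by
    have h1 : ((‖es V x‖ : ℝ) : ℂ).re = (c * es V x).re := by rw [hcx]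
    rw [Complex.ofReal_re] at h1
    rw [h1]
    unfold es
    rw [Finset.mul_sum, Complex.re_sum]
  have e2 : ‖es V y‖ = ∑ v ∈ V, (d * ZMod.stdAddChar (y * v)).re := by
    have h1 : ((‖es V y‖ : ℝ) : ℂ).re = (d * es V y).re := by rw [hdy]
    rw [Complex.ofReal_re] at h1
    rw [h1]
    unfold es
    rw [Finset.mul_sum, Complex.re_sum]
  have e3 : ∑ v ∈ V, (c * ZMod.stdAddChar (x * v) * (d * ZMod.stdAddChar (y * v))).re ≤
      ‖es V (x + y)‖ := by
    have h1 : ‖es V (x + y)‖ = ‖c * d * es V (x + y)‖ := by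
      rw [norm_mul, norm_mul, hc, hd, one_mul, one_mul]
    rw [h1]
    refine le_trans (le_of_eq ?_) (Complex.re_le_norm _)
    unfold es
    rw [Finset.mul_sum, Complex.re_sum]
    refine Finset.sum_congr rfl fun v _ => ?_
    rw [add_mul, AddChar.map_add_eq_mul]
    congr 1
    ring
  have e4 : ∑ v ∈ V, (1 - (c * ZMod.stdAddChar (x * v) * (d * ZMod.stdAddChar (y * v))).re) ≤
      ∑ v ∈ V, (2 * (1 - (c * ZMod.stdAddChar (x * v)).re) +
        2 * (1 - (d * ZMod.stdAddChar (y * v)).re)) := by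
    refine Finset.sum_le_sum fun v _ => unit_re _ _ ?_ ?_
    · rw [norm_mul, hc, one_mul]
      exact AddChar.norm_apply _ _
    · rw [norm_mul, hd, one_mul]
      exact AddChar.norm_apply _ _
  rw [Finset.sum_sub_distrib, Finset.sum_add_distrib, ← Finset.mul_sum, ← Finset.mul_sum,
    Finset.sum_sub_distrib, Finset.sum_sub_distrib, ← e1, ← e2, Finset.sum_const,
    nsmul_eq_mul, mul_one] at e4
  linarith

/-- the arithmetic-geometric inequality -/
theorem amgm {n : ℕ} (hn : 1 ≤ n) (a : Fin n → ℝ) (ha : ∀ i, 0 ≤ a i) :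
    (n : ℝ) * ∏ i, a i ≤ ∑ i, a i ^ n := by
  have hn0 : (n : ℝ) ≠ 0 := by
    have : (0 : ℝ) < n := by exact_mod_cast hn
    exact this.ne'
  have h1 := Real.geom_mean_le_arith_mean_weighted Finset.univ (fun _ : Fin n => (n : ℝ)⁻¹)
    (fun i => a i ^ n) (fun _ _ => by positivity) (by
      rw [Finset.sum_const, Finset.card_univ, Fintype.card_fin, nsmul_eq_mul]
      exact mul_inv_cancel₀ hn0) (fun i _ => pow_nonneg (ha i) n)
  have h2 : ∏ i, (a i ^ n) ^ (n : ℝ)⁻¹ = ∏ i, a i :=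
    Finset.prod_congr rfl fun i _ => Real.pow_rpow_inv_natCast (ha i) (by omega)
  rw [h2, ← Finset.mul_sum] at h1
  calc (n : ℝ) * ∏ i, a i ≤ n * ((n : ℝ)⁻¹ * ∑ i, a i ^ n) :=
        mul_le_mul_of_nonneg_left h1 (Nat.cast_nonneg _)
    _ = ∑ i, a i ^ n := by rw [← mul_assoc, mul_inv_cancel₀ hn0, one_mul]

theorem char_sum {B ι : Type*} [AddCommMonoid B] (ψ : AddChar B ℂ) (s : Finset ι) (f : ι → B) :
    ψ (∑ i ∈ s, f i) = ∏ i ∈ s, ψ (f i) := by
  classical
  induction s using Finset.induction_on with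
  | empty => simp
  | insert a s ha ih => rw [Finset.sum_insert ha, Finset.prod_insert ha, AddChar.map_add_eq_mul, ih]

/-- the number of solutions by characters -/
theorem count_char {q n : ℕ} [NeZero q] (V : Fin n → Finset (ZMod q)) (z : ZMod q) :
    (q : ℝ) * ((Fintype.piFinset V).filter (fun v => ∑ i, v i = z)).card ≤
      ∑ x, ∏ i, ‖es (V i) x‖ := by
  have h1 : ((q : ℂ)) * ((Fintype.piFinset V).filter (fun v => ∑ i, v i = z)).card =
      ∑ x : ZMod q, (ZMod.stdAddChar (-(x * z)) : ℂ) * ∏ i, es (V i) x := by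
    have h2 : ∀ x : ZMod q, (ZMod.stdAddChar (-(x * z)) : ℂ) * ∏ i, es (V i) x =
        ∑ v ∈ Fintype.piFinset V, (ZMod.stdAddChar (x * (∑ i, v i - z)) : ℂ) := by
      intro x
      unfold es
      rw [Finset.prod_univ_sum, Finset.mul_sum]
      refine Finset.sum_congr rfl fun v _ => ?_
      rw [← char_sum, ← AddChar.map_add_eq_mul, ← Finset.mul_sum]
      congr 1
      ring
    rw [Finset.sum_congr rfl (fun x _ => h2 x), Finset.sum_comm]
    have h3 : ∀ v ∈ Fintype.piFinset V, ∑ x : ZMod q,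
        (ZMod.stdAddChar (x * (∑ i, v i - z)) : ℂ) = if ∑ i, v i = z then (q : ℂ) else 0 := by
      intro v _
      rw [AddChar.sum_mulShift _ (ZMod.isPrimitive_stdAddChar q), ZMod.card]
      by_cases h : ∑ i, v i = z
      · rw [if_pos h, if_pos (sub_eq_zero.2 h)]
      · rw [if_neg h, if_neg (fun h' => h (sub_eq_zero.1 h'))]
        simp
    rw [Finset.sum_congr rfl h3, ← Finset.sum_filter, Finset.sum_const, nsmul_eq_mul, mul_comm]
  have h4 : ‖((q : ℂ)) * ((Fintype.piFinset V).filter (fun v => ∑ i, v i = z)).card‖ =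
      (q : ℝ) * ((Fintype.piFinset V).filter (fun v => ∑ i, v i = z)).card := by
    rw [norm_mul, Complex.norm_natCast, Complex.norm_natCast]
  rw [← h4, h1]
  refine (norm_sum_le _ _).trans (Finset.sum_le_sum fun x _ => le_of_eq ?_)
  rw [norm_mul, AddChar.norm_apply, one_mul, norm_prod]

theorem conc_mod {q : ℕ} [NeZero q] (hq : q.Prime) (J M : ℕ) (hJ : 1 ≤ J) (hM : 2 ≤ M)
    (hJq : 2 ^ J * M ≤ q) (V : Fin (4 ^ J) → Finset (ZMod q)) (hV : ∀ i, (V i).card = M)
    (z : ZMod q) :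
    ((Fintype.piFinset V).filter (fun v => ∑ i, v i = z)).card * (2 ^ J * M) ≤
      52 * M ^ (4 ^ J) := by
  have hq0 : (0 : ℝ) < q := by exact_mod_cast hq.pos
  have hM2 : (2 : ℝ) ≤ M := by exact_mod_cast hM
  have hM0 : (0 : ℝ) < M := by linarith
  have hn1 : 1 ≤ 4 ^ J := Nat.one_le_pow _ _ (by norm_num)
  have hn0 : (0 : ℝ) < ((4 ^ J : ℕ) : ℝ) := by exact_mod_cast hn1
  have h1 := count_char V z
  have h2 : ∀ i, ∑ x, ‖es (V i) x‖ ^ (4 ^ J) ≤
      (M : ℝ) ^ (4 ^ J) * (52 * (1 / 2) ^ J * (q / M)) := by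
    intro i
    have h3 := sum_pow_le hq (fun x => ‖es (V i) x‖ / M) (M : ℝ) hM2
      (by
        show ‖es (V i) 0‖ / M = 1
        rw [es_zero, hV i, Complex.norm_natCast]
        exact div_self hM0.ne')
      (fun x => div_nonneg (norm_nonneg _) hM0.le)
      (fun x => by
        show ‖es (V i) x‖ / M ≤ 1
        rw [div_le_one hM0]
        have := es_norm_le (V i) x
        rwa [hV i] at this)
      (fun x y => by
        show 1 - ‖es (V i) (x + y)‖ / M ≤ 2 * (1 - ‖es (V i) x‖ / M) + 2 * (1 - ‖es (V i) y‖ / M)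
        have h4 := es_sub (V i) x y
        rw [hV i] at h4
        have h5 := div_le_div_of_nonneg_right h4 hM0.le
        have e1 : ((M : ℝ) - ‖es (V i) (x + y)‖) / M = 1 - ‖es (V i) (x + y)‖ / M := by
          rw [sub_div, div_self hM0.ne']
        have e2 : (2 * ((M : ℝ) - ‖es (V i) x‖) + 2 * ((M : ℝ) - ‖es (V i) y‖)) / M =
            2 * (1 - ‖es (V i) x‖ / M) + 2 * (1 - ‖es (V i) y‖ / M) := by
          field_simp
        rwa [e1, e2] at h5)
      (by
        have h4 := es_sq (V i)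
        rw [hV i] at h4
        have h5 : ∑ x, (‖es (V i) x‖ / M) ^ 2 = (∑ x, ‖es (V i) x‖ ^ 2) / M ^ 2 := by
          rw [Finset.sum_div]
          exact Finset.sum_congr rfl fun x _ => div_pow _ _ _
        show ∑ x, (‖es (V i) x‖ / M) ^ 2 ≤ q / M
        rw [h5, h4]
        refine le_of_eq ?_
        field_simp)
      J hJ (by exact_mod_cast hJq)
    calc ∑ x, ‖es (V i) x‖ ^ (4 ^ J) = ∑ x, (M : ℝ) ^ (4 ^ J) * (‖es (V i) x‖ / M) ^ (4 ^ J) := by
          refine Finset.sum_congr rfl fun x _ => ?_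
          rw [← mul_pow]
          congr 1
          field_simp
      _ = (M : ℝ) ^ (4 ^ J) * ∑ x, (‖es (V i) x‖ / M) ^ (4 ^ J) := by rw [Finset.mul_sum]
      _ ≤ _ := mul_le_mul_of_nonneg_left h3 (by positivity)
  have h3 : ((4 ^ J : ℕ) : ℝ) * ((q : ℝ) *
      ((Fintype.piFinset V).filter (fun v => ∑ i, v i = z)).card) ≤
      ((4 ^ J : ℕ) : ℝ) * ((M : ℝ) ^ (4 ^ J) * (52 * (1 / 2) ^ J * (q / M))) := by
    calc ((4 ^ J : ℕ) : ℝ) * ((q : ℝ) *
        ((Fintype.piFinset V).filter (fun v => ∑ i, v i = z)).card) ≤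
        ((4 ^ J : ℕ) : ℝ) * ∑ x, ∏ i, ‖es (V i) x‖ := mul_le_mul_of_nonneg_left h1 hn0.le
      _ = ∑ x, ((4 ^ J : ℕ) : ℝ) * ∏ i, ‖es (V i) x‖ := by rw [Finset.mul_sum]
      _ ≤ ∑ x, ∑ i, ‖es (V i) x‖ ^ (4 ^ J) :=
          Finset.sum_le_sum fun x _ => amgm hn1 _ fun i => norm_nonneg _
      _ = ∑ i, ∑ x, ‖es (V i) x‖ ^ (4 ^ J) := Finset.sum_comm
      _ ≤ ∑ _i : Fin (4 ^ J), (M : ℝ) ^ (4 ^ J) * (52 * (1 / 2) ^ J * (q / M)) :=
          Finset.sum_le_sum fun i _ => h2 i
      _ = _ := by rw [Finset.sum_const, Finset.card_univ, Fintype.card_fin, nsmul_eq_mul]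
  have h4 := le_of_mul_le_mul_left h3 hn0
  have h5 : (((Fintype.piFinset V).filter (fun v => ∑ i, v i = z)).card : ℝ) * (2 ^ J * M) ≤
      52 * M ^ (4 ^ J) := by
    have h6 : (q : ℝ) * ((((Fintype.piFinset V).filter (fun v => ∑ i, v i = z)).card : ℝ) *
        (2 ^ J * M)) ≤ q * (52 * M ^ (4 ^ J)) := by
      calc (q : ℝ) * ((((Fintype.piFinset V).filter (fun v => ∑ i, v i = z)).card : ℝ) *
          (2 ^ J * M)) = ((q : ℝ) * ((Fintype.piFinset V).filter
            (fun v => ∑ i, v i = z)).card) * (2 ^ J * M) := by ring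
        _ ≤ ((M : ℝ) ^ (4 ^ J) * (52 * (1 / 2) ^ J * (q / M))) * (2 ^ J * M) :=
            mul_le_mul_of_nonneg_right h4 (by positivity)
        _ = q * (52 * M ^ (4 ^ J)) * ((1 / 2) ^ J * 2 ^ J) := by
            field_simp
        _ = q * (52 * M ^ (4 ^ J)) := by
            rw [← mul_pow]
            norm_num
    exact le_of_mul_le_mul_left h6 hq0
  exact_mod_cast h5

/-- **Concentration** of a sum of independent uniform integers. -/
theorem conc (J M : ℕ) (hM : 2 ≤ M) (V : Fin (4 ^ J) → Finset ℤ) (hV : ∀ i, (V i).card = M)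
    (z : ℤ) :
    ((Fintype.piFinset V).filter (fun v => ∑ i, v i = z)).card * (2 ^ J * M) ≤
      52 * M ^ (4 ^ J) := by
  rcases Nat.eq_zero_or_pos J with hJ | hJ
  · subst hJ
    have h1 : ((Fintype.piFinset V).filter (fun v => ∑ i, v i = z)).card ≤ 1 := by
      rw [Finset.card_le_one]
      intro v hv w hw
      have h2 := (Finset.mem_filter.1 hv).2
      have h3 := (Finset.mem_filter.1 hw).2
      have hn : 4 ^ 0 = 1 := by norm_num
      have h4 : ∀ i j : Fin (4 ^ 0), i = j := fun i j => Fin.ext (by omega)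
      have h5 : ∀ u : Fin (4 ^ 0) → ℤ, ∀ i, ∑ k, u k = u i := by
        intro u i
        rw [Finset.sum_eq_single i (fun k _ hk => absurd (h4 k i) hk)
          (fun h => absurd (Finset.mem_univ i) h)]
      funext i
      rw [← h5 v i, ← h5 w i, h2, h3]
    have h2 : (4 : ℕ) ^ 0 = 1 := by norm_num
    have h3 : (2 : ℕ) ^ 0 * M = M := by rw [pow_zero, one_mul]
    refine le_trans (Nat.mul_le_mul h1 (le_of_eq h3)) ?_
    rw [h2, pow_one]
    omega
  · -- a large prime
    obtain ⟨H, hH⟩ : ∃ H : ℕ, ∀ i, ∀ v ∈ V i, v.natAbs ≤ H := by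
      refine ⟨∑ i, ∑ v ∈ V i, v.natAbs, fun i v hv => ?_⟩
      refine (Finset.single_le_sum (f := fun v : ℤ => v.natAbs) (fun _ _ => Nat.zero_le _) hv).trans ?_
      exact Finset.single_le_sum (f := fun i => ∑ v ∈ V i, v.natAbs) (fun _ _ => Nat.zero_le _)
        (Finset.mem_univ i)
    obtain ⟨q, hqle, hq⟩ := Nat.exists_infinite_primes (2 * H + 1 + 2 ^ J * M)
    have : NeZero q := ⟨hq.ne_zero⟩
    have hinj : ∀ i, ∀ v ∈ V i, ∀ w ∈ V i, (v : ZMod q) = (w : ZMod q) → v = w := by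
      intro i v hv w hw h
      have h1 := (ZMod.intCast_eq_intCast_iff_dvd_sub v w q).1 h
      have h2 := hH i v hv
      have h3 := hH i w hw
      have h4 : w - v = 0 := by
        refine Int.eq_zero_of_abs_lt_dvd h1 ?_
        have h5 : |w - v| ≤ 2 * H := by
          rw [abs_le]
          omega
        have h6 : ((2 * H + 1 + 2 ^ J * M : ℕ) : ℤ) ≤ q := by exact_mod_cast hqle
        push_cast at h6
        have h7 : (0 : ℤ) ≤ 2 ^ J * M := by positivity
        linarith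
      linarith
    have h1 := conc_mod hq J M hJ hM (by
      refine le_trans ?_ hqle
      omega) (fun i => (V i).image (fun v : ℤ => (v : ZMod q))) (fun i => by
        rw [Finset.card_image_of_injOn, hV i]
        intro v hv w hw h
        exact hinj i v (Finset.mem_coe.1 hv) w (Finset.mem_coe.1 hw) h) (z : ZMod q)
    refine le_trans (Nat.mul_le_mul_right _ ?_) h1
    refine Finset.card_le_card_of_injOn (fun v => fun i => (v i : ZMod q)) ?_ ?_
    · intro v hv
      have h2 := Finset.mem_filter.1 (Finset.mem_coe.1 hv)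
      refine Finset.mem_coe.2 (Finset.mem_filter.2 ⟨Fintype.mem_piFinset.2 fun i => ?_, ?_⟩)
      · exact Finset.mem_image_of_mem _ (Fintype.mem_piFinset.1 h2.1 i)
      · rw [← h2.2]
        push_cast
        rfl
    · intro v hv w hw h
      have h2 := Finset.mem_filter.1 (Finset.mem_coe.1 hv)
      have h3 := Finset.mem_filter.1 (Finset.mem_coe.1 hw)
      funext i
      exact hinj i _ (Fintype.mem_piFinset.1 h2.1 i) _ (Fintype.mem_piFinset.1 h3.1 i)
        (congrFun h i)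

end Pool.Agent.Helper15.GPR
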