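import Mathlib

set_option autoImplicit false

/-!
# Project GL++ (MP_120218), Power: popular ratios and their powers
-/

namespace Pool.Agent.Helper15.GPR

open Finset

/-- the elements of `A` whose multiple by `x` lies in `B` -/
def inc (A : Finset ℤ) (B : Finset ℚ) (x : ℚ) : Finset ℤ := A.filter (fun a => (a : ℚ) * x ∈ B)

/-- the number of elements of `A` whose multiple by `x` lies in `A` -/
def ww (A : Finset ℤ) (x : ℚ) : ℕ := (inc A (A.image (fun a : ℤ => (a : ℚ))) x).card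

theorem mem_inc {A : Finset ℤ} {B : Finset ℚ} {x : ℚ} {a : ℤ} :
    a ∈ inc A B x ↔ a ∈ A ∧ (a : ℚ) * x ∈ B := Finset.mem_filter

theorem ww_le (A : Finset ℤ) (x : ℚ) : ww A x ≤ A.card := Finset.card_filter_le _ _

/-- **Cauchy-Schwarz** -/
theorem cs {ι : Type*} (A : Finset ℤ) (B : Finset ℚ) (s : Finset ι) (φ : ι → ℚ)
    (h : ∀ i ∈ s, φ i ≠ 0) :
    (∑ i ∈ s, (inc A B (φ i)).card) ^ 2 ≤ B.card * ∑ i ∈ s, ∑ j ∈ s, ww A (φ i / φ j) := by
  classical
  obtain ⟨Rel, hRel⟩ : ∃ Rel : ι → ℚ → Prop, Rel = fun i z => ∃ a ∈ A, (a : ℚ) * φ i = z :=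
    ⟨_, rfl⟩
  have h1 : ∀ i ∈ s, (inc A B (φ i)).card = (B.filter (fun z => Rel i z)).card := by
    intro i hi
    rw [← Finset.card_image_of_injOn (s := inc A B (φ i)) (f := fun a : ℤ => (a : ℚ) * φ i)]
    · congr 1
      ext z
      rw [Finset.mem_image, Finset.mem_filter, hRel]
      constructor
      · rintro ⟨a, ha, rfl⟩
        rw [mem_inc] at ha
        exact ⟨ha.2, a, ha.1, rfl⟩
      · rintro ⟨hz, a, ha, rfl⟩
        exact ⟨a, mem_inc.2 ⟨ha, hz⟩, rfl⟩
    · intro a _ b _ hab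
      have h2 := mul_right_cancel₀ (h i hi) hab
      exact_mod_cast h2
  have h2 : ∑ i ∈ s, (inc A B (φ i)).card = ∑ z ∈ B, (s.filter (fun i => Rel i z)).card := by
    rw [Finset.sum_congr rfl h1]
    simp_rw [Finset.card_filter]
    exact Finset.sum_comm
  rw [h2]
  refine (sq_sum_le_card_mul_sum_sq).trans (Nat.mul_le_mul_left _ ?_)
  have h3 : ∀ z ∈ B, (s.filter (fun i => Rel i z)).card ^ 2 =
      ∑ i ∈ s, ∑ j ∈ s, if Rel i z ∧ Rel j z then 1 else 0 := by
    intro z _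
    rw [sq, Finset.card_filter, Finset.sum_mul_sum]
    refine Finset.sum_congr rfl fun i _ => Finset.sum_congr rfl fun j _ => ?_
    by_cases h4 : Rel i z
    · by_cases h5 : Rel j z
      · simp [h4, h5]
      · simp [h4, h5]
    · simp [h4]
  rw [Finset.sum_congr rfl h3, Finset.sum_comm]
  refine Finset.sum_le_sum fun i hi => ?_
  rw [Finset.sum_comm]
  refine Finset.sum_le_sum fun j hj => ?_
  rw [← Finset.card_filter]
  unfold ww
  refine le_trans ?_ (Finset.card_image_le (f := fun a : ℤ => (a : ℚ)))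
  refine Finset.card_le_card_of_injOn (fun z => z / φ i) ?_ ?_
  · intro z hz
    obtain ⟨-, h4, h5⟩ := Finset.mem_filter.1 (Finset.mem_coe.1 hz)
    rw [hRel] at h4 h5
    obtain ⟨a, ha, h4⟩ := h4
    obtain ⟨a', ha', h5⟩ := h5
    refine Finset.mem_coe.2 (Finset.mem_image.2 ⟨a, mem_inc.2 ⟨ha, ?_⟩, ?_⟩)
    · refine Finset.mem_image.2 ⟨a', ha', ?_⟩
      show (a' : ℚ) = (a : ℚ) * (φ i / φ j)
      rw [← mul_div_assoc, h4, ← h5, mul_div_assoc, div_self (h j hj), mul_one]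
    · show (a : ℚ) = z / φ i
      rw [← h4, mul_div_assoc, div_self (h i hi), mul_one]
  · intro z _ z' _ hzz
    exact (div_left_inj' (h i hi)).1 hzz

/-- sums over products of `n` factors -/
def TT {κ : Type*} (K : Finset κ) (x : κ → ℚ) (n : ℕ) (f : ℚ → ℕ) : ℕ :=
  ∑ τ ∈ Fintype.piFinset (fun _ : Fin n => K), f (∏ i, x (τ i))

theorem TT_add {κ : Type*} (K : Finset κ) (x : κ → ℚ) (n m : ℕ) (f : ℚ → ℕ) :
    TT K x (n + m) f = TT K x n (fun y => TT K x m (fun z => f (y * z))) := by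
  unfold TT
  rw [← Finset.sum_product' (f := fun (τ : Fin n → κ) (σ : Fin m → κ) =>
    f ((∏ i, x (τ i)) * ∏ i, x (σ i)))]
  refine Finset.sum_bij' (fun τ _ => (fun i => τ (Fin.castAdd m i), fun i => τ (Fin.natAdd n i)))
    (fun p _ => Fin.append p.1 p.2) ?_ ?_ ?_ ?_ ?_
  · intro τ hτ
    rw [Fintype.mem_piFinset] at hτ
    exact Finset.mem_product.2 ⟨Fintype.mem_piFinset.2 fun i => hτ _,
      Fintype.mem_piFinset.2 fun i => hτ _⟩
  · intro p hp
    rw [Finset.mem_product, Fintype.mem_piFinset, Fintype.mem_piFinset] at hp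
    rw [Fintype.mem_piFinset]
    intro i
    refine Fin.addCases (fun j => ?_) (fun j => ?_) i
    · rw [Fin.append_left]
      exact hp.1 j
    · rw [Fin.append_right]
      exact hp.2 j
  · intro τ _
    funext i
    refine Fin.addCases (fun j => ?_) (fun j => ?_) i
    · rw [Fin.append_left]
    · rw [Fin.append_right]
  · intro p _
    refine Prod.ext (funext fun i => ?_) (funext fun i => ?_)
    · exact Fin.append_left _ _ _
    · exact Fin.append_right _ _ _
  · intro τ _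
    rw [Fin.prod_univ_add]

theorem TT_one {κ : Type*} (K : Finset κ) (x : κ → ℚ) (f : ℚ → ℕ) :
    TT K x 1 f = ∑ k ∈ K, f (x k) := by
  unfold TT
  refine Finset.sum_bij' (fun τ _ => τ 0) (fun k _ => fun _ => k) ?_ ?_ ?_ ?_ ?_
  · intro τ hτ
    exact Fintype.mem_piFinset.1 hτ 0
  · intro k hk
    exact Fintype.mem_piFinset.2 fun _ => hk
  · intro τ _
    funext i
    rw [Fin.fin_one_eq_zero i]
  · intro k _
    rfl
  · intro τ _
    rw [Fin.prod_univ_one]

/-- the energy of `n` steps -/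
def II {κ : Type*} (A : Finset ℤ) (K : Finset κ) (x : κ → ℚ) (n : ℕ) : ℕ :=
  TT K x n (fun y => TT K x n (fun z => ww A (y / z)))

theorem II_double {κ : Type*} (A : Finset ℤ) (K : Finset κ) (x : κ → ℚ) (hx : ∀ k, x k ≠ 0)
    (n : ℕ) : II A K x n ^ 2 ≤ A.card * II A K x (n + n) := by
  classical
  obtain ⟨F, hF⟩ : ∃ F, F = Fintype.piFinset (fun _ : Fin n => K) := ⟨_, rfl⟩
  obtain ⟨g, hg⟩ : ∃ g : (Fin n → κ) → ℚ, g = fun τ => ∏ i, x (τ i) := ⟨_, rfl⟩
  have hg0 : ∀ τ, g τ ≠ 0 := by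
    intro τ
    rw [hg]
    exact Finset.prod_ne_zero_iff.2 fun i _ => hx _
  have h1 : II A K x n = ∑ p ∈ F ×ˢ F, ww A (g p.1 / g p.2) := by
    rw [Finset.sum_product, hF, hg]
    rfl
  have h2 : II A K x (n + n) = ∑ p ∈ F ×ˢ F, ∑ p' ∈ F ×ˢ F,
      ww A ((g p.1 / g p.2) / (g p'.1 / g p'.2)) := by
    have e1 : II A K x (n + n) = ∑ a ∈ F, ∑ b ∈ F, ∑ c ∈ F, ∑ d ∈ F,
        ww A ((g a * g b) / (g c * g d)) := by
      unfold II
      rw [TT_add]
      have : ∀ y z : ℚ, TT K x (n + n) (fun w => ww A (y * z / w)) =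
          TT K x n (fun u => TT K x n (fun v => ww A (y * z / (u * v)))) := by
        intro y z
        rw [TT_add]
      simp_rw [this]
      rw [hF, hg]
      rfl
    rw [e1, Finset.sum_product]
    simp_rw [Finset.sum_product]
    refine Finset.sum_congr rfl fun a _ => ?_
    rw [Finset.sum_comm]
    refine Finset.sum_congr rfl fun c _ => ?_
    rw [Finset.sum_comm]
    refine Finset.sum_congr rfl fun d _ => ?_
    refine Finset.sum_congr rfl fun b _ => ?_
    congr 1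
    have := hg0 a
    have := hg0 b
    have := hg0 c
    have := hg0 d
    field_simp
  rw [h1, h2]
  have h3 := cs A (A.image (fun a : ℤ => (a : ℚ))) (F ×ˢ F) (fun p => g p.1 / g p.2)
    (fun p _ => div_ne_zero (hg0 _) (hg0 _))
  refine h3.trans (Nat.mul_le_mul_right _ Finset.card_image_le)

theorem II_one {κ : Type*} (A : Finset ℤ) (K : Finset κ) (x : κ → ℚ) (hx : ∀ k, x k ≠ 0) :
    (∑ k ∈ K, ww A (x k)) ^ 2 ≤ A.card * II A K x 1 := by
  have h3 := cs A (A.image (fun a : ℤ => (a : ℚ))) K x (fun k _ => hx k)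
  refine h3.trans (Nat.mul_le_mul Finset.card_image_le (le_of_eq ?_))
  unfold II
  simp_rw [TT_one]

/-- the energy of `2 ^ i` steps -/
theorem II_pow {κ : Type*} (A : Finset ℤ) (hA : A.Nonempty) (K : Finset κ) (x : κ → ℚ)
    (hx : ∀ k, x k ≠ 0) (l : ℝ) (hl : ∀ k ∈ K, Real.exp (-l) * A.card ≤ ww A (x k)) (i : ℕ) :
    Real.exp (-(2 * l * 2 ^ i)) * (K.card : ℝ) ^ (2 * 2 ^ i) * A.card ≤ II A K x (2 ^ i) := by
  have hA0 : (0 : ℝ) < A.card := by exact_mod_cast hA.card_pos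
  induction i with
  | zero =>
    have h1 : (K.card : ℝ) * (Real.exp (-l) * A.card) ≤ ∑ k ∈ K, (ww A (x k) : ℝ) := by
      have := Finset.card_nsmul_le_sum K (fun k => (ww A (x k) : ℝ)) _ hl
      rwa [nsmul_eq_mul] at this
    have h2 : ((∑ k ∈ K, ww A (x k) : ℕ) : ℝ) ^ 2 ≤ A.card * II A K x 1 := by
      exact_mod_cast II_one A K x hx
    have h3 : ((K.card : ℝ) * (Real.exp (-l) * A.card)) ^ 2 ≤ A.card * II A K x 1 := by
      refine le_trans (pow_le_pow_left₀ (by positivity) ?_ 2) h2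
      push_cast
      exact h1
    have h4 : (A.card : ℝ) * (Real.exp (-(2 * l)) * (K.card : ℝ) ^ 2 * A.card) ≤
        A.card * II A K x 1 := by
      refine le_trans (le_of_eq ?_) h3
      have : Real.exp (-(2 * l)) = Real.exp (-l) ^ 2 := by
        rw [← Real.exp_nat_mul]
        congr 1
        push_cast
        ring
      rw [this]
      ring
    have h5 := le_of_mul_le_mul_left h4 hA0
    simpa using h5
  | succ i ih =>
    have h1 : ((II A K x (2 ^ i) : ℕ) : ℝ) ^ 2 ≤ A.card * II A K x (2 ^ i + 2 ^ i) := by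
      exact_mod_cast II_double A K x hx (2 ^ i)
    have h2 : (Real.exp (-(2 * l * 2 ^ i)) * (K.card : ℝ) ^ (2 * 2 ^ i) * A.card) ^ 2 ≤
        A.card * II A K x (2 ^ i + 2 ^ i) :=
      le_trans (pow_le_pow_left₀ (by positivity) ih 2) h1
    have e1 : (2 : ℕ) ^ (i + 1) = 2 ^ i + 2 ^ i := by ring
    have h4 : (A.card : ℝ) * (Real.exp (-(2 * l * 2 ^ (i + 1))) *
        (K.card : ℝ) ^ (2 * 2 ^ (i + 1)) * A.card) ≤ A.card * II A K x (2 ^ i + 2 ^ i) := by
      refine le_trans (le_of_eq ?_) h2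
      have e2 : Real.exp (-(2 * l * 2 ^ (i + 1))) = Real.exp (-(2 * l * 2 ^ i)) ^ 2 := by
        rw [← Real.exp_nat_mul]
        congr 1
        push_cast
        ring
      have e3 : (K.card : ℝ) ^ (2 * 2 ^ (i + 1)) = ((K.card : ℝ) ^ (2 * 2 ^ i)) ^ 2 := by
        rw [← pow_mul]
        congr 1
        ring
      rw [e2, e3]
      ring
    have h5 := le_of_mul_le_mul_left h4 hA0
    rw [e1]
    rwa [e1] at h5

end Pool.Agent.Helper15.GPR
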