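import Pool.Agent.Helper15.GPR.Walk
import Pool.Agent.Helper15.GPR.Power
import Pool.Agent.Helper15.GPQ.Comb

set_option autoImplicit false

/-!
# Project GL++ (MP_120218), Extract: many popular ratios with distinct valuations at few primes
-/

namespace Pool.Agent.Helper15.GPR

open Finset Pool.Agent.Helper15.GLP Pool.Agent.Helper15.GPP Pool.Agent.Helper15.GPQ

/-- the valuations -/
def vq {R : ℕ} (pr : Fin R → ℕ) (x : ℚ) : Fin R → ℤ := fun j => padicValRat (pr j) x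

theorem vq_mul {R : ℕ} (pr : Fin R → ℕ) (hpr : ∀ j, (pr j).Prime) (x y : ℚ) (hx : x ≠ 0)
    (hy : y ≠ 0) (j : Fin R) : vq pr (x * y) j = vq pr x j + vq pr y j := by
  have := Fact.mk (hpr j)
  exact padicValRat.mul hx hy

theorem vq_div {R : ℕ} (pr : Fin R → ℕ) (hpr : ∀ j, (pr j).Prime) (x y : ℚ) (hx : x ≠ 0)
    (hy : y ≠ 0) (j : Fin R) : vq pr (x / y) j = vq pr x j - vq pr y j := by
  have := Fact.mk (hpr j)
  exact padicValRat.div hx hy

theorem vq_prod {R : ℕ} (pr : Fin R → ℕ) (hpr : ∀ j, (pr j).Prime) {ι : Type*} (s : Finset ι)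
    (f : ι → ℚ) (hf : ∀ i ∈ s, f i ≠ 0) (j : Fin R) :
    vq pr (∏ i ∈ s, f i) j = ∑ i ∈ s, vq pr (f i) j := by
  classical
  induction s using Finset.induction_on with
  | empty =>
    rw [Finset.prod_empty, Finset.sum_empty]
    exact padicValRat.one
  | insert a s ha ih =>
    rw [Finset.prod_insert ha, Finset.sum_insert ha, vq_mul pr hpr _ _
      (hf a (Finset.mem_insert_self _ _)) (Finset.prod_ne_zero_iff.2 fun i hi =>
        hf i (Finset.mem_insert_of_mem hi)), ih fun i hi => hf i (Finset.mem_insert_of_mem hi)]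

theorem prod_wl {R : ℕ} (J : ℕ) (b : Fin R → ℕ) : ∏ j, wl J (b j) = (2 ^ J) ^ sup b * bx b := by
  unfold GPQ.sup bx wl
  rw [← Finset.prod_const, Finset.prod_filter, ← Finset.prod_mul_distrib]
  refine Finset.prod_congr rfl fun j _ => ?_
  by_cases h : b j = 0
  · rw [if_pos h, if_neg (not_not.2 h), h, zero_add, mul_one]
  · rw [if_neg h, if_pos h]

theorem prod_wu {R : ℕ} (J : ℕ) (b : Fin R → ℕ) :
    ∏ j, wu J (b j) = 52 ^ sup b * bx b ^ (4 ^ J) := by
  unfold GPQ.sup bx wu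
  rw [← Finset.prod_const, Finset.prod_filter, ← Finset.prod_pow, ← Finset.prod_mul_distrib]
  refine Finset.prod_congr rfl fun j _ => ?_
  by_cases h : b j = 0
  · rw [if_pos h, if_neg (not_not.2 h), h, zero_add, one_pow, mul_one]
  · rw [if_neg h, if_pos h]

theorem transversal {α β : Type*} [DecidableEq β] (P : Finset α) (f : α → β) :
    ∃ T : Finset α, T ⊆ P ∧ (∀ x ∈ T, ∀ y ∈ T, f x = f y → x = y) ∧ T.card = (P.image f).card := by
  classical
  have h1 : ∀ z : β, ∃ x : Option α, z ∈ P.image f → ∃ y ∈ P, x = some y ∧ f y = z := by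
    intro z
    by_cases hz : z ∈ P.image f
    · obtain ⟨y, hy, h2⟩ := Finset.mem_image.1 hz
      exact ⟨some y, fun _ => ⟨y, hy, rfl, h2⟩⟩
    · exact ⟨none, fun h => absurd h hz⟩
  choose g hg using h1
  refine ⟨P.filter (fun x => g (f x) = some x), Finset.filter_subset _ _, ?_, ?_⟩
  · intro x hx y hy hxy
    have h2 := (Finset.mem_filter.1 hx).2
    have h3 := (Finset.mem_filter.1 hy).2
    rw [hxy, h3] at h2
    exact (Option.some.inj h2).symm
  · refine Finset.card_bij (fun x _ => f x) ?_ ?_ ?_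
    · intro x hx
      exact Finset.mem_image_of_mem _ (Finset.mem_filter.1 hx).1
    · intro x hx y hy hxy
      have h2 := (Finset.mem_filter.1 hx).2
      have h3 := (Finset.mem_filter.1 hy).2
      have hxy' : f x = f y := hxy
      rw [hxy', h3] at h2
      exact (Option.some.inj h2).symm
    · intro z hz
      obtain ⟨y, hy, h2, h3⟩ := hg z hz
      refine ⟨y, Finset.mem_filter.2 ⟨hy, ?_⟩, h3⟩
      rw [h3]
      exact h2

/-- **Popular ratios with distinct valuations at few primes.** -/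
theorem extract (A : Finset ℤ) (hA : A.Nonempty) {R : ℕ} (pr : Fin R → ℕ)
    (hpr : ∀ j, (pr j).Prime) (X : Finset ℚ) (hX0 : ∀ x ∈ X, 0 < x) (l : ℝ)
    (hl : ∀ x ∈ X, Real.exp (-l) * A.card ≤ ww A x) (b : Fin R → ℕ)
    (hb : Tr (X.image (vq pr)) b) (J : ℕ) :
    ∃ Q : Finset ℚ, (∀ x ∈ Q, 0 < x) ∧
      (∀ x ∈ Q, Real.exp (-(2 * l * 4 ^ J)) / 2 * A.card ≤ ww A x) ∧
      (∀ x ∈ Q, ∀ y ∈ Q, (∀ j, b j ≠ 0 → padicValRat (pr j) x = padicValRat (pr j) y) → x = y) ∧
      Real.exp (-(2 * l * 4 ^ J)) / 2 * (2 ^ J / 52) ^ sup b * ((bx b : ℕ) : ℝ) ≤ Q.card := by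
  classical
  have hA0 : (0 : ℝ) < A.card := by exact_mod_cast hA.card_pos
  obtain ⟨s, hs, hs2⟩ := hb
  have hch : ∀ t : Fin R → ℕ, ∃ x : ℚ, 0 < x ∧ ((∀ j, t j ≤ b j) → x ∈ X ∧ vq pr x = s t) := by
    intro t
    by_cases ht : ∀ j, t j ≤ b j
    · obtain ⟨x, hx, hxs⟩ := Finset.mem_image.1 (hs t ht)
      exact ⟨x, hX0 x hx, fun _ => ⟨hx, hxs⟩⟩
    · exact ⟨1, one_pos, fun h => absurd h ht⟩
  choose y hy0 hy using hch
  obtain ⟨K, hK⟩ : ∃ K : Finset (Fin R → ℕ), K = Fintype.piFinset (fun j => Finset.range (b j + 1)) :=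
    ⟨_, rfl⟩
  have memK : ∀ t, t ∈ K ↔ ∀ j, t j ≤ b j := by
    intro t
    rw [hK, Fintype.mem_piFinset]
    exact forall_congr' fun j => by rw [Finset.mem_range, Nat.lt_succ_iff]
  have cardK : K.card = bx b := by
    rw [hK, Fintype.card_piFinset]
    unfold bx
    exact Finset.prod_congr rfl fun j _ => Finset.card_range _
  have hKp : (0 : ℝ) < K.card := by
    rw [cardK]
    exact_mod_cast bx_pos b
  have hpow := II_pow A hA K y (fun k => (hy0 k).ne') l (fun k hk =>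
    hl _ ((hy k ((memK k).1 hk)).1)) (2 * J)
  have e2 : (2 : ℕ) ^ (2 * J) = 4 ^ J := by
    rw [pow_mul]
    norm_num
  have e3 : (2 : ℝ) ^ (2 * J) = 4 ^ J := by
    rw [pow_mul]
    norm_num
  rw [e2, e3] at hpow
  obtain ⟨θ, hθ⟩ : ∃ θ : ℝ, θ = Real.exp (-(2 * l * 4 ^ J)) := ⟨_, rfl⟩
  rw [← hθ] at hpow ⊢
  have hθ0 : 0 < θ := by rw [hθ]; exact Real.exp_pos _
  obtain ⟨F, hF⟩ : ∃ F, F = Fintype.piFinset (fun _ : Fin (4 ^ J) => K) := ⟨_, rfl⟩
  obtain ⟨g, hg⟩ : ∃ g : (Fin (4 ^ J) → (Fin R → ℕ)) → ℚ, g = fun τ => ∏ i, y (τ i) := ⟨_, rfl⟩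
  have hg0 : ∀ τ, 0 < g τ := by
    intro τ
    rw [hg]
    exact Finset.prod_pos fun i _ => hy0 _
  have cardF : (F.card : ℝ) = (K.card : ℝ) ^ (4 ^ J) := by
    rw [hF, Fintype.card_piFinset, Finset.prod_const, Finset.card_univ, Fintype.card_fin]
    push_cast
    rfl
  have hFp : (0 : ℝ) < F.card := by rw [cardF]; positivity
  have hFne : F.Nonempty := by
    rw [← Finset.card_pos]
    exact_mod_cast hFp
  have hII : ((II A K y (4 ^ J) : ℕ) : ℝ) = ∑ σ ∈ F, ∑ τ ∈ F, (ww A (g τ / g σ) : ℝ) := by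
    rw [Finset.sum_comm, hF, hg]
    unfold II TT
    push_cast
    rfl
  rw [hII] at hpow
  obtain ⟨σ, hσF, hσ⟩ := Finset.exists_le_of_sum_le hFne
    (f := fun _ => θ * (F.card : ℝ) * A.card) (g := fun σ => ∑ τ ∈ F, (ww A (g τ / g σ) : ℝ)) (by
      refine le_trans (le_of_eq ?_) hpow
      rw [Finset.sum_const, nsmul_eq_mul, two_mul, pow_add, ← cardF]
      ring)
  obtain ⟨P, hP⟩ : ∃ P, P = F.filter (fun τ => θ / 2 * A.card ≤ (ww A (g τ / g σ) : ℝ)) := ⟨_, rfl⟩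
  have hPc : θ / 2 * F.card ≤ P.card := by
    have h1 : ∑ τ ∈ F, (ww A (g τ / g σ) : ℝ) ≤
        ∑ τ ∈ F, (θ / 2 * A.card + if θ / 2 * A.card ≤ (ww A (g τ / g σ) : ℝ) then
          (A.card : ℝ) else 0) := by
      refine Finset.sum_le_sum fun τ _ => ?_
      split_ifs with h
      · have h2 : (ww A (g τ / g σ) : ℝ) ≤ A.card := by exact_mod_cast ww_le A _
        have h3 : 0 ≤ θ / 2 * A.card := by positivity
        linarith
      · rw [not_le] at h
        linarith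
    rw [Finset.sum_add_distrib, Finset.sum_const, nsmul_eq_mul, ← Finset.sum_filter, ← hP,
      Finset.sum_const, nsmul_eq_mul] at h1
    have h2 : θ * (F.card : ℝ) * A.card ≤ F.card * (θ / 2 * A.card) + P.card * A.card :=
      le_trans hσ h1
    have h3 : (θ / 2 * F.card) * A.card ≤ P.card * A.card := by linarith
    exact le_of_mul_le_mul_right h3 hA0
  -- the projections
  obtain ⟨π, hπ⟩ : ∃ π : (Fin (4 ^ J) → (Fin R → ℕ)) → (Fin R → ℤ), π = fun τ j =>
    if b j ≠ 0 then vq pr (g τ / g σ) j else 0 := ⟨_, rfl⟩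
  have hfib : ∀ z ∈ P.image π, (P.filter (fun τ => π τ = z)).card * ∏ j, wl J (b j) ≤
      ∏ j, wu J (b j) := by
    intro z _
    refine le_trans (Nat.mul_le_mul_right _ ?_) (walk J R b (fun _ => s) (fun _ => hs2)
      (fun j => z j + vq pr (g σ) j))
    rw [← hK, ← hF]
    refine Finset.card_le_card fun τ hτ => ?_
    rw [Finset.mem_filter] at hτ ⊢
    obtain ⟨h1, h2⟩ := hτ
    rw [hP, Finset.mem_filter] at h1
    refine ⟨h1.1, fun j hj => ?_⟩
    have h3 : π τ j = z j := congrFun h2 j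
    rw [hπ] at h3
    have h4 : vq pr (g τ / g σ) j = z j := by
      have : (if b j ≠ 0 then vq pr (g τ / g σ) j else 0) = z j := h3
      rwa [if_pos hj] at this
    rw [vq_div pr hpr _ _ (hg0 _).ne' (hg0 _).ne'] at h4
    have h5 : vq pr (g τ) j = ∑ i, s (τ i) j := by
      rw [hg]
      show vq pr (∏ i, y (τ i)) j = _
      rw [vq_prod pr hpr _ _ (fun i _ => (hy0 _).ne')]
      refine Finset.sum_congr rfl fun i _ => ?_
      have h6 := Fintype.mem_piFinset.1 (hF ▸ h1.1) i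
      rw [(hy (τ i) ((memK _).1 h6)).2]
    rw [← h5]
    linarith
  have hcount : P.card * ∏ j, wl J (b j) ≤ (P.image π).card * ∏ j, wu J (b j) := by
    have h1 := Finset.card_eq_sum_card_image π P
    calc P.card * ∏ j, wl J (b j) =
        ∑ z ∈ P.image π, (P.filter (fun τ => π τ = z)).card * ∏ j, wl J (b j) := by
          rw [h1, Finset.sum_mul]
      _ ≤ ∑ _z ∈ P.image π, ∏ j, wu J (b j) := Finset.sum_le_sum hfib
      _ = _ := by rw [Finset.sum_const, smul_eq_mul]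
  obtain ⟨T, hTP, hTinj, hTc⟩ := transversal P π
  refine ⟨T.image (fun τ => g τ / g σ), ?_, ?_, ?_, ?_⟩
  · intro x hx
    obtain ⟨τ, _, rfl⟩ := Finset.mem_image.1 hx
    exact div_pos (hg0 _) (hg0 _)
  · intro x hx
    obtain ⟨τ, hτ, rfl⟩ := Finset.mem_image.1 hx
    have h1 := hTP hτ
    rw [hP, Finset.mem_filter] at h1
    exact h1.2
  · intro x hx x' hx' hxx
    obtain ⟨τ, hτ, rfl⟩ := Finset.mem_image.1 hx
    obtain ⟨τ', hτ', rfl⟩ := Finset.mem_image.1 hx'
    have h1 : π τ = π τ' := by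
      rw [hπ]
      funext j
      show (if b j ≠ 0 then vq pr (g τ / g σ) j else 0) =
        (if b j ≠ 0 then vq pr (g τ' / g σ) j else 0)
      by_cases hj : b j ≠ 0
      · rw [if_pos hj, if_pos hj]
        exact hxx j hj
      · rw [if_neg hj, if_neg hj]
    rw [hTinj τ hτ τ' hτ' h1]
  · have h1 : (T.image (fun τ => g τ / g σ)).card = T.card := by
      refine Finset.card_image_of_injOn fun τ hτ τ' hτ' h => ?_
      refine hTinj τ (Finset.mem_coe.1 hτ) τ' (Finset.mem_coe.1 hτ') ?_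
      have h' : g τ / g σ = g τ' / g σ := h
      rw [hπ]
      funext j
      show (if b j ≠ 0 then vq pr (g τ / g σ) j else 0) =
        (if b j ≠ 0 then vq pr (g τ' / g σ) j else 0)
      rw [h']
    rw [h1, hTc]
    rw [prod_wl, prod_wu] at hcount
    have h2 : (P.card : ℝ) * ((2 ^ J) ^ sup b * (bx b : ℕ)) ≤
        ((P.image π).card : ℝ) * (52 ^ sup b * ((bx b : ℕ) : ℝ) ^ (4 ^ J)) := by
      exact_mod_cast hcount
    have hbp : (0 : ℝ) < ((bx b : ℕ) : ℝ) := by exact_mod_cast bx_pos b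
    rw [cardF, cardK] at hPc
    have h3 : (θ / 2 * ((bx b : ℕ) : ℝ) ^ (4 ^ J)) * ((2 ^ J) ^ sup b * (bx b : ℕ)) ≤
        ((P.image π).card : ℝ) * (52 ^ sup b * ((bx b : ℕ) : ℝ) ^ (4 ^ J)) :=
      le_trans (mul_le_mul_of_nonneg_right hPc (by positivity)) h2
    have h4 : (θ / 2 * (2 ^ J / 52) ^ sup b * ((bx b : ℕ) : ℝ)) *
        (52 ^ sup b * ((bx b : ℕ) : ℝ) ^ (4 ^ J)) ≤
        ((P.image π).card : ℝ) * (52 ^ sup b * ((bx b : ℕ) : ℝ) ^ (4 ^ J)) := by
      refine le_trans (le_of_eq ?_) h3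
      rw [div_pow]
      field_simp
    exact le_of_mul_le_mul_right h4 (by positivity)

end Pool.Agent.Helper15.GPR
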