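import Pool.Agent.Helper15.GPR.Inc3
import Pool.Agent.Helper15.GPQ.Quant

set_option autoImplicit false

/-!
# Project GL++ (MP_120218), Form: the bounds for the number of dilations
-/

namespace Pool.Agent.Helper15.GPR

open Finset Pool.Agent.Helper15.GPQ

theorem K_log (K c : ℝ) (hK : 1 ≤ K) (hc : 0 < c) (hc1 : c ≤ 1) :
    Real.log K + Real.log (1 / c) ≤ (1 + 2 * Real.log (1 / c)) * Real.log (2 * K) := by
  have h1 : 0 ≤ Real.log (1 / c) := by
    apply Real.log_nonneg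
    rw [le_div_iff₀ hc]
    linarith
  have h2 : Real.log (2 * K) = Real.log 2 + Real.log K :=
    Real.log_mul (by norm_num) (by linarith)
  have h3 := Real.log_two_gt_d9
  have h4 : 0 ≤ Real.log K := Real.log_nonneg hK
  have h5 : Real.log (1 / c) * 1 ≤ Real.log (1 / c) * (2 * Real.log (2 * K)) :=
    mul_le_mul_of_nonneg_left (by linarith) h1
  linarith

/-- a subset of given size with at least the average -/
theorem avg_subset (f : ℚ → ℝ) (hf : ∀ s, 0 ≤ f s) (m : ℕ) : ∀ (j : ℕ) (P : Finset ℚ),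
    P.card = m + j → ∃ Q : Finset ℚ, Q ⊆ P ∧ Q.card = m ∧
      (m : ℝ) * ∑ s ∈ P, f s ≤ P.card * ∑ s ∈ Q, f s := by
  classical
  intro j
  induction j with
  | zero =>
    intro P hP
    refine ⟨P, subset_rfl, by omega, ?_⟩
    rw [hP, add_zero]
  | succ j ih =>
    intro P hP
    rcases Nat.eq_zero_or_pos m with hm | hm
    · refine ⟨∅, Finset.empty_subset _, by rw [hm]; rfl, ?_⟩
      rw [hm, Finset.sum_empty, Nat.cast_zero, zero_mul, mul_zero]
    have hne : P.Nonempty := by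
      rw [← Finset.card_pos]
      omega
    obtain ⟨t, ht, hmin⟩ := Finset.exists_min_image P f hne
    have hc : (P.erase t).card = m + j := by
      rw [Finset.card_erase_of_mem ht]
      omega
    obtain ⟨Q, hQ, hQc, hQs⟩ := ih (P.erase t) hc
    refine ⟨Q, hQ.trans (Finset.erase_subset _ _), hQc, ?_⟩
    have h1 : (P.card : ℝ) * f t ≤ ∑ s ∈ P, f s := by
      have := Finset.card_nsmul_le_sum P f (f t) (fun s hs => hmin s hs)
      rwa [nsmul_eq_mul] at this
    have h2 : ∑ s ∈ P, f s = f t + ∑ s ∈ P.erase t, f s := (Finset.add_sum_erase P f ht).symm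
    obtain ⟨x, hx⟩ : ∃ x : ℝ, x = ∑ s ∈ P, f s := ⟨_, rfl⟩
    obtain ⟨y, hy⟩ : ∃ y : ℝ, y = ∑ s ∈ P.erase t, f s := ⟨_, rfl⟩
    obtain ⟨z, hz⟩ : ∃ z : ℝ, z = ∑ s ∈ Q, f s := ⟨_, rfl⟩
    rw [← hx] at h1 h2
    rw [← hy] at h2 hQs
    rw [← hz] at hQs
    rw [← hx, ← hz]
    have hcR : ((P.erase t).card : ℝ) = (P.card : ℝ) - 1 := by
      rw [Finset.card_erase_of_mem ht, Nat.cast_sub (by omega)]
      norm_num
    rw [hcR] at hQs
    have hp1 : (1 : ℝ) ≤ (P.card : ℝ) - 1 := by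
      have : 2 ≤ P.card := by omega
      have h3 : (2 : ℝ) ≤ P.card := by exact_mod_cast this
      linarith
    have hm0 : (0 : ℝ) ≤ m := Nat.cast_nonneg m
    have h3 : ((P.card : ℝ) - 1) * x ≤ P.card * y := by
      have : P.card * y = P.card * x - P.card * f t := by rw [h2]; ring
      rw [this]
      linarith
    have h4 : ((P.card : ℝ) - 1) * (m * x) ≤ ((P.card : ℝ) - 1) * (P.card * z) := by
      calc ((P.card : ℝ) - 1) * (m * x) = m * (((P.card : ℝ) - 1) * x) := by ring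
        _ ≤ m * (P.card * y) := mul_le_mul_of_nonneg_left h3 hm0
        _ = P.card * (m * y) := by ring
        _ ≤ P.card * (((P.card : ℝ) - 1) * z) :=
            mul_le_mul_of_nonneg_left hQs (Nat.cast_nonneg _)
        _ = _ := by ring
    exact le_of_mul_le_mul_left h4 (by linarith)

theorem exists_ne_zero_of_two (A : Finset ℤ) (hA : 2 ≤ A.card) : ∃ a ∈ A, a ≠ 0 := by
  by_contra hcon
  push Not at hcon
  have h1 : A ⊆ {0} := fun a ha => Finset.mem_singleton.2 (hcon a ha)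
  have h2 := Finset.card_le_card h1
  rw [Finset.card_singleton] at h2
  omega

theorem card_P_le (A : Finset ℤ) (hA : 2 ≤ A.card) (P : Finset ℚ) : P.card ≤ (prd A P).card := by
  classical
  obtain ⟨a, ha, ha0⟩ := exists_ne_zero_of_two A hA
  refine Finset.card_le_card_of_injOn (fun s => (a : ℚ) * s) ?_ ?_
  · intro s hs
    exact Finset.mem_coe.2 (Finset.mem_image₂_of_mem ha (Finset.mem_coe.1 hs))
  · intro s _ t _ h
    exact mul_left_cancel₀ (by exact_mod_cast ha0) h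

/-- **The number of dilations which do not expand the set.** -/
theorem form1 (η B : ℝ) (hη : 0 < η) (hη1 : η ≤ 1) (hB : 0 ≤ B) :
    ∃ C : ℝ, 0 < C ∧ ∀ A : Finset ℤ, 2 ≤ A.card → ¬ GrowsB η B A →
      ∀ (P : Finset ℚ) (K : ℝ), (∀ s ∈ P, s ≠ 0) → 1 ≤ K → K ≤ A.card →
        ((prd A P).card : ℝ) ≤ K * A.card →
        Real.log P.card ^ 2 ≤ C * Real.log A.card * Real.log (2 * K) := by
  classical
  obtain ⟨cq, hcq, hquant⟩ := grow_quant η B hη hη1 hB
  obtain ⟨c, hc⟩ : ∃ c : ℝ, c = min cq 1 := ⟨_, rfl⟩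
  have hc0 : 0 < c := by rw [hc]; exact lt_min hcq one_pos
  have hcc : c ≤ cq := by rw [hc]; exact min_le_left _ _
  have hc1 : c ≤ 1 := by rw [hc]; exact min_le_right _ _
  have hlc : 0 ≤ Real.log (1 / c) := by
    apply Real.log_nonneg
    rw [le_div_iff₀ hc0]
    linarith
  obtain ⟨C1, hC1⟩ : ∃ C1 : ℝ, C1 = (1 + 2 * Real.log (1 / c)) / c := ⟨_, rfl⟩
  have hC10 : 0 < C1 := by rw [hC1]; positivity
  refine ⟨4 * C1, by positivity, ?_⟩
  intro A hA2 hG P K hP0 hK1 hKA hAP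
  obtain ⟨L, hL⟩ : ∃ L : ℝ, L = Real.log A.card := ⟨_, rfl⟩
  obtain ⟨κ, hκ⟩ : ∃ κ : ℝ, κ = Real.log (2 * K) := ⟨_, rfl⟩
  have hN2 : (2 : ℝ) ≤ A.card := by exact_mod_cast hA2
  have hN0 : (0 : ℝ) < A.card := by linarith
  have hL0 : 0 < L := by rw [hL]; exact Real.log_pos (by linarith)
  have hκ0 : 0 < κ := by rw [hκ]; exact Real.log_pos (by linarith)
  rw [← hL, ← hκ]
  -- at most `|A|` dilations
  have key : ∀ Q : Finset ℚ, Q.Nonempty → (∀ s ∈ Q, s ≠ 0) → Q.card ≤ A.card →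
      ((prd A Q).card : ℝ) ≤ K * A.card → Real.log Q.card ^ 2 ≤ C1 * L * κ := by
    intro Q hQne hQ0 hQA hAQ
    obtain ⟨u, hu⟩ : ∃ u : ℝ, u = Real.log Q.card := ⟨_, rfl⟩
    rw [← hu]
    have h1 : c * A.card * Real.exp (c * u ^ 2 / L) ≤ K * A.card := by
      refine le_trans ?_ hAQ
      by_contra hcon
      rw [not_le] at hcon
      refine hG (hquant A Q hQ0 hQne hQA (lt_of_lt_of_le hcon ?_))
      rw [← hu, ← hL]
      have h2 : c * u ^ 2 / L ≤ cq * u ^ 2 / L :=
        div_le_div_of_nonneg_right (mul_le_mul_of_nonneg_right hcc (sq_nonneg _)) hL0.le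
      exact mul_le_mul (mul_le_mul_of_nonneg_right hcc hN0.le) (Real.exp_le_exp.2 h2)
        (Real.exp_pos _).le (by positivity)
    have h2 : c * Real.exp (c * u ^ 2 / L) ≤ K := by
      have h3 : (A.card : ℝ) * (c * Real.exp (c * u ^ 2 / L)) ≤ A.card * K := by linarith
      exact le_of_mul_le_mul_left h3 hN0
    have h3 := Real.log_le_log (by positivity) h2
    rw [Real.log_mul hc0.ne' (Real.exp_pos _).ne', Real.log_exp] at h3
    have h4 := K_log K c hK1 hc0 hc1
    have h5 : Real.log (1 / c) = -Real.log c := by rw [one_div, Real.log_inv]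
    rw [← hκ] at h4
    have h6 : c * u ^ 2 / L ≤ (1 + 2 * Real.log (1 / c)) * κ := by linarith
    rw [div_le_iff₀ hL0] at h6
    have h7 : c * u ^ 2 ≤ c * (C1 * L * κ) := by
      refine h6.trans (le_of_eq ?_)
      rw [hC1]
      field_simp
    exact le_of_mul_le_mul_left h7 hc0
  have hC1L : 0 ≤ C1 * L * κ := by positivity
  rcases P.eq_empty_or_nonempty with hPe | hPne
  · rw [hPe, Finset.card_empty, Nat.cast_zero, Real.log_zero]
    nlinarith
  by_cases hPA : P.card ≤ A.card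
  · have h1 := key P hPne hP0 hPA hAP
    linarith
  · rw [not_le] at hPA
    obtain ⟨Q, hQP, hQc⟩ := Finset.exists_subset_card_eq (s := P) (n := A.card) hPA.le
    have hQne : Q.Nonempty := by
      rw [← Finset.card_pos]
      omega
    have h1 := key Q hQne (fun s hs => hP0 s (hQP hs)) hQc.le
      (le_trans (by exact_mod_cast prd_card_mono A hQP) hAP)
    rw [hQc, ← hL] at h1
    have h2 : Real.log P.card ≤ 2 * L := by
      have h3 : (P.card : ℝ) ≤ A.card * A.card := by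
        calc (P.card : ℝ) ≤ (prd A P).card := by exact_mod_cast card_P_le A hA2 P
          _ ≤ K * A.card := hAP
          _ ≤ A.card * A.card := mul_le_mul_of_nonneg_right hKA hN0.le
      have h4 := Real.log_le_log (by exact_mod_cast hPne.card_pos) h3
      rw [Real.log_mul hN0.ne' hN0.ne', ← hL] at h4
      linarith
    have h3 : 0 ≤ Real.log P.card := Real.log_natCast_nonneg _
    have h4 : Real.log P.card ^ 2 ≤ (2 * L) ^ 2 := pow_le_pow_left₀ h3 h2 2
    linarith

theorem count_le (A : Finset ℤ) (P B : Finset ℚ) :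
    ((A ×ˢ P).filter (fun q : ℤ × ℚ => (q.1 : ℚ) * q.2 ∈ B)).card ≤ P.card + A.card * B.card := by
  classical
  have h1 : (A ×ˢ P).filter (fun q : ℤ × ℚ => (q.1 : ℚ) * q.2 ∈ B) ⊆
      (P.image (fun s => ((0 : ℤ), s))) ∪
        ((A ×ˢ P).filter (fun q : ℤ × ℚ => q.1 ≠ 0 ∧ (q.1 : ℚ) * q.2 ∈ B)) := by
    rintro ⟨a, s⟩ hq
    rw [Finset.mem_filter, Finset.mem_product] at hq
    rw [Finset.mem_union]
    by_cases ha : a = 0
    · left
      exact Finset.mem_image.2 ⟨s, hq.1.2, by rw [ha]⟩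
    · right
      exact Finset.mem_filter.2 ⟨Finset.mem_product.2 hq.1, ha, hq.2⟩
  refine (Finset.card_le_card h1).trans ((Finset.card_union_le _ _).trans
    (Nat.add_le_add Finset.card_image_le ?_))
  rw [← Finset.card_product]
  refine Finset.card_le_card_of_injOn (fun q : ℤ × ℚ => (q.1, (q.1 : ℚ) * q.2)) ?_ ?_
  · rintro ⟨a, s⟩ hq
    have h2 := Finset.mem_filter.1 (Finset.mem_coe.1 hq)
    have h3 := Finset.mem_product.1 h2.1
    exact Finset.mem_coe.2 (Finset.mem_product.2 ⟨h3.1, h2.2.2⟩)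
  · rintro ⟨a, s⟩ hq ⟨a', s'⟩ _ h
    have h2 := (Finset.mem_filter.1 (Finset.mem_coe.1 hq)).2.1
    obtain ⟨e1, e2⟩ := Prod.mk.inj h
    simp only at e1 e2 h2
    subst e1
    have e3 : s = s' := mul_left_cancel₀ (by exact_mod_cast h2) e2
    rw [e3]

/-- **The number of dilations with many coincidences.** -/
theorem form2 (η B : ℝ) (hη : 0 < η) (hη1 : η ≤ 1) (hB : 0 ≤ B) :
    ∃ C : ℝ, 0 < C ∧ ∀ A : Finset ℤ, 2 ≤ A.card → ¬ GrowsB η B A →
      ∀ (P D : Finset ℚ) (K : ℝ), (∀ s ∈ P, s ≠ 0) → 1 ≤ K → K ^ 2 ≤ A.card →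
        (D.card : ℝ) ≤ K * A.card →
        (A.card : ℝ) * P.card ≤
          K * (((A ×ˢ P).filter (fun q : ℤ × ℚ => (q.1 : ℚ) * q.2 ∈ D)).card : ℝ) →
        Real.log P.card ^ 3 ≤ C * Real.log A.card ^ 2 * Real.log (2 * K) := by
  classical
  obtain ⟨c, hc0, hc1, hinc⟩ := grow_inc3 η B hη hη1 hB
  have hlc : 0 ≤ Real.log (1 / c) := by
    apply Real.log_nonneg
    rw [le_div_iff₀ hc0]
    linarith
  obtain ⟨C1, hC1⟩ : ∃ C1 : ℝ, C1 = (1 + 2 * Real.log (1 / c)) / c := ⟨_, rfl⟩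
  have hC10 : 0 < C1 := by rw [hC1]; positivity
  refine ⟨64 * C1, by positivity, ?_⟩
  intro A hA2 hG P D K hP0 hK1 hKA hD hcount
  obtain ⟨L, hL⟩ : ∃ L : ℝ, L = Real.log A.card := ⟨_, rfl⟩
  obtain ⟨κ, hκ⟩ : ∃ κ : ℝ, κ = Real.log (2 * K) := ⟨_, rfl⟩
  have hN2 : (2 : ℝ) ≤ A.card := by exact_mod_cast hA2
  have hN0 : (0 : ℝ) < A.card := by linarith
  have hL0 : 0 < L := by rw [hL]; exact Real.log_pos (by linarith)
  have hκ0 : 0 < κ := by rw [hκ]; exact Real.log_pos (by linarith)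
  have hK0 : 0 < K := by linarith
  rw [← hL, ← hκ]
  -- at most `|A|` dilations
  have key : ∀ Q : Finset ℚ, Q.Nonempty → (∀ s ∈ Q, s ≠ 0) → Q.card ≤ A.card →
      (A.card : ℝ) * Q.card ≤
        K * (((A ×ˢ Q).filter (fun q : ℤ × ℚ => (q.1 : ℚ) * q.2 ∈ D)).card : ℝ) →
      Real.log Q.card ^ 3 ≤ C1 * L ^ 2 * κ := by
    intro Q hQne hQ0 hQA hAQ
    obtain ⟨u, hu⟩ : ∃ u : ℝ, u = Real.log Q.card := ⟨_, rfl⟩
    obtain ⟨X, hX⟩ : ∃ X : ℝ, X = (((A ×ˢ Q).filter
      (fun q : ℤ × ℚ => (q.1 : ℚ) * q.2 ∈ D)).card : ℝ) := ⟨_, rfl⟩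
    rw [← hu]
    rw [← hX] at hAQ
    have hQp : (0 : ℝ) < Q.card := by exact_mod_cast hQne.card_pos
    have hX0 : 0 < X := by
      have h1 : 0 < K * X := lt_of_lt_of_le (mul_pos hN0 hQp) hAQ
      exact (pos_iff_pos_of_mul_pos h1).1 hK0
    have h2 : c * Real.exp (c * u ^ 3 / L ^ 2) ≤ K := by
      by_contra hcon
      rw [not_le] at hcon
      refine hG (hinc A Q D hQ0 hQne hQA ?_ ?_)
      · rw [← hu, ← hL]
        have h3 : K ≤ Real.exp (c * u ^ 3 / L ^ 2) :=
          hcon.le.trans (mul_le_of_le_one_left (Real.exp_pos _).le hc1)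
        refine hD.trans ?_
        rw [mul_comm]
        exact mul_le_mul_of_nonneg_left h3 hN0.le
      · rw [← hu, ← hL, ← hX]
        exact lt_of_le_of_lt hAQ (mul_lt_mul_of_pos_right hcon hX0)
    have h3 := Real.log_le_log (by positivity) h2
    rw [Real.log_mul hc0.ne' (Real.exp_pos _).ne', Real.log_exp] at h3
    have h4 := K_log K c hK1 hc0 hc1
    have h5 : Real.log (1 / c) = -Real.log c := by rw [one_div, Real.log_inv]
    rw [← hκ] at h4
    have h6 : c * u ^ 3 / L ^ 2 ≤ (1 + 2 * Real.log (1 / c)) * κ := by linarith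
    rw [div_le_iff₀ (by positivity)] at h6
    have h7 : c * u ^ 3 ≤ c * (C1 * L ^ 2 * κ) := by
      refine h6.trans (le_of_eq ?_)
      rw [hC1]
      field_simp
    exact le_of_mul_le_mul_left h7 hc0
  have hC1L : 0 ≤ C1 * L ^ 2 * κ := by positivity
  rcases P.eq_empty_or_nonempty with hPe | hPne
  · rw [hPe, Finset.card_empty, Nat.cast_zero, Real.log_zero]
    have h1 : (0 : ℝ) ^ 3 = 0 := by norm_num
    rw [h1]
    linarith
  by_cases hPA : P.card ≤ A.card
  · have h1 := key P hPne hP0 hPA hcount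
    linarith
  · rw [not_le] at hPA
    obtain ⟨Q, hQP, hQc, hQs⟩ := avg_subset (fun s => ((inc A D s).card : ℝ))
      (fun s => Nat.cast_nonneg _) A.card (P.card - A.card) P (by omega)
    have hQne : Q.Nonempty := by
      rw [← Finset.card_pos]
      omega
    have hPp : (0 : ℝ) < P.card := by exact_mod_cast hPne.card_pos
    have e1 : ∑ s ∈ P, ((inc A D s).card : ℝ) =
        (((A ×ˢ P).filter (fun q : ℤ × ℚ => (q.1 : ℚ) * q.2 ∈ D)).card : ℝ) := by
      rw [count_eq]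
      push_cast
      rfl
    have e2 : ∑ s ∈ Q, ((inc A D s).card : ℝ) =
        (((A ×ˢ Q).filter (fun q : ℤ × ℚ => (q.1 : ℚ) * q.2 ∈ D)).card : ℝ) := by
      rw [count_eq]
      push_cast
      rfl
    rw [e1, e2] at hQs
    have h1 := key Q hQne (fun s hs => hP0 s (hQP hs)) hQc.le (by
      rw [hQc]
      have h2 : (P.card : ℝ) * (A.card * A.card) ≤ P.card *
          (K * (((A ×ˢ Q).filter (fun q : ℤ × ℚ => (q.1 : ℚ) * q.2 ∈ D)).card : ℝ)) := by
        calc (P.card : ℝ) * (A.card * A.card) = A.card * (A.card * P.card) := by ring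
          _ ≤ A.card * (K * (((A ×ˢ P).filter
              (fun q : ℤ × ℚ => (q.1 : ℚ) * q.2 ∈ D)).card : ℝ)) :=
              mul_le_mul_of_nonneg_left hcount hN0.le
          _ = K * (A.card * (((A ×ˢ P).filter
              (fun q : ℤ × ℚ => (q.1 : ℚ) * q.2 ∈ D)).card : ℝ)) := by ring
          _ ≤ K * (P.card * (((A ×ˢ Q).filter
              (fun q : ℤ × ℚ => (q.1 : ℚ) * q.2 ∈ D)).card : ℝ)) :=
              mul_le_mul_of_nonneg_left hQs hK0.le
          _ = _ := by ring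
      exact le_of_mul_le_mul_left h2 hPp)
    rw [hQc, ← hL] at h1
    have h2 : Real.log P.card ≤ 4 * L := by
      have h3 : (P.card : ℝ) ≤ (A.card : ℝ) ^ 4 := by
        have h4 : (((A ×ˢ P).filter (fun q : ℤ × ℚ => (q.1 : ℚ) * q.2 ∈ D)).card : ℝ) ≤
            P.card + A.card * D.card := by exact_mod_cast count_le A P D
        have h5 : (A.card : ℝ) * P.card ≤ K * (P.card + A.card * (K * A.card)) :=
          hcount.trans (mul_le_mul_of_nonneg_left (h4.trans
            (by linarith [mul_le_mul_of_nonneg_left hD hN0.le])) hK0.le)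
        have h6 : K ≤ 3 / 4 * A.card := by
          by_contra hcon
          rw [not_le] at hcon
          nlinarith
        have h7 : K * P.card ≤ 3 / 4 * A.card * P.card := mul_le_mul_of_nonneg_right h6 hPp.le
        have h8 : K * (A.card * (K * A.card)) ≤ (A.card : ℝ) ^ 3 := by
          calc K * (A.card * (K * A.card)) = K ^ 2 * (A.card : ℝ) ^ 2 := by ring
            _ ≤ A.card * (A.card : ℝ) ^ 2 := mul_le_mul_of_nonneg_right hKA (by positivity)
            _ = (A.card : ℝ) ^ 3 := by ring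
        have h9 : (A.card : ℝ) * P.card ≤ A.card * (4 * (A.card : ℝ) ^ 2) := by
          have : (A.card : ℝ) * (4 * (A.card : ℝ) ^ 2) = 4 * (A.card : ℝ) ^ 3 := by ring
          rw [this]
          linarith
        have h10 := le_of_mul_le_mul_left h9 hN0
        have h11 : (4 : ℝ) ≤ (A.card : ℝ) ^ 2 := by nlinarith
        calc (P.card : ℝ) ≤ 4 * (A.card : ℝ) ^ 2 := h10
          _ ≤ (A.card : ℝ) ^ 2 * (A.card : ℝ) ^ 2 := mul_le_mul_of_nonneg_right h11 (by positivity)
          _ = (A.card : ℝ) ^ 4 := by ring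
      have h4 := Real.log_le_log hPp h3
      rw [Real.log_pow, ← hL] at h4
      push_cast at h4
      linarith
    have h3 : 0 ≤ Real.log P.card := Real.log_natCast_nonneg _
    have h4 : Real.log P.card ^ 3 ≤ (4 * L) ^ 3 := pow_le_pow_left₀ h3 h2 3
    have h5 : (4 * L) ^ 3 = 64 * L ^ 3 := by ring
    linarith

end Pool.Agent.Helper15.GPR
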