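import Pool.Agent.Helper15.GPR.Tent

set_option autoImplicit false

/-!
# Project GL++ (MP_120218), Sharp3: the incidence bound is sharp
-/

namespace Pool.Agent.Helper15.GPR

open Finset Pool.Agent.Helper15.GPQ

theorem exp_le_sub (x : ℝ) (hx0 : 0 ≤ x) (hx : x ≤ 1 / 2) : Real.exp (-(2 * x)) ≤ 1 - x := by
  rw [Real.exp_neg, inv_le_iff_one_le_mul₀ (Real.exp_pos _)]
  have h1 := Real.add_one_le_exp (2 * x)
  have h2 : 1 ≤ (1 - x) * (2 * x + 1) := by nlinarith
  exact h2.trans (mul_le_mul_of_nonneg_left h1 (by linarith))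

/-- the bound for the overlap -/
theorem overlap_real (r n K N m ov : ℕ) (hn : 1 ≤ n) (hN : N = K * SS n ^ r)
    (hm : (SS n - n) ^ (2 * r) ≤ 2 * SS n ^ r * m) (hov : K * m ≤ ov) :
    Real.exp (-(6 * r / n ^ 2)) / 2 * N ≤ ov := by
  have hn1 : (1 : ℝ) ≤ n := by exact_mod_cast hn
  have hn0 : (0 : ℝ) < n := by linarith
  have h3 : 3 * (SS n : ℝ) = n * (n + 1) * (2 * n + 1) := by exact_mod_cast three_SS n
  obtain ⟨S, hS⟩ : ∃ S : ℝ, S = SS n := ⟨_, rfl⟩
  rw [← hS] at h3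
  have hS2 : 2 * (n : ℝ) ≤ S := by
    have h4 : (n : ℝ) * 2 * 3 ≤ n * (n + 1) * (2 * n + 1) := by gcongr <;> linarith
    linarith
  have hS0 : 0 < S := by linarith
  have hnS : n ≤ SS n := by
    have : (n : ℝ) ≤ SS n := by
      rw [← hS]
      linarith
    exact_mod_cast this
  obtain ⟨x, hx⟩ : ∃ x : ℝ, x = n / S := ⟨_, rfl⟩
  have hx0 : 0 ≤ x := by rw [hx]; positivity
  have hx1 : x ≤ 1 / 2 := by
    rw [hx, div_le_iff₀ hS0]
    linarith
  have hx2 : 4 * x ≤ 6 / n ^ 2 := by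
    rw [hx, le_div_iff₀ (by positivity), mul_div_assoc', div_mul_eq_mul_div, div_le_iff₀ hS0]
    nlinarith
  have h4 : Real.exp (-(6 * r / n ^ 2)) ≤ (1 - x) ^ (2 * r) := by
    have h5 := pow_le_pow_left₀ (Real.exp_pos _).le (exp_le_sub x hx0 hx1) (2 * r)
    rw [← Real.exp_nat_mul] at h5
    refine le_trans (Real.exp_le_exp.2 ?_) h5
    push_cast
    have hr : (0 : ℝ) ≤ r := Nat.cast_nonneg r
    have h6 := mul_le_mul_of_nonneg_right hx2 hr
    have h7 : 6 / (n : ℝ) ^ 2 * r = 6 * r / n ^ 2 := by ring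
    rw [h7] at h6
    linarith
  have h5 : (S - n) ^ (2 * r) ≤ 2 * S ^ r * m := by
    have h6 : ((SS n - n : ℕ) : ℝ) = S - n := by
      rw [Nat.cast_sub hnS, hS]
    rw [← h6, hS]
    exact_mod_cast hm
  have h6 : S - n = S * (1 - x) := by
    rw [hx]
    field_simp
  rw [h6, mul_pow] at h5
  have h7 : S ^ r * (S ^ r * (1 - x) ^ (2 * r)) ≤ S ^ r * (2 * m) := by
    calc S ^ r * (S ^ r * (1 - x) ^ (2 * r)) = S ^ (2 * r) * (1 - x) ^ (2 * r) := by ring
      _ ≤ 2 * S ^ r * m := h5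
      _ = _ := by ring
  have h8 := le_of_mul_le_mul_left h7 (by positivity)
  have h9 : (K : ℝ) * m ≤ ov := by exact_mod_cast hov
  have hK : (0 : ℝ) ≤ K := Nat.cast_nonneg K
  have hNr : (N : ℝ) = K * S ^ r := by
    rw [hN, hS]
    push_cast
    rfl
  rw [hNr]
  calc Real.exp (-(6 * r / n ^ 2)) / 2 * (K * S ^ r) =
      K * (S ^ r * Real.exp (-(6 * r / n ^ 2))) / 2 := by ring
    _ ≤ K * (S ^ r * (1 - x) ^ (2 * r)) / 2 := by gcongr
    _ ≤ K * (2 * m) / 2 := by gcongr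
    _ = K * m := by ring
    _ ≤ ov := h9

/-- **The extremal family for the incidence bound.** -/
theorem sharp3 (η : ℝ) (hη : 0 < η) : ∃ c : ℝ, 0 < c ∧ ∀ r n : ℕ, 1 ≤ r → 1 ≤ n →
    ∃ (A : Finset ℤ) (p : Fin r → ℕ), (∀ i, (p i).Prime) ∧ Function.Injective p ∧
      (n : ℝ) * r * Real.log (r + 1) ≤ Real.log A.card ∧
      c * Real.log A.card ≤ (n : ℝ) * r * Real.log (r + 1) ∧
      (∀ k : ℕ, (((Fintype.piFinset (fun _ : Fin k => A)).image
        (fun f : Fin k → ℤ => ∑ i, f i)).card : ℝ) ≤ ((k : ℝ) + 1) * (A.card : ℝ) ^ (1 + η)) ∧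
      ∀ E : Finset (Fin r), Real.exp (-(6 * r / n ^ 2)) / 2 * A.card ≤
        ((A.filter (fun a : ℤ => ((∏ i ∈ E, p i : ℕ) : ℤ) * a ∈ A)).card : ℝ) := by
  classical
  refine ⟨1 / (24 / η + 8), by positivity, fun r n hr hn => ?_⟩
  obtain ⟨p, hpd⟩ : ∃ p : Fin r → ℕ, p = fun i : Fin r => Nat.nth Nat.Prime i := ⟨_, rfl⟩
  have hp : ∀ i, (p i).Prime := by
    intro i
    rw [hpd]
    exact Nat.prime_nth_prime _
  have hinj : Function.Injective p := by
    intro i j h
    rw [hpd] at h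
    exact Fin.ext (Nat.nth_injective Nat.infinite_setOfPred_prime h)
  have hple : ∀ i, p i ≤ 4 * (r + 1) ^ 2 := by
    intro i
    rw [hpd]
    exact nth_prime_le r i i.2
  obtain ⟨D, hD⟩ : ∃ D : ℕ, D = ∏ i, p i := ⟨_, rfl⟩
  have hDi : ∀ i, p i ∣ D := by
    intro i
    rw [hD]
    exact Finset.dvd_prod_of_mem _ (Finset.mem_univ i)
  have hD0 : 0 < D := by
    rw [hD]
    exact Finset.prod_pos fun i _ => (hp i).pos
  have hDR : (1 : ℝ) ≤ D := by exact_mod_cast hD0
  have hr1 : (1 : ℝ) ≤ r := by exact_mod_cast hr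
  have hn1 : (1 : ℝ) ≤ n := by exact_mod_cast hn
  have hn0 : (0 : ℝ) < n := by linarith
  have hlog2 : (1 / 2 : ℝ) ≤ Real.log 2 := by
    have := Real.log_two_gt_d9
    linarith
  have hlr : Real.log 2 ≤ Real.log (r + 1) :=
    Real.log_le_log (by norm_num) (by linarith)
  have hlr0 : 0 ≤ Real.log ((r : ℝ) + 1) := by linarith
  obtain ⟨Z, hZ⟩ : ∃ Z : ℝ, Z = (n : ℝ) * r * Real.log (r + 1) := ⟨_, rfl⟩
  have hnr : 1 ≤ (n : ℝ) * r := by nlinarith
  have hZ1 : Real.log 2 ≤ Z := by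
    rw [hZ]
    nlinarith
  have hZ0 : 0 < Z := by linarith
  have hZnr : (n : ℝ) * r ≤ 2 * Z := by
    rw [hZ]
    have h1 := mul_le_mul_of_nonneg_left (hlog2.trans hlr) (show 0 ≤ (n : ℝ) * r by linarith)
    linarith
  have hlD : Real.log D ≤ 4 * (r * Real.log (r + 1)) := by
    rw [hD, Nat.cast_prod, Real.log_prod (fun i _ => by
      have := (hp i).pos
      positivity)]
    have h1 : ∀ i ∈ (univ : Finset (Fin r)), Real.log (p i) ≤ 4 * Real.log (r + 1) := by
      intro i _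
      have h2 : (p i : ℝ) ≤ 4 * (r + 1) ^ 2 := by exact_mod_cast hple i
      have h3 : (0 : ℝ) < p i := by exact_mod_cast (hp i).pos
      have h4 := Real.log_le_log h3 h2
      rw [Real.log_mul (by norm_num) (by positivity), Real.log_pow] at h4
      have h5 : Real.log 4 = 2 * Real.log 2 := by
        rw [show (4 : ℝ) = 2 ^ 2 by norm_num, Real.log_pow]
        norm_num
      rw [h5] at h4
      push_cast at h4
      linarith
    refine (Finset.sum_le_sum h1).trans ?_
    rw [Finset.sum_const, Finset.card_univ, Fintype.card_fin, nsmul_eq_mul]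
    exact le_of_eq (by ring)
  have hlD0 : 0 ≤ Real.log D := Real.log_nonneg hDR
  have hlD2 : (2 * (n : ℝ) + 1) * Real.log D ≤ 12 * Z := by
    have h1 := mul_le_mul_of_nonneg_left hlD (show 0 ≤ 2 * (n : ℝ) + 1 by linarith)
    have h2 : (2 * (n : ℝ) + 1) * (4 * (r * Real.log (r + 1))) ≤
        (3 * n) * (4 * (r * Real.log (r + 1))) := by
      refine mul_le_mul_of_nonneg_right (by linarith) ?_
      positivity
    rw [hZ]
    linarith
  obtain ⟨W, hW⟩ : ∃ W : ℝ, W = (12 / η + 1) * Z := ⟨_, rfl⟩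
  have hWZ : Z ≤ W := by
    rw [hW]
    have : 0 < 12 / η * Z := by positivity
    linarith
  have hηW : 12 * Z ≤ η * W := by
    rw [hW]
    have h1 : η * ((12 / η + 1) * Z) = 12 * Z + η * Z := by
      field_simp
    rw [h1]
    have : 0 < η * Z := by positivity
    linarith
  obtain ⟨K, hK⟩ : ∃ K : ℕ, K = ⌈Real.exp W⌉₊ := ⟨_, rfl⟩
  have hKe : Real.exp W ≤ K := by rw [hK]; exact Nat.le_ceil _
  have hK0 : (0 : ℝ) < K := lt_of_lt_of_le (Real.exp_pos W) hKe
  have hKlog : W ≤ Real.log K := by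
    rw [Real.le_log_iff_exp_le hK0]
    exact hKe
  have hK1 : (1 : ℝ) ≤ K := by
    have : 1 ≤ K := by
      have : 0 < K := by exact_mod_cast hK0
      omega
    exact_mod_cast this
  have hKup : Real.log K ≤ 2 * W := by
    have h1 : (K : ℝ) ≤ 2 * Real.exp W := by
      have h2 : (K : ℝ) < Real.exp W + 1 := by
        rw [hK]
        exact Nat.ceil_lt_add_one (Real.exp_pos W).le
      have h3 : 1 ≤ Real.exp W := Real.one_le_exp (by linarith)
      linarith
    have h2 := Real.log_le_log hK0 h1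
    rw [Real.log_mul (by norm_num) (Real.exp_pos W).ne', Real.log_exp] at h2
    linarith
  -- the size of `SS`
  have h3 : 3 * (SS n : ℝ) = n * (n + 1) * (2 * n + 1) := by exact_mod_cast three_SS n
  have hSlow : (n : ℝ) ^ 2 ≤ SS n := by nlinarith
  have hS1 : (1 : ℝ) ≤ SS n := le_trans (by nlinarith) hSlow
  have hSup : (SS n : ℝ) ≤ 2 * n ^ 3 := by
    have h4 : (n : ℝ) * (n + 1) * (2 * n + 1) ≤ n * (2 * n) * (3 * n) := by gcongr <;> linarith
    have h5 : (n : ℝ) * (2 * n) * (3 * n) = 6 * n ^ 3 := by ring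
    linarith
  have hSlog : Real.log (SS n) ≤ 3 * n := by
    have h4 := Real.log_le_log (by linarith) hSup
    rw [Real.log_mul (by norm_num) (by positivity), Real.log_pow] at h4
    have h5 : Real.log n ≤ n - 1 := Real.log_le_sub_one_of_pos hn0
    have h6 := Real.log_two_lt_d9
    push_cast at h4
    linarith
  have hA : (optB p D K n).card = K * SS n ^ r := card_optB p hp hinj D K n hDi hD0
  have hAR : ((optB p D K n).card : ℝ) = K * (SS n : ℝ) ^ r := by rw [hA]; push_cast; ring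
  have hSr : (1 : ℝ) ≤ (SS n : ℝ) ^ r := one_le_pow₀ hS1
  have hAK : (K : ℝ) ≤ (optB p D K n).card := by
    rw [hAR]
    exact le_mul_of_one_le_right hK0.le hSr
  have hA1 : (1 : ℝ) ≤ (optB p D K n).card := hK1.trans hAK
  have hlogA : Real.log (optB p D K n).card ≤ (24 / η + 8) * Z := by
    rw [hAR, Real.log_mul (by linarith) (by positivity), Real.log_pow]
    have h1 : (r : ℝ) * Real.log (SS n) ≤ r * (3 * n) :=
      mul_le_mul_of_nonneg_left hSlog (by linarith)
    have h2 : 2 * W = (24 / η + 2) * Z := by rw [hW]; ring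
    linarith
  refine ⟨optB p D K n, p, hp, hinj, ?_, ?_, ?_, ?_⟩
  · rw [← hZ]
    exact hWZ.trans (hKlog.trans (Real.log_le_log hK0 hAK))
  · rw [← hZ, one_div, inv_mul_le_iff₀ (by positivity)]
    exact hlogA
  · intro k
    have h1 := sum_optB p hp D K n hD hD0 k
    have h2 : (((Fintype.piFinset (fun _ : Fin k => optB p D K n)).image
        (fun f : Fin k → ℤ => ∑ i, f i)).card : ℝ) ≤
          k * (K * (n : ℝ) ^ (2 * r) * (D : ℝ) ^ (2 * n + 1)) + 1 := by
      exact_mod_cast h1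
    refine h2.trans ?_
    have h4 : (K : ℝ) * (n : ℝ) ^ (2 * r) * (D : ℝ) ^ (2 * n + 1) ≤
        ((optB p D K n).card : ℝ) ^ (1 + η) := by
      have h5 : (D : ℝ) ^ (2 * n + 1) ≤ (K : ℝ) ^ η := by
        rw [← Real.log_le_log_iff (by positivity) (by positivity), Real.log_pow,
          Real.log_rpow hK0]
        push_cast
        have h6 := mul_le_mul_of_nonneg_left hKlog hη.le
        linarith
      have h6 : (K : ℝ) * (n : ℝ) ^ (2 * r) ≤ (optB p D K n).card := by
        rw [hAR, pow_mul]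
        gcongr
      calc (K : ℝ) * (n : ℝ) ^ (2 * r) * (D : ℝ) ^ (2 * n + 1) ≤
            (optB p D K n).card * (K : ℝ) ^ η := mul_le_mul h6 h5 (by positivity) (by positivity)
        _ ≤ (optB p D K n).card * ((optB p D K n).card : ℝ) ^ η := by gcongr
        _ = ((optB p D K n).card : ℝ) ^ (1 + η) := by
            rw [Real.rpow_add (by linarith), Real.rpow_one]
    have hk : (0 : ℝ) ≤ k := Nat.cast_nonneg k
    have h5 : (1 : ℝ) ≤ ((optB p D K n).card : ℝ) ^ (1 + η) :=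
      Real.one_le_rpow hA1 (by linarith)
    calc (k : ℝ) * (K * (n : ℝ) ^ (2 * r) * (D : ℝ) ^ (2 * n + 1)) + 1 ≤
          k * ((optB p D K n).card : ℝ) ^ (1 + η) + ((optB p D K n).card : ℝ) ^ (1 + η) :=
            add_le_add (mul_le_mul_of_nonneg_left h4 hk) h5
      _ = _ := by ring
  · intro E
    exact overlap_real r n K _ _ _ hn hA (sum_min n hn E) (overlap p hp hinj D K n hDi hD0 E)

end Pool.Agent.Helper15.GPR
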