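import Pool.Agent.Helper15.GPQ.Final
import Pool.Agent.Helper15.GPR.Form
import Pool.Agent.Helper15.GPR.Sharp3

set_option autoImplicit false

/-!
# Project GL++ (MP_120218), Final3: the sums-alone theorem, for any number of dilations
-/

namespace Pool.Agent.Helper15.GPR

open Finset Pool.Agent.Helper15.GPQ Pool.Agent.Helper28.LN

theorem AllD.mono {ε c c' : ℝ} (h : c' ≤ c) {A : Finset ℤ} (hA : AllD ε c A) : AllD ε c' A := by
  intro D hD
  refine le_trans (mul_le_mul_of_nonneg_right h ?_) (hA D hD)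
  exact Real.rpow_nonneg (by positivity) _

/-- **The sums-alone theorem.** -/
theorem main3 (k : ℕ) (ε : ℝ) (hε : 0 < ε) : ∃ C c : ℝ, 0 < C ∧ 0 < c ∧
      ∀ A : Finset ℤ, 1 < A.card →
        ((∀ D : Finset ℤ, D.Nonempty → c * ((A.card : ℝ) * D.card) ^ (1 - ε) ≤
            ((Finset.image₂ (fun a d => a + d) A D).card : ℝ)) ∧
          c * (A.card : ℝ) ^ ((k : ℝ) - ε) ≤
            (((Fintype.piFinset (fun _ : Fin k => A)).image
              (fun f : Fin k → ℤ => ∑ i, f i)).card : ℝ)) ∨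
        ((∀ (P : Finset ℚ) (K : ℝ), (∀ s ∈ P, s ≠ 0) → 1 ≤ K → K ^ 2 ≤ A.card →
            ((Finset.image₂ (fun (a : ℤ) (s : ℚ) => (a : ℚ) * s) A P).card : ℝ) ≤ K * A.card →
            Real.log (P.card : ℝ) ^ 2 ≤ C * Real.log (A.card : ℝ) * Real.log (2 * K)) ∧
         (∀ (P B : Finset ℚ) (K : ℝ), (∀ s ∈ P, s ≠ 0) → 1 ≤ K → K ^ 2 ≤ A.card →
            (B.card : ℝ) ≤ K * A.card →
            (A.card : ℝ) * P.card ≤
              K * (((A ×ˢ P).filter (fun q : ℤ × ℚ => (q.1 : ℚ) * q.2 ∈ B)).card : ℝ) →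
            Real.log (P.card : ℝ) ^ 3 ≤ C * Real.log (A.card : ℝ) ^ 2 * Real.log (2 * K)) ∧
         (∀ (r : ℕ) (g : Fin r → ℚ), 1 ≤ r → (∀ i, g i ≠ 0) →
            ({a : ℤ | a ∈ A ∧ (1 + C * Real.log (A.card : ℝ) / r) ^ r <
              ({b : ℤ | b ∈ A ∧ ∃ e : Fin r → ℤ, (b : ℚ) = a * ∏ i, g i ^ e i ∨
                (b : ℚ) = -(a * ∏ i, g i ^ e i)}.ncard : ℝ)}.ncard : ℝ) ≤
              (A.card : ℝ) ^ (1 - c)) ∧
         (∀ (S : Finset ℤ) (P : Finset ℕ) (R : ℝ), S ⊆ A →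
            (A.card : ℝ) ^ (1 - c) ≤ S.card → (∀ p ∈ P, p.Prime) → C ≤ R →
            (∀ p ∈ P, R * ((S.filter (fun a : ℤ => (p : ℤ) * a ∉ S)).card : ℝ) ≤ S.card) →
            R * P.card * Real.log (P.card + 1) < C * Real.log (A.card : ℝ))) := by
  classical
  have hk0 : (0 : ℝ) ≤ k := Nat.cast_nonneg k
  have hkk : (0 : ℝ) < (k : ℝ) * (k + 1) + 1 := by positivity
  obtain ⟨ε', hε'⟩ : ∃ ε' : ℝ, ε' = ε / ((k : ℝ) * (k + 1) + 1) := ⟨_, rfl⟩
  have hε'0 : 0 < ε' := by rw [hε']; positivity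
  have hε'1 : ε' ≤ ε := by
    rw [hε', div_le_iff₀ hkk]
    nlinarith [mul_nonneg hε.le (mul_nonneg hk0 (show (0 : ℝ) ≤ k + 1 by linarith))]
  have hε'2 : ε' * (k * (k + 1)) ≤ ε := by
    rw [hε', div_mul_eq_mul_div, div_le_iff₀ hkk]
    nlinarith [mul_nonneg hε.le (mul_nonneg hk0 (show (0 : ℝ) ≤ k + 1 by linarith))]
  obtain ⟨η, hη⟩ : ∃ η : ℝ, η = min ε' 1 := ⟨_, rfl⟩
  have hη0 : 0 < η := by rw [hη]; exact lt_min hε'0 one_pos
  have hηε : η ≤ ε' := by rw [hη]; exact min_le_left _ _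
  have hη1 : η ≤ 1 := by rw [hη]; exact min_le_right _ _
  obtain ⟨C1, hC1, hf1⟩ := form1 η (1 / η) hη0 hη1 (by positivity)
  obtain ⟨C2, hC2, hf2⟩ := form2 η (1 / η) hη0 hη1 (by positivity)
  obtain ⟨C0, c0, hC0, hc0, h⟩ := dichotomy ε' 1 hε'0 one_pos
  obtain ⟨c', hc'd⟩ : ∃ c' : ℝ, c' = min c0 1 := ⟨_, rfl⟩
  have hc' : 0 < c' := by rw [hc'd]; exact lt_min hc0 one_pos
  have hc'0 : c' ≤ c0 := by rw [hc'd]; exact min_le_left _ _
  have hc'1 : c' ≤ 1 := by rw [hc'd]; exact min_le_right _ _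
  obtain ⟨c, hcd⟩ : ∃ c : ℝ, c = min c' (c' ^ k) := ⟨_, rfl⟩
  have hcc0 : 0 < c := by rw [hcd]; exact lt_min hc' (by positivity)
  have hcc' : c ≤ c' := by rw [hcd]; exact min_le_left _ _
  have hcck : c ≤ c' ^ k := by rw [hcd]; exact min_le_right _ _
  obtain ⟨C, hCd⟩ : ∃ C : ℝ, C = max C0 (max C1 C2) := ⟨_, rfl⟩
  have hCC0 : C0 ≤ C := by rw [hCd]; exact le_max_left _ _
  have hCC1 : C1 ≤ C := by rw [hCd]; exact (le_max_left _ _).trans (le_max_right _ _)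
  have hCC2 : C2 ≤ C := by rw [hCd]; exact (le_max_right _ _).trans (le_max_right _ _)
  have hC : 0 < C := lt_of_lt_of_le hC0 hCC0
  refine ⟨C, c, hC, hcc0, fun A hA1' => ?_⟩
  have hA : A.Nonempty := by
    rw [← Finset.card_pos]
    omega
  have hA1 : (1 : ℝ) ≤ A.card := by exact_mod_cast hA.card_pos
  have hA0 : (0 : ℝ) < A.card := by linarith
  have hL0 : 0 ≤ Real.log (A.card : ℝ) := Real.log_nonneg hA1
  by_cases hAll : AllD ε' c' A
  · left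
    constructor
    · intro D hD
      have hD1 : (1 : ℝ) ≤ D.card := by exact_mod_cast hD.card_pos
      have hAD1 : (1 : ℝ) ≤ (A.card : ℝ) * D.card := by nlinarith
      refine le_trans ?_ (hAll D hD)
      refine mul_le_mul hcc' ?_ (by positivity) hc'.le
      exact Real.rpow_le_rpow_of_exponent_le hAD1 (by linarith)
    · have h4 := kS_large ε' c' hε'0.le hc' A hA hAll k
      refine le_trans ?_ h4
      refine mul_le_mul hcck ?_ (by positivity) (by positivity)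
      exact Real.rpow_le_rpow_of_exponent_le hA1 (by linarith)
  · right
    have hG : ¬ GrowsB η (1 / η) A := fun hG =>
      hAll (allD_of_growsB ε' η hη0 hηε hη1 c' hc'.le hc'1 A hA hG)
    rcases h A hA with h1 | ⟨h1, _, h3⟩
    · exact absurd (AllD.mono hc'0 h1) hAll
    refine ⟨?_, ?_, ?_, ?_⟩
    · intro P K hP hK1 hKA hAP
      have h4 := hf1 A (by omega) hG P K hP hK1 (by nlinarith) hAP
      refine h4.trans ?_
      have h5 : 0 ≤ Real.log (2 * K) := Real.log_nonneg (by linarith)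
      gcongr
    · intro P B K hP hK1 hKA hB hcount
      have h4 := hf2 A (by omega) hG P B K hP hK1 hKA hB hcount
      refine h4.trans ?_
      have h5 : 0 ≤ Real.log (2 * K) := Real.log_nonneg (by linarith)
      gcongr
    · intro r g hr hg
      refine le_trans ?_ ((h1 r g hr hg).trans
        (Real.rpow_le_rpow_of_exponent_le hA1 (by linarith)))
      have hfin : ({a : ℤ | a ∈ A ∧ (1 + C0 * Real.log (A.card : ℝ) / r) ^ r <
          ({b : ℤ | b ∈ A ∧ ∃ e : Fin r → ℤ, (b : ℚ) = a * ∏ i, g i ^ e i ∨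
            (b : ℚ) = -(a * ∏ i, g i ^ e i)}.ncard : ℝ)}).Finite :=
        (Finset.finite_toSet A).subset fun a ha => Finset.mem_coe.2 ha.1
      have hr0 : (0 : ℝ) < r := by exact_mod_cast hr
      have h5 : (1 + C0 * Real.log (A.card : ℝ) / r) ^ r ≤
          (1 + C * Real.log (A.card : ℝ) / r) ^ r := by gcongr
      have h4 : {a : ℤ | a ∈ A ∧ (1 + C * Real.log (A.card : ℝ) / r) ^ r <
          ({b : ℤ | b ∈ A ∧ ∃ e : Fin r → ℤ, (b : ℚ) = a * ∏ i, g i ^ e i ∨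
            (b : ℚ) = -(a * ∏ i, g i ^ e i)}.ncard : ℝ)} ⊆
          {a : ℤ | a ∈ A ∧ (1 + C0 * Real.log (A.card : ℝ) / r) ^ r <
          ({b : ℤ | b ∈ A ∧ ∃ e : Fin r → ℤ, (b : ℚ) = a * ∏ i, g i ^ e i ∨
            (b : ℚ) = -(a * ∏ i, g i ^ e i)}.ncard : ℝ)} :=
        fun a ha => ⟨ha.1, lt_of_le_of_lt h5 ha.2⟩
      exact_mod_cast Set.ncard_le_ncard h4 hfin
    · intro S P R hSA hS hP hCR hbad
      refine lt_of_lt_of_le (h3 S P R hSA ((Real.rpow_le_rpow_of_exponent_le hA1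
        (by linarith)).trans hS) hP (hCC0.trans hCR) hbad) ?_
      exact mul_le_mul_of_nonneg_right hCC0 hL0

/-- **The extremal families.** -/
theorem fam3 (η : ℝ) (hη : 0 < η) : ∃ c : ℝ, 0 < c ∧ ∀ r n : ℕ, 1 ≤ r → 1 ≤ n →
      (∃ (A : Finset ℤ) (p : Fin r → ℕ), (∀ i, (p i).Prime) ∧ Function.Injective p ∧
        (n : ℝ) * r * Real.log (r + 1) ≤ Real.log (A.card : ℝ) ∧
        c * Real.log (A.card : ℝ) ≤ (n : ℝ) * r * Real.log (r + 1) ∧
        (∀ k : ℕ, (((Fintype.piFinset (fun _ : Fin k => A)).image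
          (fun f : Fin k → ℤ => ∑ i, f i)).card : ℝ) ≤
            ((k : ℝ) + 1) * (A.card : ℝ) ^ (1 + η)) ∧
        (∀ i, (n : ℝ) * ((A.filter (fun a : ℤ => (p i : ℤ) * a ∉ A)).card : ℝ) ≤ A.card) ∧
        (∀ a ∈ A, n ^ r ≤ {b : ℤ | b ∈ A ∧ ∃ e : Fin r → ℤ,
          (b : ℚ) = a * ∏ i, (p i : ℚ) ^ e i}.ncard) ∧
        ∀ P : Finset ℚ, P = (Fintype.piFinset (fun _ : Fin r => Finset.Icc (-1 : ℤ) 1)).image
            (fun e => ∏ i, (p i : ℚ) ^ e i) →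
          P.card = 3 ^ r ∧
          n ^ r * (Finset.image₂ (fun (a : ℤ) (s : ℚ) => (a : ℚ) * s) A P).card ≤
            (n + 2) ^ r * A.card) ∧
      (∃ (A : Finset ℤ) (p : Fin r → ℕ), (∀ i, (p i).Prime) ∧ Function.Injective p ∧
        (n : ℝ) * r * Real.log (r + 1) ≤ Real.log (A.card : ℝ) ∧
        c * Real.log (A.card : ℝ) ≤ (n : ℝ) * r * Real.log (r + 1) ∧
        (∀ k : ℕ, (((Fintype.piFinset (fun _ : Fin k => A)).image
          (fun f : Fin k → ℤ => ∑ i, f i)).card : ℝ) ≤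
            ((k : ℝ) + 1) * (A.card : ℝ) ^ (1 + η)) ∧
        ∀ E : Finset (Fin r), Real.exp (-(6 * r / n ^ 2)) / 2 * A.card ≤
          ((A.filter (fun a : ℤ => ((∏ i ∈ E, p i : ℕ) : ℤ) * a ∈ A)).card : ℝ)) := by
  obtain ⟨c1, hc1, h1⟩ := final.2 η hη
  obtain ⟨c2, hc2, h2⟩ := sharp3 η hη
  refine ⟨min c1 c2, lt_min hc1 hc2, fun r n hr hn => ?_⟩
  have hL0 : ∀ A : Finset ℤ, 0 ≤ Real.log (A.card : ℝ) := fun A => Real.log_natCast_nonneg _
  constructor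
  · obtain ⟨A, p, hp, hinj, q1, q2, q3⟩ := h1 r n hr hn
    exact ⟨A, p, hp, hinj, q1,
      (mul_le_mul_of_nonneg_right (min_le_left _ _) (hL0 A)).trans q2, q3⟩
  · obtain ⟨A, p, hp, hinj, q1, q2, q3⟩ := h2 r n hr hn
    exact ⟨A, p, hp, hinj, q1,
      (mul_le_mul_of_nonneg_right (min_le_right _ _) (hL0 A)).trans q2, q3⟩

end Pool.Agent.Helper15.GPR
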