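import Pool.Agent.Helper15.GPR.Tri
import Pool.Agent.Helper15.GPP.Down
import Pool.Agent.Helper15.GPP.Tree

set_option autoImplicit false

/-!
# Project GL++ (MP_120218), Good: the number of good triples of three down-sets
-/

namespace Pool.Agent.Helper15.GPR

open Finset Pool.Agent.Helper15.GPP

/-- the common value of the first two, if it is the maximum -/
def t1 (a b c : ℕ) : ℕ := if a = b ∧ c ≤ a then a else 0

/-- the common value of the first and the third -/
def t2 (a b c : ℕ) : ℕ := if a = b ∧ c ≤ a then 0 else if a = c ∧ b ≤ a then a else 0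

/-- the common value of the last two -/
def t3 (a b c : ℕ) : ℕ := if a = b ∧ c ≤ a then 0 else if a = c ∧ b ≤ a then 0 else b

theorem t12 (a b c : ℕ) : t1 a b c + t2 a b c ≤ a := by
  unfold t1 t2
  split_ifs <;> omega

theorem t13 (a b c : ℕ) : t1 a b c + t3 a b c ≤ b := by
  unfold t1 t3
  split_ifs <;> omega

theorem t23 (a b c : ℕ) (h : gd a b c) : t2 a b c + t3 a b c ≤ c := by
  have h1 := h
  unfold gd at h1
  unfold t2 t3
  split_ifs <;> omega

theorem t_min (a b c : ℕ) (h : gd a b c) : min a (min b c) ≤ t1 a b c + t2 a b c + t3 a b c := by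
  unfold gd at h
  unfold t1 t2 t3
  split_ifs <;> omega

theorem t_inj (a b c a' b' c' : ℕ) (h : gd a b c) (h' : gd a' b' c')
    (h1 : t1 a b c = t1 a' b' c') (h2 : t2 a b c = t2 a' b' c') (h3 : t3 a b c = t3 a' b' c')
    (hm : min a (min b c) = min a' (min b' c')) : a = a' ∧ b = b' ∧ c = c' := by
  unfold gd at h h'
  unfold t1 at h1
  unfold t2 at h2
  unfold t3 at h3
  split_ifs at h1 h2 h3 <;> omega

/-- the points below a point -/
theorem card_below {R : ℕ} (a : Fin R → ℕ) :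
    (Fintype.piFinset (fun j => Finset.range (a j + 1))).card = bx a := by
  rw [Fintype.card_piFinset]
  unfold bx
  exact Finset.prod_congr rfl fun j _ => Finset.card_range _

theorem mem_below {R : ℕ} {a t : Fin R → ℕ} :
    t ∈ Fintype.piFinset (fun j => Finset.range (a j + 1)) ↔ ∀ j, t j ≤ a j := by
  rw [Fintype.mem_piFinset]
  exact forall_congr' fun j => by rw [Finset.mem_range, Nat.lt_succ_iff]

theorem card_pairs {R : ℕ} (D D' : Finset (Fin R → ℕ)) (K : ℕ) (hK : ∀ b ∈ D', bx b ≤ K) :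
    ((D ×ˢ D).filter (fun q => q.1 + q.2 ∈ D')).card ≤ K * D'.card := by
  refine Finset.card_le_mul_card_image_of_maps_to
    (f := fun q : (Fin R → ℕ) × (Fin R → ℕ) => q.1 + q.2)
    (fun q hq => (Finset.mem_filter.1 hq).2) K fun c hc => ?_
  refine le_trans ?_ (hK c hc)
  rw [← card_below c]
  refine Finset.card_le_card_of_injOn (fun q => q.1) ?_ ?_
  · intro q hq
    have h1 := (Finset.mem_filter.1 (Finset.mem_coe.1 hq)).2
    refine Finset.mem_coe.2 (mem_below.2 fun j => ?_)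
    have h2 : q.1 j + q.2 j = c j := congrFun h1 j
    show q.1 j ≤ c j
    omega
  · intro q hq q' hq' e
    have h1 := (Finset.mem_filter.1 (Finset.mem_coe.1 hq)).2
    have h1' := (Finset.mem_filter.1 (Finset.mem_coe.1 hq')).2
    have e' : q.1 = q'.1 := e
    have h2 : q.1 + q.2 = q'.1 + q'.2 := h1.trans h1'.symm
    rw [e'] at h2
    exact Prod.ext e' (add_left_cancel h2)

/-- counting triangles -/
theorem tri_count {α : Type*} [DecidableEq α] (D : Finset α) (E1 E2 : Finset (α × α)) :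
    (∑ e ∈ E2, (D.filter (fun y => (y, e.1) ∈ E1 ∧ (y, e.2) ∈ E1)).card) ^ 2 ≤
      E2.card * E1.card ^ 2 := by
  refine (sq_sum_le_card_mul_sum_sq).trans (Nat.mul_le_mul_left _ ?_)
  rw [sq, ← Finset.card_product]
  have h1 : ∀ e ∈ E2, (D.filter (fun y => (y, e.1) ∈ E1 ∧ (y, e.2) ∈ E1)).card ^ 2 =
      ((D.filter (fun y => (y, e.1) ∈ E1 ∧ (y, e.2) ∈ E1)) ×ˢ
        (D.filter (fun y => (y, e.1) ∈ E1 ∧ (y, e.2) ∈ E1))).card := by
    intro e _
    rw [Finset.card_product, sq]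
  rw [Finset.sum_congr rfl h1, ← Finset.card_sigma]
  refine Finset.card_le_card_of_injOn (fun x : (_ : α × α) × (α × α) =>
    ((x.2.1, x.1.1), (x.2.2, x.1.2))) ?_ ?_
  · rintro ⟨e, y⟩ hx
    have h2 := (Finset.mem_sigma.1 (Finset.mem_coe.1 hx)).2
    have h3 := Finset.mem_product.1 h2
    have h4 := (Finset.mem_filter.1 h3.1).2
    have h5 := (Finset.mem_filter.1 h3.2).2
    exact Finset.mem_coe.2 (Finset.mem_product.2 ⟨h4.1, h5.2⟩)
  · rintro ⟨e, y⟩ _ ⟨e', y'⟩ _ h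
    obtain ⟨a1, a2⟩ := Prod.mk.inj h
    obtain ⟨b1, b2⟩ := Prod.mk.inj a1
    obtain ⟨c1, c2⟩ := Prod.mk.inj a2
    have h1 : e = e' := Prod.ext b2 c2
    have h2 : y = y' := Prod.ext b1 c1
    rw [h1, h2]

/-- **The number of good triples.** -/
theorem gd3_card {R : ℕ} (D D' : Finset (Fin R → ℕ)) (hDD' : D ⊆ D')
    (hdown : ∀ a ∈ D, ∀ b : Fin R → ℕ, (∀ j, b j ≤ a j) → b ∈ D)
    (hdown' : ∀ a ∈ D', ∀ b : Fin R → ℕ, (∀ j, b j ≤ a j) → b ∈ D')
    (K : ℕ) (hK : ∀ b ∈ D', bx b ≤ K) :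
    (gd3 D D D').card ^ 2 ≤ K ^ 9 * D.card ^ 2 * D'.card := by
  obtain ⟨E1, hE1⟩ : ∃ E, E = (D ×ˢ D).filter (fun q => q.1 + q.2 ∈ D) := ⟨_, rfl⟩
  obtain ⟨E2, hE2⟩ : ∃ E, E = (D ×ˢ D).filter (fun q => q.1 + q.2 ∈ D') := ⟨_, rfl⟩
  have c1 : E1.card ≤ K * D.card := by
    rw [hE1]
    exact card_pairs D D K fun b hb => hK b (hDD' hb)
  have c2 : E2.card ≤ K * D'.card := by
    rw [hE2]
    exact card_pairs D D' K hK
  have c3 := tri_count D E1 E2
  obtain ⟨Y, hY⟩ : ∃ Y, Y = E2.sigma (fun e => D.filter (fun y => (y, e.1) ∈ E1 ∧ (y, e.2) ∈ E1)) :=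
    ⟨_, rfl⟩
  rw [← Finset.card_sigma, ← hY] at c3
  have c4 : (gd3 D D D').card ≤ K ^ 3 * Y.card := by
    refine Finset.card_le_mul_card_image_of_maps_to
      (f := fun q => (⟨((fun j => t2 (q.1 j) (q.2.1 j) (q.2.2 j)),
        (fun j => t3 (q.1 j) (q.2.1 j) (q.2.2 j))), fun j => t1 (q.1 j) (q.2.1 j) (q.2.2 j)⟩ :
        (_ : (Fin R → ℕ) × (Fin R → ℕ)) × (Fin R → ℕ))) ?_ (K ^ 3) ?_
    · intro q hq
      rw [mem_gd3] at hq
      obtain ⟨⟨ha, hb, hc⟩, hg⟩ := hq
      have s12 : (fun j => t1 (q.1 j) (q.2.1 j) (q.2.2 j)) +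
          (fun j => t2 (q.1 j) (q.2.1 j) (q.2.2 j)) ∈ D :=
        hdown _ ha _ fun j => t12 _ _ _
      have s13 : (fun j => t1 (q.1 j) (q.2.1 j) (q.2.2 j)) +
          (fun j => t3 (q.1 j) (q.2.1 j) (q.2.2 j)) ∈ D :=
        hdown _ hb _ fun j => t13 _ _ _
      have s23 : (fun j => t2 (q.1 j) (q.2.1 j) (q.2.2 j)) +
          (fun j => t3 (q.1 j) (q.2.1 j) (q.2.2 j)) ∈ D' :=
        hdown' _ hc _ fun j => t23 _ _ _ (hg j)
      have s1 : (fun j => t1 (q.1 j) (q.2.1 j) (q.2.2 j)) ∈ D :=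
        hdown _ s12 _ fun j => Nat.le_add_right _ _
      have s2 : (fun j => t2 (q.1 j) (q.2.1 j) (q.2.2 j)) ∈ D :=
        hdown _ s12 _ fun j => Nat.le_add_left _ _
      have s3 : (fun j => t3 (q.1 j) (q.2.1 j) (q.2.2 j)) ∈ D :=
        hdown _ s13 _ fun j => Nat.le_add_left _ _
      rw [hY, Finset.mem_sigma]
      refine ⟨?_, ?_⟩
      · rw [hE2, Finset.mem_filter, Finset.mem_product]
        exact ⟨⟨s2, s3⟩, s23⟩
      · rw [Finset.mem_filter, hE1, Finset.mem_filter, Finset.mem_filter, Finset.mem_product,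
          Finset.mem_product]
        exact ⟨s1, ⟨⟨s1, s2⟩, s12⟩, ⟨⟨s1, s3⟩, s13⟩⟩
    · rintro ⟨⟨y2, y3⟩, y1⟩ hy
      rw [hY, Finset.mem_sigma] at hy
      obtain ⟨hy23, hy1⟩ := hy
      rw [hE2, Finset.mem_filter, Finset.mem_product] at hy23
      have hy1D := (Finset.mem_filter.1 hy1).1
      have b1 := hK y1 (hDD' hy1D)
      have b2 := hK y2 (hDD' hy23.1.1)
      have b3 := hK y3 (hDD' hy23.1.2)
      have hbx : bx (y1 + y2 + y3) ≤ K ^ 3 := by
        calc bx (y1 + y2 + y3) ≤ bx y1 * bx y2 * bx y3 := by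
              unfold bx
              rw [← Finset.prod_mul_distrib, ← Finset.prod_mul_distrib]
              refine Finset.prod_le_prod' fun j _ => ?_
              show y1 j + y2 j + y3 j + 1 ≤ _
              nlinarith [Nat.zero_le (y1 j * y2 j), Nat.zero_le (y1 j * y3 j),
                Nat.zero_le (y2 j * y3 j), Nat.zero_le (y1 j * y2 j * y3 j)]
          _ ≤ K * K * K := Nat.mul_le_mul (Nat.mul_le_mul b1 b2) b3
          _ = K ^ 3 := by ring
      refine le_trans ?_ hbx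
      rw [← card_below (y1 + y2 + y3)]
      refine Finset.card_le_card_of_injOn (fun q => fun j => min (q.1 j) (min (q.2.1 j) (q.2.2 j)))
        ?_ ?_
      · intro q hq
        have h1 := Finset.mem_filter.1 (Finset.mem_coe.1 hq)
        have h2 := (mem_gd3.1 h1.1).2
        refine Finset.mem_coe.2 (mem_below.2 fun j => ?_)
        have h3 := Sigma.mk.inj_iff.1 h1.2
        have h4 := Prod.mk.inj h3.1
        have e1 : (fun j => t1 (q.1 j) (q.2.1 j) (q.2.2 j)) = y1 := eq_of_heq h3.2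
        rw [← h4.1, ← h4.2, ← e1]
        exact t_min _ _ _ (h2 j)
      · intro q hq q' hq' e
        have h1 := Finset.mem_filter.1 (Finset.mem_coe.1 hq)
        have h1' := Finset.mem_filter.1 (Finset.mem_coe.1 hq')
        have g := (mem_gd3.1 h1.1).2
        have g' := (mem_gd3.1 h1'.1).2
        have h3 := Sigma.mk.inj_iff.1 (h1.2.trans h1'.2.symm)
        have h4 := Prod.mk.inj h3.1
        have e1 := eq_of_heq h3.2
        have key : ∀ j, q.1 j = q'.1 j ∧ q.2.1 j = q'.2.1 j ∧ q.2.2 j = q'.2.2 j := fun j =>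
          t_inj _ _ _ _ _ _ (g j) (g' j) (congrFun e1 j) (congrFun h4.1 j) (congrFun h4.2 j)
            (congrFun e j)
        exact Prod.ext (funext fun j => (key j).1)
          (Prod.ext (funext fun j => (key j).2.1) (funext fun j => (key j).2.2))
  calc (gd3 D D D').card ^ 2 ≤ (K ^ 3 * Y.card) ^ 2 := Nat.pow_le_pow_left c4 2
    _ = K ^ 6 * Y.card ^ 2 := by ring
    _ ≤ K ^ 6 * (E2.card * E1.card ^ 2) := Nat.mul_le_mul_left _ c3
    _ ≤ K ^ 6 * ((K * D'.card) * (K * D.card) ^ 2) :=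
        Nat.mul_le_mul_left _ (Nat.mul_le_mul c2 (Nat.pow_le_pow_left c1 2))
    _ = K ^ 9 * D.card ^ 2 * D'.card := by ring

end Pool.Agent.Helper15.GPR
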