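import Pool.Agent.Helper15.GPR.Pop4
import Pool.Agent.Helper15.GPQ.Fib

set_option autoImplicit false

/-!
# Project GL++ (MP_120218), Inc3: coincidences `a s = b` for any number of dilations
-/

namespace Pool.Agent.Helper15.GPR

open Finset Pool.Agent.Helper15.GPQ

/-- many coincidences give many popular ratios -/
theorem pop_from_inc (A : Finset ℤ) (hA : A.Nonempty) (h0 : (0 : ℤ) ∉ A) (P D : Finset ℚ)
    (hP : ∀ s ∈ P, 0 < s) (N p l : ℝ) (hN : (A.card : ℝ) ≤ N) (hp0 : 0 < p)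
    (hp : (P.card : ℝ) ≤ p) (hD : (D.card : ℝ) ≤ N * Real.exp l)
    (h : 4 * (N * p * Real.exp (-l)) ≤ ∑ s ∈ P, ((inc A D s).card : ℝ)) :
    p * Real.exp (-(3 * l)) ≤ (XX A (3 * l)).card := by
  classical
  have hA0 : (0 : ℝ) < A.card := by exact_mod_cast hA.card_pos
  have hN0 : 0 < N := by linarith
  have hcs := cs A D P (fun s => s) (fun s hs => (hP s hs).ne')
  obtain ⟨S, hS⟩ : ∃ S : ℝ, S = ∑ s ∈ P, ∑ t ∈ P, (ww A (s / t) : ℝ) := ⟨_, rfl⟩
  have hS0 : 0 ≤ S := by
    rw [hS]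
    exact Finset.sum_nonneg fun _ _ => Finset.sum_nonneg fun _ _ => Nat.cast_nonneg _
  have hcs' : (∑ s ∈ P, ((inc A D s).card : ℝ)) ^ 2 ≤ D.card * S := by
    rw [hS]
    exact_mod_cast hcs
  have h1 : N * Real.exp l * (16 * (N * p ^ 2 * Real.exp (-(3 * l)))) ≤ N * Real.exp l * S := by
    calc N * Real.exp l * (16 * (N * p ^ 2 * Real.exp (-(3 * l)))) =
        (4 * (N * p * Real.exp (-l))) ^ 2 := by
          have e1 : Real.exp l * Real.exp (-(3 * l)) = Real.exp (-l) ^ 2 := by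
            rw [← Real.exp_add, ← Real.exp_nat_mul]
            congr 1
            push_cast
            ring
          calc N * Real.exp l * (16 * (N * p ^ 2 * Real.exp (-(3 * l)))) =
              16 * N ^ 2 * p ^ 2 * (Real.exp l * Real.exp (-(3 * l))) := by ring
            _ = _ := by rw [e1]; ring
      _ ≤ (∑ s ∈ P, ((inc A D s).card : ℝ)) ^ 2 := pow_le_pow_left₀ (by positivity) h 2
      _ ≤ D.card * S := hcs'
      _ ≤ N * Real.exp l * S := mul_le_mul_of_nonneg_right hD hS0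
  have h2 : 16 * (N * p ^ 2 * Real.exp (-(3 * l))) ≤ S :=
    le_of_mul_le_mul_left h1 (by positivity)
  have hPne : P.Nonempty := by
    rw [Finset.nonempty_iff_ne_empty]
    intro h3
    rw [h3, Finset.sum_empty] at hS
    have : 0 < 16 * (N * p ^ 2 * Real.exp (-(3 * l))) := by positivity
    linarith
  obtain ⟨t, ht, ht2⟩ := Finset.exists_le_of_sum_le hPne
    (f := fun _ : ℚ => 16 * (N * p * Real.exp (-(3 * l))))
    (g := fun t => ∑ s ∈ P, (ww A (s / t) : ℝ)) (by
      rw [Finset.sum_const, nsmul_eq_mul, Finset.sum_comm, ← hS]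
      refine le_trans ?_ h2
      calc (P.card : ℝ) * (16 * (N * p * Real.exp (-(3 * l)))) ≤
          p * (16 * (N * p * Real.exp (-(3 * l)))) := mul_le_mul_of_nonneg_right hp (by positivity)
        _ = 16 * (N * p ^ 2 * Real.exp (-(3 * l))) := by ring)
  have ht2' : 16 * (N * p * Real.exp (-(3 * l))) ≤ ∑ s ∈ P, (ww A (s / t) : ℝ) := ht2
  have ht0 := hP t ht
  obtain ⟨F, hF⟩ : ∃ F : Finset ℚ, F = P.filter
    (fun s => Real.exp (-(3 * l)) * A.card ≤ (ww A (s / t) : ℝ)) := ⟨_, rfl⟩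
  have h3 : ∑ s ∈ P, (ww A (s / t) : ℝ) ≤ ∑ s ∈ P, (Real.exp (-(3 * l)) * N +
      if Real.exp (-(3 * l)) * A.card ≤ (ww A (s / t) : ℝ) then N else 0) := by
    refine Finset.sum_le_sum fun s _ => ?_
    have h5 : 0 ≤ Real.exp (-(3 * l)) * N := by positivity
    split_ifs with h4
    · have h6 : (ww A (s / t) : ℝ) ≤ A.card := by exact_mod_cast ww_le A _
      linarith
    · rw [not_le] at h4
      have h6 : Real.exp (-(3 * l)) * A.card ≤ Real.exp (-(3 * l)) * N :=
        mul_le_mul_of_nonneg_left hN (Real.exp_pos _).le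
      linarith
  rw [Finset.sum_add_distrib, Finset.sum_const, nsmul_eq_mul, ← Finset.sum_filter, ← hF,
    Finset.sum_const, nsmul_eq_mul] at h3
  have h4 : (P.card : ℝ) * (Real.exp (-(3 * l)) * N) ≤ p * (Real.exp (-(3 * l)) * N) :=
    mul_le_mul_of_nonneg_right hp (by positivity)
  have h5 : (p * Real.exp (-(3 * l))) * N ≤ F.card * N := by
    have h6 : 0 ≤ (p * Real.exp (-(3 * l))) * N := by positivity
    have e1 : 16 * (N * p * Real.exp (-(3 * l))) = 16 * ((p * Real.exp (-(3 * l))) * N) := by ring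
    have e2 : p * (Real.exp (-(3 * l)) * N) = (p * Real.exp (-(3 * l))) * N := by ring
    rw [e1] at ht2'
    rw [e2] at h4
    linarith
  have h6 := le_of_mul_le_mul_right h5 hN0
  refine h6.trans ?_
  have h7 : F.card ≤ (XX A (3 * l)).card := by
    refine Finset.card_le_card_of_injOn (fun s => s / t) ?_ ?_
    · intro s hs
      have h8 := Finset.mem_coe.1 hs
      rw [hF, Finset.mem_filter] at h8
      exact Finset.mem_coe.2 ((mem_XX hA h0).2 ⟨div_pos (hP s h8.1) ht0, h8.2⟩)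
    · intro s _ s' _ hss
      exact (div_left_inj' ht0.ne').1 hss
  exact_mod_cast h7

theorem count_eq (A : Finset ℤ) (P D : Finset ℚ) :
    ((A ×ˢ P).filter (fun q : ℤ × ℚ => (q.1 : ℚ) * q.2 ∈ D)).card =
      ∑ s ∈ P, (inc A D s).card := by
  rw [Finset.card_filter, Finset.sum_product_right]
  refine Finset.sum_congr rfl fun s _ => ?_
  unfold inc
  rw [Finset.card_filter]

theorem inc_erase (A : Finset ℤ) (D : Finset ℚ) (s : ℚ) :
    (inc A D s).card ≤ (inc (A.erase 0) D s).card + 1 := by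
  have h1 : inc A D s ⊆ insert 0 (inc (A.erase 0) D s) := by
    intro a ha
    rw [mem_inc] at ha
    rw [Finset.mem_insert]
    by_cases h : a = 0
    · exact Or.inl h
    · exact Or.inr (mem_inc.2 ⟨Finset.mem_erase.2 ⟨h, ha.1⟩, ha.2⟩)
  exact (Finset.card_le_card h1).trans (Finset.card_insert_le _ _)

theorem inc_neg (A : Finset ℤ) (D : Finset ℚ) (s : ℚ) :
    inc A (D.image (fun z => -z)) (-s) = inc A D s := by
  ext a
  rw [mem_inc, mem_inc, Finset.mem_image]
  refine and_congr_right fun _ => ⟨?_, fun h => ⟨_, h, by ring⟩⟩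
  rintro ⟨z, hz, hzs⟩
  have : z = (a : ℚ) * s := by linarith
  rwa [← this]

/-- positive dilations -/
theorem make_pos (A : Finset ℤ) (P D : Finset ℚ) (hP : ∀ s ∈ P, s ≠ 0) (T : ℝ)
    (h : 2 * T ≤ ∑ s ∈ P, ((inc A D s).card : ℝ)) :
    ∃ P' D' : Finset ℚ, (∀ s ∈ P', 0 < s) ∧ P'.card ≤ P.card ∧ D'.card ≤ D.card ∧
      T ≤ ∑ s ∈ P', ((inc A D' s).card : ℝ) := by
  classical
  rw [← Finset.sum_filter_add_sum_filter_not P (fun s => 0 < s)] at h
  by_cases h1 : T ≤ ∑ s ∈ P.filter (fun s => 0 < s), ((inc A D s).card : ℝ)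
  · exact ⟨_, D, fun s hs => (Finset.mem_filter.1 hs).2, Finset.card_filter_le _ _, le_rfl, h1⟩
  · rw [not_le] at h1
    refine ⟨(P.filter (fun s => ¬ 0 < s)).image (fun s => -s), D.image (fun z => -z), ?_, ?_,
      Finset.card_image_le, ?_⟩
    · intro s hs
      obtain ⟨t, ht, rfl⟩ := Finset.mem_image.1 hs
      rw [Finset.mem_filter, not_lt] at ht
      have := lt_of_le_of_ne ht.2 (hP t ht.1)
      linarith
    · exact Finset.card_image_le.trans (Finset.card_filter_le _ _)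
    · rw [Finset.sum_image (fun x _ y _ hxy => neg_injective hxy)]
      have h2 : ∑ s ∈ P.filter (fun s => ¬ 0 < s), ((inc A (D.image (fun z => -z)) (-s)).card : ℝ) =
          ∑ s ∈ P.filter (fun s => ¬ 0 < s), ((inc A D s).card : ℝ) :=
        Finset.sum_congr rfl fun s _ => by rw [inc_neg]
      rw [h2]
      linarith

/-- **Coincidences for any number of dilations.** -/
theorem grow_inc3 (η B : ℝ) (hη : 0 < η) (hη1 : η ≤ 1) (hB : 0 ≤ B) :
    ∃ c : ℝ, 0 < c ∧ c ≤ 1 ∧ ∀ (A : Finset ℤ) (P D : Finset ℚ), (∀ s ∈ P, s ≠ 0) → P.Nonempty →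
      P.card ≤ A.card →
      (D.card : ℝ) ≤ A.card * Real.exp (c * Real.log P.card ^ 3 / Real.log A.card ^ 2) →
      (A.card : ℝ) * P.card < c * Real.exp (c * Real.log P.card ^ 3 / Real.log A.card ^ 2) *
        (((A ×ˢ P).filter (fun q : ℤ × ℚ => (q.1 : ℚ) * q.2 ∈ D)).card : ℝ) →
      GrowsB η B A := by
  classical
  obtain ⟨c0, U0, hc0, hU0, hpop⟩ := popular3 (η / 2) (B + 1) (by positivity) (by linarith)
    (by linarith)
  have hl4 : 0 < Real.log 4 := Real.log_pos (by norm_num)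
  obtain ⟨V, hV⟩ : ∃ V : ℝ, V = 2 * U0 + 2 * Real.log 4 / η + (B + 1) * Real.log 4 := ⟨_, rfl⟩
  have q1 : 0 < 2 * Real.log 4 / η := by positivity
  have q2 : 0 ≤ (B + 1) * Real.log 4 := by positivity
  have hV1 : 1 ≤ V := by linarith
  obtain ⟨c, hc⟩ : ∃ c : ℝ, c = min (1 / 16) (min (c0 / 32) (Real.exp (-V))) := ⟨_, rfl⟩
  have hcp : 0 < c := by
    rw [hc]
    exact lt_min (by norm_num) (lt_min (by positivity) (Real.exp_pos _))
  have hc16 : c ≤ 1 / 16 := by rw [hc]; exact min_le_left _ _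
  have hcc0 : c ≤ c0 / 32 := by rw [hc]; exact (min_le_right _ _).trans (min_le_left _ _)
  have hcV : c ≤ Real.exp (-V) := by rw [hc]; exact (min_le_right _ _).trans (min_le_right _ _)
  refine ⟨c, hcp, by linarith, ?_⟩
  intro A P D hP0 hPne hPA hD hcount
  obtain ⟨u, hu⟩ : ∃ u : ℝ, u = Real.log P.card := ⟨_, rfl⟩
  obtain ⟨L, hL⟩ : ∃ L : ℝ, L = Real.log A.card := ⟨_, rfl⟩
  obtain ⟨l, hl⟩ : ∃ l : ℝ, l = c * u ^ 3 / L ^ 2 := ⟨_, rfl⟩
  rw [← hu, ← hL, ← hl] at hD hcount
  have hPp : (1 : ℝ) ≤ P.card := by exact_mod_cast hPne.card_pos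
  have hP0' : (0 : ℝ) < P.card := by linarith
  have hPAR : (P.card : ℝ) ≤ A.card := by exact_mod_cast hPA
  have hA1 : (1 : ℝ) ≤ A.card := hPp.trans hPAR
  have hA0 : (0 : ℝ) < A.card := by linarith
  have hu0 : 0 ≤ u := by rw [hu]; exact Real.log_nonneg hPp
  have huL : u ≤ L := by rw [hu, hL]; exact Real.log_le_log (by linarith) hPAR
  have hL00 : 0 ≤ L := hu0.trans huL
  obtain ⟨X, hX⟩ : ∃ X : ℝ, X = (((A ×ˢ P).filter
    (fun q : ℤ × ℚ => (q.1 : ℚ) * q.2 ∈ D)).card : ℝ) := ⟨_, rfl⟩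
  rw [← hX] at hcount
  have hXle : X ≤ A.card * P.card := by
    rw [hX]
    have h1 := Finset.card_filter_le (A ×ˢ P) (fun q : ℤ × ℚ => (q.1 : ℚ) * q.2 ∈ D)
    rw [Finset.card_product] at h1
    exact_mod_cast h1
  have hcE : 1 < c * Real.exp l := by
    have h1 : (A.card : ℝ) * P.card * 1 < A.card * P.card * (c * Real.exp l) := by
      calc (A.card : ℝ) * P.card * 1 = A.card * P.card := mul_one _
        _ < c * Real.exp l * X := hcount
        _ ≤ c * Real.exp l * (A.card * P.card) := mul_le_mul_of_nonneg_left hXle (by positivity)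
        _ = A.card * P.card * (c * Real.exp l) := by ring
    exact lt_of_mul_lt_mul_left h1 (by positivity)
  have hVl : V < l := by
    have h1 : 1 < Real.exp (-V) * Real.exp l :=
      lt_of_lt_of_le hcE (mul_le_mul_of_nonneg_right hcV (Real.exp_pos _).le)
    rw [← Real.exp_add, ← Real.exp_zero] at h1
    have h2 := Real.exp_lt_exp.1 h1
    linarith
  have hLp : 0 < L := by
    rcases hL00.lt_or_eq with h | h
    · exact h
    · rw [← h] at hl
      norm_num at hl
      linarith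
  have hlu : l ≤ c * u := by
    rw [hl, div_le_iff₀ (by positivity)]
    have h1 : u ^ 2 ≤ L ^ 2 := pow_le_pow_left₀ hu0 huL 2
    calc c * u ^ 3 = c * u * u ^ 2 := by ring
      _ ≤ c * u * L ^ 2 := mul_le_mul_of_nonneg_left h1 (by positivity)
  have hlu16 : l ≤ 1 / 16 * u := hlu.trans (mul_le_mul_of_nonneg_right hc16 hu0)
  have hl0 : 0 < l := by linarith
  -- without zero
  obtain ⟨A1, hA1d⟩ : ∃ A1 : Finset ℤ, A1 = A.erase 0 := ⟨_, rfl⟩
  have h0 : (0 : ℤ) ∉ A1 := by rw [hA1d]; exact Finset.notMem_erase _ _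
  have hA1A : A1 ⊆ A := by rw [hA1d]; exact Finset.erase_subset _ _
  have hAc2 : 2 ≤ A.card := by
    by_contra hcon
    have h1 : A.card ≤ 1 := by omega
    have h2 : (A.card : ℝ) ≤ 1 := by exact_mod_cast h1
    have h3 : L ≤ 0 := by
      rw [hL]
      exact Real.log_nonpos hA0.le h2
    linarith
  have hA1c : A.card ≤ A1.card + 1 := by
    rw [hA1d]
    have := Finset.pred_card_le_card_erase (s := A) (a := (0 : ℤ))
    omega
  have hA1ne : A1.Nonempty := by
    rw [← Finset.card_pos]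
    omega
  have hA1le : (A1.card : ℝ) ≤ A.card := by exact_mod_cast Finset.card_le_card hA1A
  have h4 : (A.card : ℝ) ≤ 4 * A1.card := by
    have : A.card ≤ 4 * A1.card := by omega
    exact_mod_cast this
  -- the coincidences of `A1`
  have hbig : 16 * (A.card * P.card * Real.exp (-l)) ≤ X := by
    have h1 : (A.card : ℝ) * P.card ≤ 1 / 16 * Real.exp l * X := by
      refine hcount.le.trans ?_
      have hX0 : 0 ≤ X := by rw [hX]; exact Nat.cast_nonneg _
      gcongr
    have h2 : Real.exp (-l) * Real.exp l = 1 := by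
      rw [← Real.exp_add, neg_add_cancel, Real.exp_zero]
    calc 16 * (A.card * P.card * Real.exp (-l)) ≤ 16 * (1 / 16 * Real.exp l * X * Real.exp (-l)) := by
          gcongr
      _ = X * (Real.exp (-l) * Real.exp l) := by ring
      _ = X := by rw [h2, mul_one]
  have hP1 : (P.card : ℝ) ≤ A.card * P.card * Real.exp (-l) := by
    have h1 : 1 ≤ (A.card : ℝ) * Real.exp (-l) := by
      have h2 : (A.card : ℝ) = Real.exp L := by rw [hL, Real.exp_log hA0]
      rw [h2, ← Real.exp_add, ← Real.exp_zero]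
      exact Real.exp_le_exp.2 (by linarith)
    calc (P.card : ℝ) = 1 * P.card := (one_mul _).symm
      _ ≤ (A.card * Real.exp (-l)) * P.card := mul_le_mul_of_nonneg_right h1 hP0'.le
      _ = _ := by ring
  have hsum : 2 * (4 * (A.card * P.card * Real.exp (-l))) ≤
      ∑ s ∈ P, ((inc A1 D s).card : ℝ) := by
    have h1 : X ≤ ∑ s ∈ P, ((inc A1 D s).card : ℝ) + P.card := by
      have h2 : ∑ s ∈ P, (inc A D s).card ≤ ∑ s ∈ P, ((inc A1 D s).card + 1) :=
        Finset.sum_le_sum fun s _ => by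
          rw [hA1d]
          exact inc_erase A D s
      rw [← count_eq, Finset.sum_add_distrib, Finset.sum_const, smul_eq_mul, mul_one] at h2
      rw [hX]
      exact_mod_cast h2
    linarith
  obtain ⟨P', D', hP'0, hP'c, hD'c, hsum'⟩ := make_pos A1 P D hP0 _ hsum
  have hpi := pop_from_inc A1 hA1ne h0 P' D' hP'0 A.card P.card l hA1le hP0'
    (by exact_mod_cast hP'c) (le_trans (by exact_mod_cast hD'c) hD) hsum'
  obtain ⟨g, hg⟩ : ∃ g : ℝ, g = Real.log (XX A1 (3 * l)).card := ⟨_, rfl⟩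
  have hgu : u - 3 * l ≤ g := by
    have h1 : 0 < (P.card : ℝ) * Real.exp (-(3 * l)) := by positivity
    have h2 := Real.log_le_log h1 hpi
    rw [Real.log_mul hP0'.ne' (Real.exp_pos _).ne', Real.log_exp, ← hg, ← hu] at h2
    linarith
  have hg2 : u / 2 ≤ g := by linarith
  have hgV : V < u := by linarith
  have hgU : U0 ≤ g := by linarith
  have hg0 : 0 < g := by linarith
  have hLA1 : Real.log A1.card ≤ L := by
    rw [hL]
    exact Real.log_le_log (by exact_mod_cast hA1ne.card_pos) hA1le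
  have hLA1p : 0 < Real.log A1.card := by
    have h1 := g_le hA1ne (3 * l)
    rw [← hg] at h1
    linarith
  refine growsB_of_sub η B hη hη1 hB A A1 hA1A hA1ne h4 ?_ ?_ (hpop A1 (3 * l) hA1ne h0
    (by linarith) (by rw [← hg]; exact hgU) ?_)
  · rw [← hL]
    have h1 : 2 * Real.log 4 / η ≤ L := by linarith
    rw [div_le_iff₀ hη] at h1
    linarith
  · rw [← hL]
    linarith
  · rw [← hg]
    have h1 : 3 * l + 1 ≤ 4 * l := by linarith
    refine h1.trans ?_
    have h2 : u ^ 3 / 8 ≤ g ^ 3 := by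
      calc u ^ 3 / 8 = (u / 2) ^ 3 := by ring
        _ ≤ g ^ 3 := pow_le_pow_left₀ (by linarith) hg2 3
    have h3 : Real.log A1.card ^ 2 ≤ L ^ 2 := pow_le_pow_left₀ hLA1p.le hLA1 2
    calc 4 * l = 4 * c * u ^ 3 / L ^ 2 := by rw [hl]; ring
      _ ≤ 4 * (c0 / 32) * u ^ 3 / L ^ 2 := by gcongr
      _ = c0 * (u ^ 3 / 8) / L ^ 2 := by ring
      _ ≤ c0 * g ^ 3 / L ^ 2 := by gcongr
      _ ≤ c0 * g ^ 3 / Real.log A1.card ^ 2 :=
          div_le_div_of_nonneg_left (by positivity) (by positivity) h3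

end Pool.Agent.Helper15.GPR
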