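import Mathlib

set_option autoImplicit false

/-!
# Project GL++ (MP_120218), Lev: level sets of a positive-definite-like function on `ZMod q`
-/

namespace Pool.Agent.Helper15.GPR

open Finset
open scoped Pointwise

open Classical in
/-- level sets -/
noncomputable def lev {q : ℕ} [NeZero q] (F : ZMod q → ℝ) (j : ℕ) : Finset (ZMod q) :=
  Finset.univ.filter (fun x => 1 - F x ≤ (1 / 4) ^ j / 2)

theorem mem_lev {q : ℕ} [NeZero q] {F : ZMod q → ℝ} {j : ℕ} {x : ZMod q} :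
    x ∈ lev F j ↔ 1 - F x ≤ (1 / 4) ^ j / 2 := by
  unfold lev
  rw [Finset.mem_filter]
  exact ⟨fun h => h.2, fun h => ⟨Finset.mem_univ _, h⟩⟩

theorem lev_anti {q : ℕ} [NeZero q] (F : ZMod q → ℝ) {i j : ℕ} (h : i ≤ j) : lev F j ⊆ lev F i := by
  intro x hx
  rw [mem_lev] at hx ⊢
  refine hx.trans (div_le_div_of_nonneg_right ?_ (by norm_num))
  exact pow_le_pow_of_le_one (by norm_num) (by norm_num) h

theorem lev_card {q : ℕ} [NeZero q] (hq : q.Prime) (F : ZMod q → ℝ) (M : ℝ) (hM : 2 ≤ M)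
    (h0 : F 0 = 1) (hsub : ∀ x y, 1 - F (x + y) ≤ 2 * (1 - F x) + 2 * (1 - F y))
    (hsq : ∑ x, F x ^ 2 ≤ q / M) : ∀ j : ℕ, 1 ≤ j →
      ((lev F j).card : ℝ) ≤ 1 + 8 / 3 * (1 / 2) ^ j * (q / M) := by
  have hq0 : (0 : ℝ) < q := by exact_mod_cast hq.pos
  have hM0 : (0 : ℝ) < M := by linarith
  have h1 : ((lev F 1).card : ℝ) ≤ 4 / 3 * (q / M) := by
    have h2 : ∑ x ∈ lev F 1, (3 / 4 : ℝ) ≤ ∑ x, F x ^ 2 := by
      refine le_trans (Finset.sum_le_sum (f := fun _ => (3 / 4 : ℝ)) (g := fun x => F x ^ 2) ?_)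
        (Finset.sum_le_univ_sum_of_nonneg fun x => sq_nonneg _)
      intro x hx
      rw [mem_lev] at hx
      have h3 : 7 / 8 ≤ F x := by norm_num at hx; linarith
      show (3 / 4 : ℝ) ≤ F x ^ 2
      nlinarith
    rw [Finset.sum_const, nsmul_eq_mul] at h2
    linarith
  have h1q : ((lev F 1).card : ℝ) < q := by
    refine lt_of_le_of_lt h1 ?_
    have h2 : q / M ≤ q / 2 := div_le_div_of_nonneg_left hq0.le (by norm_num) hM
    linarith
  intro j hj
  induction j, hj using Nat.le_induction with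
  | base =>
    refine h1.trans ?_
    rw [pow_one]
    have : 0 < q / M := by positivity
    linarith
  | succ j hj ih =>
    have hne : (lev F (j + 1)).Nonempty := by
      refine ⟨0, mem_lev.2 ?_⟩
      rw [h0]
      simp only [sub_self]
      positivity
    have hadd : lev F (j + 1) + lev F (j + 1) ⊆ lev F j := by
      intro z hz
      obtain ⟨x, hx, y, hy, rfl⟩ := Finset.mem_add.1 hz
      rw [mem_lev] at hx hy ⊢
      refine (hsub x y).trans ?_
      rw [pow_succ] at hx hy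
      linarith
    have h2 := ZMod.cauchy_davenport hq hne hne
    have h3 := h2.trans (Finset.card_le_card hadd)
    have h4 : (lev F j).card ≤ (lev F 1).card := Finset.card_le_card (lev_anti F hj)
    have h5 : (lev F 1).card < q := by exact_mod_cast h1q
    have h6 : 1 ≤ (lev F (j + 1)).card := hne.card_pos
    have h7 : 2 * (lev F (j + 1)).card ≤ (lev F j).card + 1 := by
      rcases min_le_iff.1 h3 with h | h <;> omega
    have h8 : 2 * ((lev F (j + 1)).card : ℝ) ≤ (lev F j).card + 1 := by exact_mod_cast h7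
    rw [pow_succ]
    linarith

theorem pow_le_inv (x : ℝ) (hx0 : 0 ≤ x) (hx1 : x < 1) (n : ℕ) (hn : 1 ≤ n) :
    x ^ n ≤ 1 / (n * (1 - x)) := by
  have h1 : x ^ n ≤ Real.exp (-(n * (1 - x))) := by
    have h2 : x ≤ Real.exp (-(1 - x)) := by
      have := Real.add_one_le_exp (-(1 - x))
      linarith
    calc x ^ n ≤ Real.exp (-(1 - x)) ^ n := pow_le_pow_left₀ hx0 h2 n
      _ = Real.exp (-(n * (1 - x))) := by
          rw [← Real.exp_nat_mul]
          congr 1
          ring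
  refine h1.trans ?_
  have hn0 : (0 : ℝ) < n := by exact_mod_cast hn
  have h3 : 0 < n * (1 - x) := mul_pos hn0 (by linarith)
  rw [Real.exp_neg, one_div]
  refine inv_anti₀ h3 ?_
  have := Real.add_one_le_exp (n * (1 - x))
  linarith

theorem sum_two_pow (J : ℕ) : ∑ j ∈ Finset.Ico 1 J, (2 : ℝ) ^ j ≤ 2 ^ J := by
  induction J with
  | zero => simp
  | succ J ih =>
    rcases Nat.eq_zero_or_pos J with h | h
    · subst h
      simp
    · rw [Finset.sum_Ico_succ_top h, pow_succ]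
      linarith

open Classical in
theorem sum_pow_le {q : ℕ} [NeZero q] (hq : q.Prime) (F : ZMod q → ℝ) (M : ℝ) (hM : 2 ≤ M)
    (h0 : F 0 = 1) (hF0 : ∀ x, 0 ≤ F x) (hF1 : ∀ x, F x ≤ 1)
    (hsub : ∀ x y, 1 - F (x + y) ≤ 2 * (1 - F x) + 2 * (1 - F y))
    (hsq : ∑ x, F x ^ 2 ≤ q / M) (J : ℕ) (hJ : 1 ≤ J) (hJq : 2 ^ J * M ≤ q) :
    ∑ x, F x ^ (4 ^ J) ≤ 52 * (1 / 2) ^ J * (q / M) := by
  have hq0 : (0 : ℝ) < q := by exact_mod_cast hq.pos
  have hM0 : (0 : ℝ) < M := by linarith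
  have hqM : 0 < q / M := by positivity
  have hlev := lev_card hq F M hM h0 hsub hsq
  have hone : 1 ≤ (1 / 2) ^ J * (q / M) := by
    rw [one_div, inv_pow, ← div_eq_inv_mul, le_div_iff₀ (by positivity), one_mul,
      le_div_iff₀ hM0]
    exact hJq
  have hlev2 : ∀ j : ℕ, 1 ≤ j → j ≤ J → ((lev F j).card : ℝ) ≤ 4 * (1 / 2) ^ j * (q / M) := by
    intro j hj hjJ
    have h1 := hlev j hj
    have h2 : (1 / 2 : ℝ) ^ J * (q / M) ≤ (1 / 2) ^ j * (q / M) :=
      mul_le_mul_of_nonneg_right (pow_le_pow_of_le_one (by norm_num) (by norm_num) hjJ) hqM.le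
    linarith
  have hn4 : 4 ≤ 4 ^ J := by
    calc 4 = 4 ^ 1 := by norm_num
      _ ≤ 4 ^ J := Nat.pow_le_pow_right (by norm_num) hJ
  have hnR : ((4 ^ J : ℕ) : ℝ) = 4 ^ J := by push_cast; rfl
  have h4J : (0 : ℝ) < 4 ^ J := by positivity
  have h24 : (16 : ℝ) / 4 ^ J ≤ 16 * (1 / 2) ^ J := by
    rw [div_le_iff₀ h4J, mul_assoc, ← mul_pow]
    have h1 : (1 : ℝ) ≤ (1 / 2 * 4) ^ J := one_le_pow₀ (by norm_num)
    linarith
  -- pointwise bound
  have hpt : ∀ x, F x ^ (4 ^ J) ≤ 16 * (1 / 2) ^ J * F x ^ 2 +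
      ∑ j ∈ Finset.Ico 1 J, (if x ∈ lev F j then 8 * 4 ^ j / 4 ^ J else (0 : ℝ)) +
      (if x ∈ lev F J then (1 : ℝ) else 0) := by
    intro x
    have hsum0 : 0 ≤ ∑ j ∈ Finset.Ico 1 J, (if x ∈ lev F j then 8 * 4 ^ j / 4 ^ J else (0 : ℝ)) := by
      refine Finset.sum_nonneg fun j _ => ?_
      split_ifs
      · positivity
      · exact le_rfl
    have hA0 : 0 ≤ 16 * (1 / 2) ^ J * F x ^ 2 := by positivity
    by_cases hxJ : x ∈ lev F J
    · rw [if_pos hxJ]
      have h1 : F x ^ (4 ^ J) ≤ 1 := pow_le_one₀ (hF0 x) (hF1 x)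
      linarith
    rw [if_neg hxJ, add_zero]
    by_cases hx1 : x ∈ lev F 1
    · -- the largest level
      obtain ⟨j, hj1, hjJ, hxj, hxj'⟩ : ∃ j, 1 ≤ j ∧ j < J ∧ x ∈ lev F j ∧ x ∉ lev F (j + 1) := by
        by_contra hcon
        push Not at hcon
        have h1 : ∀ j, 1 ≤ j → j ≤ J → x ∈ lev F j := by
          intro j hj
          induction j, hj using Nat.le_induction with
          | base => exact fun _ => hx1
          | succ j hj ih => exact fun h => hcon j hj (by omega) (ih (by omega))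
        exact hxJ (h1 J hJ le_rfl)
      have h1 : F x ^ (4 ^ J) ≤ 8 * 4 ^ j / 4 ^ J := by
        rw [mem_lev, not_le] at hxj'
        have h2 : (0 : ℝ) < (1 / 4) ^ (j + 1) / 2 := by positivity
        have h3 := pow_le_inv (F x) (hF0 x) (by linarith) (4 ^ J) (by omega)
        refine h3.trans ?_
        rw [hnR]
        have h4 : 1 / (4 ^ J * (1 - F x)) ≤ 1 / (4 ^ J * ((1 / 4) ^ (j + 1) / 2)) := by
          refine one_div_le_one_div_of_le (by positivity) ?_
          exact mul_le_mul_of_nonneg_left hxj'.le h4J.le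
        refine h4.trans (le_of_eq ?_)
        have h5 : (4 : ℝ) ^ j ≠ 0 := by positivity
        rw [pow_succ, one_div_pow]
        field_simp
        norm_num
      have h2 : (if x ∈ lev F j then 8 * 4 ^ j / 4 ^ J else (0 : ℝ)) ≤
          ∑ j ∈ Finset.Ico 1 J, (if x ∈ lev F j then 8 * 4 ^ j / 4 ^ J else (0 : ℝ)) := by
        refine Finset.single_le_sum (f := fun j => if x ∈ lev F j then 8 * 4 ^ j / 4 ^ J
          else (0 : ℝ)) ?_ (Finset.mem_Ico.2 ⟨hj1, hjJ⟩)
        intro i _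
        show 0 ≤ (if x ∈ lev F i then 8 * 4 ^ i / 4 ^ J else (0 : ℝ))
        split_ifs
        · positivity
        · exact le_rfl
      rw [if_pos hxj] at h2
      linarith
    · rw [mem_lev, not_le] at hx1
      have hx2 : F x < 1 - 1 / 8 := by norm_num at hx1; linarith
      have h1 : F x ^ (4 ^ J) = F x ^ 2 * F x ^ (4 ^ J - 2) := by
        rw [← pow_add]
        congr 1
        omega
      have h2 : F x ^ (4 ^ J - 2) ≤ 16 / 4 ^ J := by
        have h3 := pow_le_inv (F x) (hF0 x) (by linarith) (4 ^ J - 2) (by omega)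
        refine h3.trans ?_
        have h4 : ((4 ^ J : ℕ) : ℝ) / 2 ≤ ((4 ^ J - 2 : ℕ) : ℝ) := by
          rw [Nat.cast_sub (by omega)]
          have : ((4 : ℕ) : ℝ) ≤ ((4 ^ J : ℕ) : ℝ) := by exact_mod_cast hn4
          push_cast at this ⊢
          linarith
        rw [hnR] at h4
        have h5 : 4 ^ J / 16 ≤ ((4 ^ J - 2 : ℕ) : ℝ) * (1 - F x) := by
          calc (4 : ℝ) ^ J / 16 = 4 ^ J / 2 * (1 / 8) := by ring
            _ ≤ ((4 ^ J - 2 : ℕ) : ℝ) * (1 - F x) :=
                mul_le_mul h4 (by linarith) (by norm_num) (Nat.cast_nonneg _)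
        refine (one_div_le_one_div_of_le (by positivity) h5).trans (le_of_eq ?_)
        rw [one_div_div]
      have h3 : F x ^ (4 ^ J) ≤ 16 * (1 / 2) ^ J * F x ^ 2 := by
        rw [h1, mul_comm (16 * (1 / 2) ^ J)]
        exact mul_le_mul_of_nonneg_left (h2.trans h24) (sq_nonneg _)
      linarith
  refine (Finset.sum_le_sum fun x _ => hpt x).trans ?_
  rw [Finset.sum_add_distrib, Finset.sum_add_distrib, ← Finset.mul_sum, Finset.sum_comm]
  have e1 : ∀ j : ℕ, ∑ x, (if x ∈ lev F j then 8 * 4 ^ j / 4 ^ J else (0 : ℝ)) =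
      (lev F j).card * (8 * 4 ^ j / 4 ^ J) := by
    intro j
    rw [← Finset.sum_filter, Finset.filter_mem_eq_inter, Finset.univ_inter, Finset.sum_const,
      nsmul_eq_mul]
  have e2 : ∑ x, (if x ∈ lev F J then (1 : ℝ) else 0) = (lev F J).card := by
    rw [← Finset.sum_filter, Finset.filter_mem_eq_inter, Finset.univ_inter, Finset.sum_const,
      nsmul_eq_mul, mul_one]
  rw [e2, Finset.sum_congr rfl (fun j _ => e1 j)]
  have s1 : 16 * (1 / 2) ^ J * ∑ x, F x ^ 2 ≤ 16 * (1 / 2) ^ J * (q / M) :=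
    mul_le_mul_of_nonneg_left hsq (by positivity)
  have s2 : ∑ j ∈ Finset.Ico 1 J, ((lev F j).card : ℝ) * (8 * 4 ^ j / 4 ^ J) ≤
      32 * (1 / 2) ^ J * (q / M) := by
    have h1 : ∀ j ∈ Finset.Ico 1 J, ((lev F j).card : ℝ) * (8 * 4 ^ j / 4 ^ J) ≤
        32 / 4 ^ J * (q / M) * 2 ^ j := by
      intro j hj
      rw [Finset.mem_Ico] at hj
      calc ((lev F j).card : ℝ) * (8 * 4 ^ j / 4 ^ J) ≤
            (4 * (1 / 2) ^ j * (q / M)) * (8 * 4 ^ j / 4 ^ J) :=
            mul_le_mul_of_nonneg_right (hlev2 j hj.1 hj.2.le) (by positivity)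
        _ = 32 / 4 ^ J * (q / M) * ((1 / 2) ^ j * 4 ^ j) := by ring
        _ = 32 / 4 ^ J * (q / M) * 2 ^ j := by
            rw [← mul_pow]
            norm_num
    refine (Finset.sum_le_sum h1).trans ?_
    rw [← Finset.mul_sum]
    refine (mul_le_mul_of_nonneg_left (sum_two_pow J) (by positivity)).trans (le_of_eq ?_)
    have h2 : (1 / 2 : ℝ) ^ J = 2 ^ J / 4 ^ J := by
      rw [← div_pow]
      norm_num
    rw [h2]
    ring
  have s3 := hlev2 J hJ le_rfl
  linarith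

end Pool.Agent.Helper15.GPR
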