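import Pool.Agent.Helper15.GPR.Popular

set_option autoImplicit false

/-!
# Project GL++ (MP_120218), Pop3: a set with many popular ratios grows, quantitative form
-/

namespace Pool.Agent.Helper15.GPR

open Finset Pool.Agent.Helper15.GLP Pool.Agent.Helper15.GPP Pool.Agent.Helper15.GPQ

theorem g_le {A : Finset ℤ} (hA : A.Nonempty) (l : ℝ) :
    Real.log (XX A l).card ≤ 2 * Real.log A.card := by
  have hA1 : (1 : ℝ) ≤ A.card := by exact_mod_cast hA.card_pos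
  rcases Nat.eq_zero_or_pos (XX A l).card with h1 | h1
  · rw [h1, Nat.cast_zero, Real.log_zero]
    have := Real.log_nonneg hA1
    linarith
  · have h2 : (0 : ℝ) < (XX A l).card := by exact_mod_cast h1
    have h3 : ((XX A l).card : ℝ) ≤ A.card * A.card := by
      exact_mod_cast card_XX_le A _
    have h4 := Real.log_le_log h2 h3
    rw [Real.log_mul (by linarith) (by linarith)] at h4
    linarith

/-- the logarithmic form of `step` -/
theorem step_log (E X Y K l : ℝ) (hX : 0 < X) (hY : 0 < Y) (hK : 0 < K)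
    (h : Real.exp (-(4 * l)) / 4 * X ^ 2 ≤ K ^ 9 * Y) (hE : E = Real.log 4) :
    -(4 * l) - E + 2 * Real.log X ≤ 9 * Real.log K + Real.log Y := by
  have h0 : 0 < Real.exp (-(4 * l)) / 4 := by positivity
  have h1 := Real.log_le_log (mul_pos h0 (pow_pos hX 2)) h
  rw [Real.log_mul h0.ne' (pow_pos hX 2).ne', Real.log_div (Real.exp_pos _).ne' (by norm_num),
    Real.log_exp, Real.log_pow, Real.log_mul (pow_pos hK 9).ne' hY.ne', Real.log_pow] at h1
  rw [hE]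
  push_cast at h1
  linarith

theorem cube_le (g L : ℝ) (hg0 : 0 < g) (hL0 : 0 < L) (hgL : g ≤ 2 * L) :
    g ^ 3 / L ^ 2 ≤ 4 * g := by
  rw [div_le_iff₀ (by positivity)]
  have h1 : g ^ 2 ≤ (2 * L) ^ 2 := pow_le_pow_left₀ hg0.le hgL 2
  calc g ^ 3 = g * g ^ 2 := by ring
    _ ≤ g * (2 * L) ^ 2 := mul_le_mul_of_nonneg_left h1 hg0.le
    _ = 4 * g * L ^ 2 := by ring

theorem log_four_lt : Real.log 4 < 7 / 5 := by
  have hl24 : Real.log 4 = 2 * Real.log 2 := by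
    rw [show (4 : ℝ) = 2 ^ 2 by norm_num, Real.log_pow]
    norm_num
  have := Real.log_two_lt_d9
  linarith

/-- the box at the right scale -/
theorem box_at (c c5 : ℝ) (hc0 : 0 < c) (hca : c ≤ 1 / 160) (hc50 : 0 < c5) (hc5a : c5 ≤ 1 / 18)
    (A : Finset ℤ) (l g L : ℝ) (hA : A.Nonempty) (h0 : (0 : ℤ) ∉ A) (hl : 0 ≤ l)
    (hL : L = Real.log A.card) (hL0 : 0 < L) (hg : g = Real.log (XX A l).card) (hg14 : 14 < g)
    (hc5g : 32 ≤ c5 * g) (hl1 : l + 1 ≤ c * g ^ 3 / L ^ 2)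
    (hY : Real.log (XX A (2 * l + 1)).card ≤ 13 / 10 * g) :
    ∃ (R : ℕ) (q b : Fin R → ℕ), (∀ j, (q j).Prime) ∧
      Tr ((XX A (2 * l + 1)).image (vq q)) b ∧ 1 ≤ sup b ∧
      31 ≤ Real.log ((bx b : ℕ) : ℝ) ∧ Real.log ((bx b : ℕ) : ℝ) ≤ c5 * g ∧
      c5 * g ≤ 2 * Real.log ((bx b : ℕ) : ℝ) ∧
      (sup b : ℝ) ≤ 2 * Real.log ((bx b : ℕ) : ℝ) := by
  have hg0 : 0 < g := by linarith
  have hgL : g ≤ 2 * L := by
    rw [hg, hL]
    exact g_le hA l
  have hXne : (XX A l).Nonempty := by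
    rw [Finset.nonempty_iff_ne_empty]
    intro h
    rw [h, Finset.card_empty, Nat.cast_zero, Real.log_zero] at hg
    linarith
  have hXp : (0 : ℝ) < (XX A l).card := by exact_mod_cast hXne.card_pos
  have hl4 : 4 * l ≤ g / 10 := by
    have h1 : c * g ^ 3 / L ^ 2 ≤ c * (4 * g) := by
      calc c * g ^ 3 / L ^ 2 = c * (g ^ 3 / L ^ 2) := by ring
        _ ≤ c * (4 * g) := mul_le_mul_of_nonneg_left (cube_le g L hg0 hL0 hgL) hc0.le
    have h2 : c * (4 * g) ≤ 1 / 160 * (4 * g) := mul_le_mul_of_nonneg_right hca (by positivity)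
    linarith
  obtain ⟨R, q, hq, hinj⟩ := exists_vq (XX A (2 * l + 1)) (fun s hs => by
    rw [mem_XX hA h0] at hs
    exact hs.1)
  obtain ⟨b', hb', hstep⟩ := step hA h0 l hl q hq hinj hXne
  have hb'p : (0 : ℝ) < ((bx b' : ℕ) : ℝ) := by exact_mod_cast bx_pos b'
  have hYp : (0 : ℝ) < (XX A (2 * l + 1)).card := by
    exact_mod_cast (hXne.mono (XX_mono hA h0 (by linarith))).card_pos
  have hK : g / 18 ≤ Real.log ((bx b' : ℕ) : ℝ) := by
    have h1 := step_log _ _ _ _ l hXp hYp hb'p hstep rfl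
    rw [← hg] at h1
    have := log_four_lt
    linarith
  obtain ⟨T, hT⟩ : ∃ T : ℕ, T = ⌊Real.exp (c5 * g)⌋₊ := ⟨_, rfl⟩
  have hTc : (T : ℝ) ≤ Real.exp (c5 * g) := by
    rw [hT]
    exact Nat.floor_le (Real.exp_pos _).le
  have hTlt : Real.exp (c5 * g) < T + 1 := by
    rw [hT]
    exact Nat.lt_floor_add_one _
  have hT1 : 1 ≤ T := by
    rw [hT]
    refine Nat.le_floor ?_
    rw [Nat.cast_one, ← Real.exp_zero]
    exact Real.exp_le_exp.2 (by positivity)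
  have hTb : T ≤ bx b' := by
    have h1 : (T : ℝ) ≤ ((bx b' : ℕ) : ℝ) := by
      refine hTc.trans ?_
      rw [← Real.exp_log hb'p]
      refine Real.exp_le_exp.2 (le_trans ?_ hK)
      have := mul_le_mul_of_nonneg_right hc5a hg0.le
      linarith
    exact_mod_cast h1
  obtain ⟨b, hbb', hbT, hb2⟩ := exists_sub_box T hT1 _ b' rfl hTb
  have hbp : (0 : ℝ) < ((bx b : ℕ) : ℝ) := by exact_mod_cast bx_pos b
  obtain ⟨β, hβ⟩ : ∃ β : ℝ, β = Real.log ((bx b : ℕ) : ℝ) := ⟨_, rfl⟩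
  have hβ1 : β ≤ c5 * g := by
    rw [hβ, Real.log_le_iff_le_exp hbp]
    exact le_trans (by exact_mod_cast hbT) hTc
  have hlog2 := Real.log_two_lt_d9
  have hlog2' := Real.log_two_gt_d9
  have hβ2 : c5 * g ≤ Real.log 2 + β := by
    have h1 : Real.exp (c5 * g) ≤ 2 * ((bx b : ℕ) : ℝ) := by
      have h2 : ((T + 1 : ℕ) : ℝ) ≤ ((2 * bx b : ℕ) : ℝ) := by exact_mod_cast hb2
      push_cast at h2
      linarith
    have h2 := Real.log_le_log (Real.exp_pos _) h1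
    rw [Real.log_exp, Real.log_mul (by norm_num) hbp.ne', ← hβ] at h2
    exact h2
  refine ⟨R, q, b, hq, (osh_tr R _ b' hb').mono hbb', ?_, ?_, ?_, ?_, ?_⟩
  · by_contra hcon
    have h1 : sup b = 0 := by omega
    have h2 := bx_eq_one b h1
    rw [h2, Nat.cast_one, Real.log_one] at hβ
    linarith
  · rw [← hβ]
    linarith
  · rw [← hβ]
    exact hβ1
  · rw [← hβ]
    linarith
  · have h1 : ((2 ^ sup b : ℕ) : ℝ) ≤ ((bx b : ℕ) : ℝ) := by exact_mod_cast two_pow_le_bx b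
    push_cast at h1
    have h2 := Real.log_le_log (by positivity) h1
    rw [Real.log_pow] at h2
    have h3 : (0 : ℝ) ≤ sup b := Nat.cast_nonneg _
    nlinarith

/-- many popular ratios with few primes -/
theorem contra (η B : ℝ) (hη : 0 < η) (hη1 : η ≤ 1) (hB : 0 ≤ B) :
    ∃ C2 c2 N2 : ℝ, 0 < C2 ∧ 0 < c2 ∧ c2 ≤ 1 ∧ 0 < N2 ∧ ∀ (A : Finset ℤ) (L M κ : ℝ) (r : ℕ)
      (pr : Fin r → ℕ) (Q : Finset ℚ), A.Nonempty → (0 : ℤ) ∉ A → L = Real.log A.card →
      N2 ≤ A.card → 1 ≤ r → (r : ℝ) ≤ c2 * L → (∀ i, (pr i).Prime) → (∀ x ∈ Q, 0 < x) →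
      (∀ x ∈ Q, Real.exp (-κ) / 2 * A.card ≤ ww A x) →
      (∀ x ∈ Q, ∀ y ∈ Q, (∀ i, padicValRat (pr i) x = padicValRat (pr i) y) → x = y) →
      M = (C2 * L / r) ^ r → 0 < M → 4 * M * Real.exp κ < Q.card →
      Real.log 4 + Real.log M + κ ≤ c2 * L / 2 → 16 ≤ c2 * L → κ + Real.log 4 ≤ c2 * L →
      GrowsB η B A := by
  classical
  obtain ⟨C2, c2, N2, hC2, hc2, hc21, hN2, hgrow⟩ := grow_sepU η B hη hη1 hB
  refine ⟨C2, c2, N2, hC2, hc2, hc21, hN2, ?_⟩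
  intro A L M κ r pr Q hA h0 hL hAN hr1 hrc2 hpr hQ0 hQpop hQsep hM hM0 hQbig hsmall h16 hκ
  have hA0 : (0 : ℝ) < A.card := by exact_mod_cast hA.card_pos
  have hNL : (A.card : ℝ) = Real.exp L := by rw [hL, Real.exp_log hA0]
  obtain ⟨T2, hT2⟩ : ∃ T2 : ℕ, T2 = ⌊Real.exp (c2 * L)⌋₊ := ⟨_, rfl⟩
  have hT2c : (T2 : ℝ) ≤ Real.exp (c2 * L) := by
    rw [hT2]
    exact Nat.floor_le (Real.exp_pos _).le
  have hT2big : 4 * M * Real.exp κ < T2 := by
    have h1 : Real.exp (c2 * L) < T2 + 1 := by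
      rw [hT2]
      exact Nat.lt_floor_add_one _
    have h2 : 4 * M * Real.exp κ ≤ Real.exp (c2 * L / 2) := by
      have h3 : 4 * M * Real.exp κ = Real.exp (Real.log 4 + Real.log M + κ) := by
        rw [Real.exp_add, Real.exp_add, Real.exp_log (by norm_num), Real.exp_log hM0]
      rw [h3]
      exact Real.exp_le_exp.2 hsmall
    have h3 : Real.exp (c2 * L) = Real.exp (c2 * L / 2) * Real.exp (c2 * L / 2) := by
      rw [← Real.exp_add]
      congr 1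
      ring
    have h4 := Real.add_one_le_exp (c2 * L / 2)
    have h5 : 2 * Real.exp (c2 * L / 2) ≤ Real.exp (c2 * L / 2) * Real.exp (c2 * L / 2) :=
      mul_le_mul_of_nonneg_right (by linarith) (Real.exp_pos _).le
    linarith
  -- the small set
  obtain ⟨Q', hQ'Q, hQ'c⟩ := Finset.exists_subset_card_eq (s := Q) (n := min Q.card T2)
    (min_le_left _ _)
  have hQ'big : 4 * M * Real.exp κ < Q'.card := by
    rw [hQ'c, Nat.cast_min]
    exact lt_min hQbig hT2big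
  have hQ'T : (Q'.card : ℝ) ≤ T2 := by
    rw [hQ'c, Nat.cast_min]
    exact min_le_right _ _
  by_contra hG
  have hpow : ∀ x : ℝ, (A.card : ℝ) ^ x = Real.exp (x * L) := by
    intro x
    rw [Real.rpow_def_of_pos hA0, hL, mul_comm]
  have hnorich : ∀ Z : Finset ℚ, (∀ z ∈ Z, M < ((rich A (Q'.image (fun s => s⁻¹)) z).card : ℝ)) →
      (Z.card : ℝ) ≤ (A.card : ℝ) ^ (1 - c2) := by
    intro Z hZ
    by_contra hcon
    rw [not_le] at hcon
    refine hG (hgrow A r pr (Q'.image (fun s => s⁻¹)) Z hAN hr1 ?_ hpr ?_ ?_ ?_ hcon ?_)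
    · rw [← hL]
      exact hrc2
    · intro s hs
      obtain ⟨t, ht, rfl⟩ := Finset.mem_image.1 hs
      exact inv_pos.2 (hQ0 t (hQ'Q ht))
    · intro s hs t ht hst
      obtain ⟨s', hs', rfl⟩ := Finset.mem_image.1 hs
      obtain ⟨t', ht', rfl⟩ := Finset.mem_image.1 ht
      rw [hQsep s' (hQ'Q hs') t' (hQ'Q ht') fun i => ?_]
      have := Fact.mk (hpr i)
      have h1 := hst i
      rw [padicValRat.inv, padicValRat.inv] at h1
      linarith
    · have h1 : ((Q'.image (fun s => s⁻¹)).card : ℝ) ≤ Q'.card := by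
        exact_mod_cast Finset.card_image_le
      rw [hpow]
      exact h1.trans (hQ'T.trans hT2c)
    · intro z hz
      rw [← hL, ← hM]
      exact hZ z hz
  have hfin := pop_bound h0 Q' (fun x hx => hQ0 x (hQ'Q hx)) (Real.exp (-κ) / 2) M
    ((A.card : ℝ) ^ (1 - c2)) hM0.le (fun x hx => hQpop x (hQ'Q hx)) hnorich
  have hsm : (A.card : ℝ) ^ (1 - c2) ≤ A.card * (Real.exp (-κ) / 4) := by
    rw [hpow]
    have h1 : Real.exp (-κ) / 4 = Real.exp (-κ - Real.log 4) := by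
      rw [Real.exp_sub, Real.exp_log (by norm_num)]
    rw [h1, hNL, ← Real.exp_add]
    refine Real.exp_le_exp.2 ?_
    linarith
  have h1 : (A.card : ℝ) ^ (1 - c2) * Q'.card ≤ A.card * (Real.exp (-κ) / 4) * Q'.card :=
    mul_le_mul_of_nonneg_right hsm (Nat.cast_nonneg _)
  have h2 : (A.card : ℝ) * (Real.exp (-κ) / 4 * Q'.card) ≤ A.card * M := by
    have e1 : Real.exp (-κ) / 2 * A.card * Q'.card =
      2 * ((A.card : ℝ) * (Real.exp (-κ) / 4 * Q'.card)) := by ring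
    have e2 : (A.card : ℝ) * (Real.exp (-κ) / 4) * Q'.card =
      (A.card : ℝ) * (Real.exp (-κ) / 4 * Q'.card) := by ring
    rw [e1] at hfin
    rw [e2] at h1
    linarith
  have h3 := le_of_mul_le_mul_left h2 hA0
  have h4 : (Q'.card : ℝ) ≤ 4 * M * Real.exp κ := by
    have h5 : Real.exp (-κ) * Real.exp κ = 1 := by
      rw [← Real.exp_add, neg_add_cancel, Real.exp_zero]
    calc (Q'.card : ℝ) = 4 * (Real.exp (-κ) / 4 * Q'.card) * Real.exp κ := by
          have : 4 * (Real.exp (-κ) / 4 * Q'.card) * Real.exp κ =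
            (Real.exp (-κ) * Real.exp κ) * Q'.card := by ring
          rw [this, h5, one_mul]
      _ ≤ 4 * M * Real.exp κ := by gcongr
  linarith

/-- the size of `Q` -/
theorem q_big (M C2 L β κ bb q : ℝ) (r J : ℕ) (hC2 : 0 < C2) (hL : 0 < L) (hr : 1 ≤ r)
    (hM : M = (C2 * L / r) ^ r) (hbb : bb = Real.exp β) (hβ : 31 ≤ β) (hκ : κ ≤ β / 16)
    (hJ : C2 * L / r * Real.exp (-(β / (2 * r))) ≤ 2 ^ J / 52)
    (hq : Real.exp (-κ) / 2 * (2 ^ J / 52) ^ r * bb ≤ q) : 4 * M * Real.exp κ < q := by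
  have hr0 : (0 : ℝ) < r := by exact_mod_cast hr
  have hM0 : 0 < M := by rw [hM]; positivity
  have h1 : M * Real.exp (-(β / 2)) ≤ (2 ^ J / 52) ^ r := by
    have h2 : M * Real.exp (-(β / 2)) =
        (C2 * L / r * Real.exp (-(β / (2 * r)))) ^ r := by
      rw [mul_pow, ← hM, ← Real.exp_nat_mul]
      congr 2
      field_simp
    rw [h2]
    exact pow_le_pow_left₀ (by positivity) hJ _
  have h3 : Real.exp (-κ) / 2 * (M * Real.exp (-(β / 2))) * Real.exp β ≤ q := by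
    refine le_trans ?_ hq
    rw [hbb]
    gcongr
  have h4 : Real.exp (-κ) / 2 * (M * Real.exp (-(β / 2))) * Real.exp β =
      M / 2 * (Real.exp (β / 2 - 2 * κ) * Real.exp κ) := by
    have e1 : Real.exp (β / 2 - 2 * κ) * Real.exp κ =
        Real.exp (-κ) * Real.exp (-(β / 2)) * Real.exp β := by
      rw [← Real.exp_add, ← Real.exp_add, ← Real.exp_add]
      congr 1
      ring
    rw [e1]
    ring
  rw [h4] at h3
  have h5 : 8 < Real.exp (β / 2 - 2 * κ) := by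
    have := Real.add_one_le_exp (β / 2 - 2 * κ)
    linarith
  refine lt_of_lt_of_le ?_ h3
  have h6 : 8 * Real.exp κ < Real.exp (β / 2 - 2 * κ) * Real.exp κ :=
    mul_lt_mul_of_pos_right h5 (Real.exp_pos _)
  have h7 : M / 2 * (8 * Real.exp κ) < M / 2 * (Real.exp (β / 2 - 2 * κ) * Real.exp κ) :=
    mul_lt_mul_of_pos_left h6 (by positivity)
  linarith

/-- the logarithm of `M` -/
theorem log_M (M C2 L l1 c2 c5 : ℝ) (r : ℕ) (hC2 : 0 < C2) (hL : 0 < L) (hr : 1 ≤ r)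
    (hM : M = (C2 * L / r) ^ r) (hl10 : 0 < l1) (hlog : 0 ≤ Real.log (1 / l1))
    (hl1C : l1 * C2 ≤ c2 / 32) (hc5c : 4 * c5 * Real.log (1 / l1) ≤ c2 / 16)
    (hrL : (r : ℝ) ≤ 4 * c5 * L) : Real.log M ≤ 3 * c2 * L / 32 := by
  have hr0 : (0 : ℝ) < r := by exact_mod_cast hr
  rw [hM, Real.log_pow]
  have h1 := log_le_lin l1 (C2 * L / r) hl10 (by positivity)
  have h2 := mul_le_mul_of_nonneg_left h1 hr0.le
  have h3 : (r : ℝ) * (l1 * (C2 * L / r) + Real.log (1 / l1)) =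
      l1 * C2 * L + r * Real.log (1 / l1) := by
    field_simp
  rw [h3] at h2
  have h4 : l1 * C2 * L ≤ c2 / 32 * L := mul_le_mul_of_nonneg_right hl1C hL.le
  have h5 : r * Real.log (1 / l1) ≤ c2 / 16 * L := by
    calc r * Real.log (1 / l1) ≤ (4 * c5 * L) * Real.log (1 / l1) :=
          mul_le_mul_of_nonneg_right hrL hlog
      _ = (4 * c5 * Real.log (1 / l1)) * L := by ring
      _ ≤ c2 / 16 * L := mul_le_mul_of_nonneg_right hc5c hL.le
  linarith

/-- the length of the walk -/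
theorem cost (c c5 C6 g L l β : ℝ) (hc0 : 0 < c) (hg0 : 0 < g) (hL0 : 0 < L) (hc50 : 0 < c5)
    (hC60 : 0 < C6) (hcb : c * C6 ≤ c5 ^ 3 / 512) (hl1 : l + 1 ≤ c * g ^ 3 / L ^ 2)
    (hβ : c5 * g ≤ 2 * β) : 2 * (2 * l + 1) * C6 * L ^ 2 ≤ β ^ 3 / 16 := by
  have h1 : 2 * (2 * l + 1) ≤ 4 * (c * g ^ 3 / L ^ 2) := by linarith
  calc 2 * (2 * l + 1) * C6 * L ^ 2 ≤ 4 * (c * g ^ 3 / L ^ 2) * C6 * L ^ 2 := by gcongr
    _ = 4 * (c * C6) * g ^ 3 := by
        field_simp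
    _ ≤ 4 * (c5 ^ 3 / 512) * g ^ 3 := by gcongr
    _ = (c5 * g) ^ 3 / 128 := by ring
    _ ≤ (2 * β) ^ 3 / 128 := by gcongr
    _ = β ^ 3 / 16 := by ring

end Pool.Agent.Helper15.GPR
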