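import Pool.Agent.Helper15.GPR.Pop3

set_option autoImplicit false

/-!
# Project GL++ (MP_120218), Pop4: a set with many popular ratios grows
-/

namespace Pool.Agent.Helper15.GPR

open Finset Pool.Agent.Helper15.GLP Pool.Agent.Helper15.GPP Pool.Agent.Helper15.GPQ

/-- at the right scale -/
theorem at_scale (η B : ℝ) (hη : 0 < η) (hη1 : η ≤ 1) (hB : 0 ≤ B) :
    ∃ c U0 : ℝ, 0 < c ∧ 1 ≤ U0 ∧ ∀ (A : Finset ℤ) (l g L : ℝ), A.Nonempty → (0 : ℤ) ∉ A → 0 ≤ l →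
      L = Real.log A.card → g = Real.log (XX A l).card → U0 ≤ g →
      l + 1 ≤ c * g ^ 3 / L ^ 2 →
      Real.log (XX A (2 * l + 1)).card ≤ 13 / 10 * g → GrowsB η B A := by
  obtain ⟨C2, c2, N2, hC2, hc2, hc21, hN2, hcontra⟩ := contra η B hη hη1 hB
  obtain ⟨l1, hl1⟩ : ∃ l1 : ℝ, l1 = min 1 (c2 / (32 * C2)) := ⟨_, rfl⟩
  have hl10 : 0 < l1 := by rw [hl1]; exact lt_min one_pos (by positivity)
  have hl11 : l1 ≤ 1 := by rw [hl1]; exact min_le_left _ _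
  have hl1C : l1 * C2 ≤ c2 / 32 := by
    have h1 : l1 ≤ c2 / (32 * C2) := by rw [hl1]; exact min_le_right _ _
    calc l1 * C2 ≤ c2 / (32 * C2) * C2 := mul_le_mul_of_nonneg_right h1 hC2.le
      _ = c2 / 32 := by field_simp
  have hlog : 0 ≤ Real.log (1 / l1) := by
    apply Real.log_nonneg
    rw [le_div_iff₀ hl10]
    linarith
  obtain ⟨c5, hc5⟩ : ∃ c5 : ℝ, c5 = min (1 / 18) (min (c2 / 4)
    (c2 / (64 * (1 + Real.log (1 / l1))))) := ⟨_, rfl⟩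
  have hc50 : 0 < c5 := by
    rw [hc5]
    exact lt_min (by norm_num) (lt_min (by positivity) (by positivity))
  have hc5a : c5 ≤ 1 / 18 := by rw [hc5]; exact min_le_left _ _
  have hc5b : c5 ≤ c2 / 4 := by rw [hc5]; exact (min_le_right _ _).trans (min_le_left _ _)
  have hc5c : 4 * c5 * Real.log (1 / l1) ≤ c2 / 16 := by
    have h1 : c5 ≤ c2 / (64 * (1 + Real.log (1 / l1))) := by
      rw [hc5]
      exact (min_le_right _ _).trans (min_le_right _ _)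
    calc 4 * c5 * Real.log (1 / l1) ≤ 4 * c5 * (1 + Real.log (1 / l1)) :=
          mul_le_mul_of_nonneg_left (by linarith) (by positivity)
      _ ≤ 4 * (c2 / (64 * (1 + Real.log (1 / l1)))) * (1 + Real.log (1 / l1)) := by gcongr
      _ = c2 / 16 := by
          field_simp
          ring
  obtain ⟨C6, hC6⟩ : ∃ C6 : ℝ, C6 = 1 + 4 * (52 * C2) ^ 2 := ⟨_, rfl⟩
  have hC60 : 0 < C6 := by rw [hC6]; positivity
  obtain ⟨c, hc⟩ : ∃ c : ℝ, c = min (1 / 160) (c5 ^ 3 / (512 * C6)) := ⟨_, rfl⟩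
  have hc0 : 0 < c := by rw [hc]; exact lt_min (by norm_num) (by positivity)
  have hca : c ≤ 1 / 160 := by rw [hc]; exact min_le_left _ _
  have hcb : c * C6 ≤ c5 ^ 3 / 512 := by
    have h1 : c ≤ c5 ^ 3 / (512 * C6) := by rw [hc]; exact min_le_right _ _
    calc c * C6 ≤ c5 ^ 3 / (512 * C6) * C6 := mul_le_mul_of_nonneg_right h1 hC60.le
      _ = c5 ^ 3 / 512 := by field_simp
  have q1 : 0 < 32 / c5 := by positivity
  have q2 : 0 ≤ Real.log (1 + N2) := Real.log_nonneg (by linarith)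
  have q3 : 0 < 32 / c2 := by positivity
  refine ⟨c, 15 + 32 / c5 + 2 * Real.log (1 + N2) + 32 / c2, hc0,
    by linarith only [q1, q2, q3], ?_⟩
  intro A l g L hA h0 hl hL hg hU hl1' hY
  have hA0 : (0 : ℝ) < A.card := by exact_mod_cast hA.card_pos
  have hg14 : 14 < g := by linarith only [q1, q2, q3, hU]
  have hg0 : 0 < g := by linarith only [hg14]
  have hgL : g ≤ 2 * L := by
    rw [hg, hL]
    exact g_le hA l
  have hL0 : 0 < L := by linarith only [hg0, hgL]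
  have hc5g : 32 ≤ c5 * g := by
    have h1 : 32 / c5 ≤ g := by linarith only [q2, q3, hU]
    rw [div_le_iff₀ hc50] at h1
    linarith only [h1]
  have hc2L : 16 ≤ c2 * L := by
    have h1 : 32 / c2 ≤ 2 * L := by linarith only [q1, q2, hU, hgL]
    rw [div_le_iff₀ hc2] at h1
    linarith only [h1]
  have hAN : N2 ≤ A.card := by
    have h1 : Real.log (1 + N2) ≤ Real.log A.card := by
      rw [← hL]
      linarith only [q1, q3, hU, hgL]
    have h2 := (Real.log_le_log_iff (by linarith only [hN2]) hA0).1 h1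
    linarith only [h2]
  obtain ⟨R, q, b, hq, hTr, hr1, hβ31, hβ1, hβ2, hr2⟩ := box_at c c5 hc0 hca hc50 hc5a A l g L hA h0
    hl hL hL0 hg hg14 hc5g hl1' hY
  obtain ⟨β, hβ⟩ : ∃ β : ℝ, β = Real.log ((bx b : ℕ) : ℝ) := ⟨_, rfl⟩
  rw [← hβ] at hβ31 hβ1 hβ2 hr2
  have hbp : (0 : ℝ) < ((bx b : ℕ) : ℝ) := by exact_mod_cast bx_pos b
  have hbb : ((bx b : ℕ) : ℝ) = Real.exp β := by rw [hβ, Real.exp_log hbp]
  have hβL : β ≤ L := by
    have h1 : c5 * g ≤ 1 / 18 * g := mul_le_mul_of_nonneg_right hc5a hg0.le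
    linarith only [h1, hβ1, hgL, hg0]
  have hr0 : (0 : ℝ) < sup b := by exact_mod_cast hr1
  have hc5L : c5 * g ≤ 2 * c5 * L := by
    have h1 : c5 * g ≤ c5 * (2 * L) := mul_le_mul_of_nonneg_left hgL hc50.le
    linarith only [h1]
  have hrL : (sup b : ℝ) ≤ 4 * c5 * L := by linarith only [hr2, hβ1, hc5L]
  have hc5c2 : c5 * L ≤ c2 / 4 * L := mul_le_mul_of_nonneg_right hc5b hL0.le
  have hrc2 : (sup b : ℝ) ≤ c2 * L := by linarith only [hrL, hc5c2]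
  obtain ⟨J, hJ1, hJ2⟩ := choose_J C2 L β (sup b) (2 * (2 * l + 1)) hC2 hL0
    (by linarith only [hβ31]) hβL hr0 (by positivity) (by
      rw [← hC6]
      exact cost c c5 C6 g L l β hc0 hg0 hL0 hc50 hC60 hcb hl1' hβ2)
  obtain ⟨κ, hκ⟩ : ∃ κ : ℝ, κ = 2 * (2 * l + 1) * 4 ^ J := ⟨_, rfl⟩
  rw [← hκ] at hJ2
  obtain ⟨Q, hQ0, hQpop, hQsep, hQc⟩ := extract A hA q hq (XX A (2 * l + 1)) (fun s hs => by
    rw [mem_XX hA h0] at hs
    exact hs.1) (2 * l + 1) (fun s hs => by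
    rw [mem_XX hA h0] at hs
    exact hs.2) b hTr J
  rw [← hκ] at hQpop hQc
  obtain ⟨M, hM⟩ : ∃ M : ℝ, M = (C2 * L / sup b) ^ sup b := ⟨_, rfl⟩
  have hM0 : 0 < M := by rw [hM]; positivity
  have hMlog := log_M M C2 L l1 c2 c5 (sup b) hC2 hL0 hr1 hM hl10 hlog hl1C hc5c hrL
  have hκL : κ ≤ c2 * L / 32 := by linarith only [hJ2, hβ1, hc5L, hc5c2]
  have hQbig := q_big M C2 L β κ _ _ (sup b) J hC2 hL0 hr1 hM hbb hβ31 hJ2 hJ1 hQc
  have hl4 := log_four_lt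
  obtain ⟨J0, hJ0⟩ : ∃ J0 : Finset (Fin R), J0 = Finset.univ.filter (fun j => b j ≠ 0) := ⟨_, rfl⟩
  have hJ0c : J0.card = sup b := by rw [hJ0]; rfl
  refine hcontra A L M κ (sup b) (fun i => q (J0.orderEmbOfFin hJ0c i)) Q hA h0 hL hAN hr1 hrc2
    (fun i => hq _) hQ0 hQpop ?_ hM hM0 hQbig ?_ hc2L ?_
  · intro x hx y hy hxy
    refine hQsep x hx y hy fun j hj => ?_
    have h1 : j ∈ Set.range (J0.orderEmbOfFin hJ0c) := by
      rw [Finset.range_orderEmbOfFin, hJ0]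
      exact Finset.mem_coe.2 (Finset.mem_filter.2 ⟨Finset.mem_univ j, hj⟩)
    obtain ⟨i, rfl⟩ := h1
    exact hxy i
  · linarith only [hl4, hMlog, hκL, hc2L]
  · linarith only [hl4, hκL, hc2L]

/-- **A set with many popular ratios grows.** -/
theorem popular3 (η B : ℝ) (hη : 0 < η) (hη1 : η ≤ 1) (hB : 0 ≤ B) :
    ∃ c U0 : ℝ, 0 < c ∧ 1 ≤ U0 ∧ ∀ (A : Finset ℤ) (l : ℝ), A.Nonempty → (0 : ℤ) ∉ A → 0 ≤ l →
      U0 ≤ Real.log (XX A l).card →
      l + 1 ≤ c * Real.log (XX A l).card ^ 3 / Real.log A.card ^ 2 → GrowsB η B A := by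
  obtain ⟨c, U0, hc0, hU0, h⟩ := at_scale η B hη hη1 hB
  refine ⟨c, U0, hc0, hU0, ?_⟩
  intro A l hA h0 hl hU hl1
  obtain ⟨L, hL⟩ : ∃ L : ℝ, L = Real.log A.card := ⟨_, rfl⟩
  obtain ⟨g, hg⟩ : ∃ g : ℝ, g = Real.log (XX A l).card := ⟨_, rfl⟩
  rw [← hg] at hU hl1
  rw [← hL] at hl1
  have hg0 : 0 < g := by linarith
  obtain ⟨f, hf⟩ : ∃ f : ℕ → ℝ, f = fun i => Real.log (XX A (2 ^ i * (l + 1) - 1)).card := ⟨_, rfl⟩
  have hB : ∀ i, f i ≤ 2 * L := by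
    intro i
    rw [hf, hL]
    exact g_le hA _
  obtain ⟨I, hI1, hI2⟩ := select f g (2 * L) hg0 (by
    rw [hf, hg]
    show Real.log (XX A (2 ^ 0 * (l + 1) - 1)).card = _
    have : (2 : ℝ) ^ 0 * (l + 1) - 1 = l := by ring
    rw [this]) hB
  have e1 : (2 : ℝ) ^ (I + 1) * (l + 1) - 1 = 2 * (2 ^ I * (l + 1) - 1) + 1 := by ring
  have hone : (1 : ℝ) ≤ 2 ^ I := one_le_pow₀ (by norm_num)
  have hone' : (1 : ℝ) ≤ (13 / 10) ^ I := one_le_pow₀ (by norm_num)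
  refine h A (2 ^ I * (l + 1) - 1) (f I) L hA h0 (by nlinarith) hL (by rw [hf]) ?_ ?_ ?_
  · have : g ≤ (13 / 10) ^ I * g := le_mul_of_one_le_left hg0.le hone'
    linarith
  · rw [sub_add_cancel]
    have h1 : 2 ^ I * g ^ 3 ≤ f I ^ 3 := by
      have h2 : ((13 / 10 : ℝ) ^ I * g) ^ 3 ≤ f I ^ 3 := pow_le_pow_left₀ (by positivity) hI2 3
      have h3 : (2 : ℝ) ^ I ≤ ((13 / 10) ^ I) ^ 3 := by
        rw [← pow_mul, mul_comm I 3, pow_mul]
        exact pow_le_pow_left₀ (by norm_num) (by norm_num) I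
      calc 2 ^ I * g ^ 3 ≤ ((13 / 10) ^ I) ^ 3 * g ^ 3 :=
            mul_le_mul_of_nonneg_right h3 (by positivity)
        _ = ((13 / 10 : ℝ) ^ I * g) ^ 3 := by ring
        _ ≤ f I ^ 3 := h2
    calc 2 ^ I * (l + 1) ≤ 2 ^ I * (c * g ^ 3 / L ^ 2) :=
          mul_le_mul_of_nonneg_left hl1 (by positivity)
      _ = c * (2 ^ I * g ^ 3) / L ^ 2 := by ring
      _ ≤ c * f I ^ 3 / L ^ 2 := by gcongr
  · rw [← e1]
    have h1 : f (I + 1) = Real.log (XX A (2 ^ (I + 1) * (l + 1) - 1)).card := by rw [hf]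
    rw [← h1]
    exact hI1

end Pool.Agent.Helper15.GPR
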