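import Pool.Agent.Helper15.GPR.Scale
import Pool.Agent.Helper15.GPQ.GrowS

set_option autoImplicit false

/-!
# Project GL++ (MP_120218), Popular: a set with many popular ratios grows
-/

namespace Pool.Agent.Helper15.GPR

open Finset Pool.Agent.Helper15.GLP Pool.Agent.Helper15.GPP Pool.Agent.Helper15.GPQ
open scoped Pointwise

/-- counting popular ratios by rich fibres -/
theorem pop_bound {A : Finset ℤ} (h0 : (0 : ℤ) ∉ A) (Q : Finset ℚ) (hQ : ∀ x ∈ Q, 0 < x)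
    (t M w : ℝ) (hM : 0 ≤ M) (hpop : ∀ x ∈ Q, t * A.card ≤ ww A x)
    (hw : ∀ Z : Finset ℚ, (∀ z ∈ Z, M < ((rich A (Q.image (fun s => s⁻¹)) z).card : ℝ)) →
      (Z.card : ℝ) ≤ w) :
    t * A.card * Q.card ≤ w * Q.card + A.card * M := by
  classical
  obtain ⟨B, hB⟩ : ∃ B : Finset ℚ, B = A.image (fun a : ℤ => (a : ℚ)) := ⟨_, rfl⟩
  obtain ⟨P, hP⟩ : ∃ P : Finset ℚ, P = Q.image (fun s => s⁻¹) := ⟨_, rfl⟩
  have hBc : (B.card : ℝ) = A.card := by
    rw [hB, Finset.card_image_of_injective _ Int.cast_injective]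
  have hPc : (P.card : ℝ) ≤ Q.card := by
    rw [hP]
    exact_mod_cast Finset.card_image_le
  have h1 : ∑ x ∈ Q, ww A x ≤ ∑ z ∈ B, (rich A P z).card := by
    rw [← Finset.card_sigma]
    unfold ww
    rw [← Finset.card_sigma, ← hB]
    refine Finset.card_le_card_of_injOn (fun p : (_ : ℚ) × ℤ =>
      (⟨(p.2 : ℚ) * p.1, p.2⟩ : (_ : ℚ) × ℤ)) ?_ ?_
    · rintro ⟨x, a⟩ hp
      have h2 := Finset.mem_sigma.1 (Finset.mem_coe.1 hp)
      have h3 := mem_inc.1 h2.2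
      refine Finset.mem_coe.2 (Finset.mem_sigma.2 ⟨h3.2, mem_rich.2 ⟨h3.1, x⁻¹, ?_, ?_⟩⟩)
      · rw [hP]
        exact Finset.mem_image_of_mem _ h2.1
      · show (a : ℚ) = (a : ℚ) * x * x⁻¹
        rw [mul_assoc, mul_inv_cancel₀ (hQ x h2.1).ne', mul_one]
    · rintro ⟨x, a⟩ hp ⟨x', a'⟩ hp' h
      obtain ⟨e1, e2⟩ := Sigma.mk.inj_iff.1 h
      have e3 : a = a' := eq_of_heq e2
      subst e3
      have h2 := (mem_inc.1 (Finset.mem_sigma.1 (Finset.mem_coe.1 hp)).2).1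
      have ha : (a : ℚ) ≠ 0 := by
        intro h3
        have h4 : a = 0 := by exact_mod_cast h3
        exact h0 (h4 ▸ h2)
      have e4 : x = x' := mul_left_cancel₀ ha e1
      rw [e4]
  have h2 : t * A.card * Q.card ≤ ∑ x ∈ Q, (ww A x : ℝ) := by
    have := Finset.card_nsmul_le_sum Q (fun s => (ww A s : ℝ)) _ hpop
    rw [nsmul_eq_mul] at this
    linarith
  have h3 : ∑ x ∈ Q, (ww A x : ℝ) ≤ ∑ z ∈ B, ((rich A P z).card : ℝ) := by exact_mod_cast h1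
  obtain ⟨Z, hZ⟩ : ∃ Z : Finset ℚ, Z = B.filter (fun z => M < ((rich A P z).card : ℝ)) := ⟨_, rfl⟩
  have hZw : (Z.card : ℝ) ≤ w := by
    refine hw Z fun z hz => ?_
    rw [hZ, Finset.mem_filter] at hz
    rw [← hP]
    exact hz.2
  have h4 : ∑ z ∈ B, ((rich A P z).card : ℝ) ≤
      ∑ z ∈ B, (M + if M < ((rich A P z).card : ℝ) then (Q.card : ℝ) else 0) := by
    refine Finset.sum_le_sum fun z _ => ?_
    split_ifs with h
    · have h5 : ((rich A P z).card : ℝ) ≤ P.card := by exact_mod_cast rich_le A P z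
      linarith
    · rw [not_lt] at h
      linarith
  rw [Finset.sum_add_distrib, Finset.sum_const, nsmul_eq_mul, ← Finset.sum_filter, ← hZ,
    Finset.sum_const, nsmul_eq_mul, hBc] at h4
  have h5 : (Z.card : ℝ) * Q.card ≤ w * Q.card :=
    mul_le_mul_of_nonneg_right hZw (Nat.cast_nonneg _)
  linarith

theorem exists_J (y : ℝ) : ∃ J : ℕ, y ≤ 2 ^ J ∧ (4 : ℝ) ^ J ≤ 1 + 4 * y ^ 2 := by
  classical
  by_cases hy : y ≤ 1
  · refine ⟨0, by rw [pow_zero]; exact hy, ?_⟩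
    rw [pow_zero]
    nlinarith [sq_nonneg y]
  rw [not_le] at hy
  have hex : ∃ J : ℕ, y ≤ 2 ^ J := by
    obtain ⟨n, hn⟩ := pow_unbounded_of_one_lt y (show (1 : ℝ) < 2 by norm_num)
    exact ⟨n, hn.le⟩
  refine ⟨Nat.find hex, Nat.find_spec hex, ?_⟩
  obtain ⟨J, hJ⟩ : ∃ J : ℕ, J = Nat.find hex := ⟨_, rfl⟩
  rw [← hJ]
  have hJ0 : J ≠ 0 := by
    intro h
    have h1 := Nat.find_spec hex
    rw [← hJ, h, pow_zero] at h1
    linarith
  obtain ⟨m, hm⟩ : ∃ m, J = m + 1 := ⟨J - 1, by omega⟩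
  have h1 := Nat.find_min hex (m := m) (by omega)
  rw [not_le] at h1
  have h2 : (4 : ℝ) ^ J = 4 * (2 ^ m) ^ 2 := by
    rw [hm, pow_succ, ← pow_mul, mul_comm m 2, pow_mul]
    norm_num
    ring
  rw [h2]
  have h3 : ((2 : ℝ) ^ m) ^ 2 ≤ y ^ 2 := pow_le_pow_left₀ (by positivity) h1.le 2
  linarith

/-- the choice of the length of the walk -/
theorem choose_J (C2 L β r κ0 : ℝ) (hC2 : 0 < C2) (hL : 0 < L) (hβ : 0 < β) (hβL : β ≤ L)
    (hr : 0 < r) (hκ0 : 0 ≤ κ0)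
    (hκ : κ0 * (1 + 4 * (52 * C2) ^ 2) * L ^ 2 ≤ β ^ 3 / 16) :
    ∃ J : ℕ, C2 * L / r * Real.exp (-(β / (2 * r))) ≤ 2 ^ J / 52 ∧ κ0 * 4 ^ J ≤ β / 16 := by
  obtain ⟨J, hJ1, hJ2⟩ := exists_J (52 * (C2 * L / r * Real.exp (-(β / (2 * r)))))
  refine ⟨J, by linarith, ?_⟩
  have h1 : C2 * L / r * Real.exp (-(β / (2 * r))) ≤ C2 * (L / β) := by
    have h2 := le_exp_half (β / r) (by positivity)
    have h3 : β / r * Real.exp (-(β / (2 * r))) ≤ 1 := by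
      have e1 : β / (2 * r) = β / r / 2 := by
        field_simp
      rw [e1]
      calc β / r * Real.exp (-(β / r / 2)) ≤ Real.exp (β / r / 2) * Real.exp (-(β / r / 2)) :=
            mul_le_mul_of_nonneg_right h2 (Real.exp_pos _).le
        _ = 1 := by rw [← Real.exp_add, add_neg_cancel, Real.exp_zero]
    calc C2 * L / r * Real.exp (-(β / (2 * r))) =
        C2 * (L / β) * (β / r * Real.exp (-(β / (2 * r)))) := by
          field_simp
      _ ≤ C2 * (L / β) * 1 := mul_le_mul_of_nonneg_left h3 (by positivity)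
      _ = C2 * (L / β) := mul_one _
  have h4 : (4 : ℝ) ^ J ≤ (1 + 4 * (52 * C2) ^ 2) * (L / β) ^ 2 := by
    have h5 : (52 * (C2 * L / r * Real.exp (-(β / (2 * r))))) ^ 2 ≤ (52 * (C2 * (L / β))) ^ 2 :=
      pow_le_pow_left₀ (by positivity) (by linarith) 2
    have h6 : 1 ≤ (L / β) ^ 2 := by
      have h7 : 1 ≤ L / β := by
        rw [le_div_iff₀ hβ, one_mul]
        exact hβL
      nlinarith
    calc (4 : ℝ) ^ J ≤ 1 + 4 * (52 * (C2 * L / r * Real.exp (-(β / (2 * r))))) ^ 2 := hJ2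
      _ ≤ (L / β) ^ 2 + 4 * (52 * (C2 * (L / β))) ^ 2 := by linarith
      _ = (1 + 4 * (52 * C2) ^ 2) * (L / β) ^ 2 := by ring
  calc κ0 * 4 ^ J ≤ κ0 * ((1 + 4 * (52 * C2) ^ 2) * (L / β) ^ 2) :=
        mul_le_mul_of_nonneg_left h4 hκ0
    _ = (κ0 * (1 + 4 * (52 * C2) ^ 2) * L ^ 2) / β ^ 2 := by
        field_simp
    _ ≤ (β ^ 3 / 16) / β ^ 2 := div_le_div_of_nonneg_right hκ (by positivity)
    _ = β / 16 := by
        field_simp

/-- the primes of a set of positive rationals -/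
theorem exists_vq (P : Finset ℚ) (hpos : ∀ s ∈ P, 0 < s) :
    ∃ (R : ℕ) (q : Fin R → ℕ), (∀ j, (q j).Prime) ∧
      ∀ x ∈ P, ∀ y ∈ P, (∀ j, padicValRat (q j) x = padicValRat (q j) y) → x = y := by
  classical
  obtain ⟨R, q, hq, hq2⟩ := exists_primes P hpos
  refine ⟨R, q, hq, fun x hx y hy h => ?_⟩
  have h1 := (hq2 1).2
  rw [pow_one] at h1
  have hx0 := (hpos x hx).ne'
  have hy0 := (hpos y hy).ne'
  refine ut_inj hx0 hy0 (h1 (Finset.mem_coe.2 (Finset.mem_image_of_mem _ hx))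
    (Finset.mem_coe.2 (Finset.mem_image_of_mem _ hy)) ?_)
  funext j
  show padicValRat (q j) ((ut x : ℚˣ) : ℚ) = padicValRat (q j) ((ut y : ℚˣ) : ℚ)
  rw [ut_val hx0, ut_val hy0]
  exact h j

end Pool.Agent.Helper15.GPR
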