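import Pool.Agent.Helper15.GPR.Extract
import Pool.Agent.Helper15.GPR.Good
import Pool.Agent.Helper15.GPQ.Box

set_option autoImplicit false

/-!
# Project GL++ (MP_120218), Scale: one step between two sets of popular ratios
-/

namespace Pool.Agent.Helper15.GPR

open Finset Pool.Agent.Helper15.GLP Pool.Agent.Helper15.GPP Pool.Agent.Helper15.GPQ

open Classical in
/-- the popular ratios -/
noncomputable def XX (A : Finset ℤ) (l : ℝ) : Finset ℚ :=
  (Finset.image₂ (fun a b : ℤ => (b : ℚ) / a) A A).filter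
    (fun x => 0 < x ∧ Real.exp (-l) * A.card ≤ ww A x)

theorem mem_XX {A : Finset ℤ} (hA : A.Nonempty) (h0 : (0 : ℤ) ∉ A) {l : ℝ} {x : ℚ} :
    x ∈ XX A l ↔ 0 < x ∧ Real.exp (-l) * A.card ≤ ww A x := by
  unfold XX
  rw [Finset.mem_filter]
  refine ⟨fun h => h.2, fun h => ⟨?_, h⟩⟩
  have hA0 : (0 : ℝ) < A.card := by exact_mod_cast hA.card_pos
  have h1 : (0 : ℝ) < ww A x := lt_of_lt_of_le (mul_pos (Real.exp_pos _) hA0) h.2
  have h2 : 0 < ww A x := by exact_mod_cast h1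
  obtain ⟨a, ha⟩ := Finset.card_pos.1 h2
  rw [mem_inc] at ha
  obtain ⟨b, hb, hba⟩ := Finset.mem_image.1 ha.2
  have ha0 : (a : ℚ) ≠ 0 := by
    intro h3
    have h4 : a = 0 := by exact_mod_cast h3
    exact h0 (h4 ▸ ha.1)
  refine Finset.mem_image₂.2 ⟨a, ha.1, b, hb, ?_⟩
  show (b : ℚ) / a = x
  have hba' : (b : ℚ) = (a : ℚ) * x := hba
  rw [hba', mul_comm, mul_div_assoc, div_self ha0, mul_one]

theorem card_XX_le (A : Finset ℤ) (l : ℝ) : (XX A l).card ≤ A.card * A.card := by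
  unfold XX
  exact (Finset.card_filter_le _ _).trans (Finset.card_image₂_le _ _ _)

theorem XX_mono {A : Finset ℤ} (hA : A.Nonempty) (h0 : (0 : ℤ) ∉ A) {l l' : ℝ} (h : l ≤ l') :
    XX A l ⊆ XX A l' := by
  intro x hx
  rw [mem_XX hA h0] at hx ⊢
  refine ⟨hx.1, le_trans (mul_le_mul_of_nonneg_right (Real.exp_le_exp.2 (by linarith))
    (Nat.cast_nonneg _)) hx.2⟩

theorem exp_neg_one_le : Real.exp (-1) ≤ 1 / 2 := by
  rw [Real.exp_neg, one_div]
  refine inv_anti₀ (by norm_num) ?_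
  have := Real.add_one_le_exp (1 : ℝ)
  linarith

/-- many pairs of popular ratios have a popular quotient -/
theorem many_pairs {A : Finset ℤ} (hA : A.Nonempty) (h0 : (0 : ℤ) ∉ A) (l : ℝ) :
    Real.exp (-(2 * l)) / 2 * ((XX A l).card : ℝ) ^ 2 ≤
      (((XX A l) ×ˢ (XX A l)).filter (fun p => p.1 / p.2 ∈ XX A (2 * l + 1))).card := by
  classical
  have hA0 : (0 : ℝ) < A.card := by exact_mod_cast hA.card_pos
  obtain ⟨X, hX⟩ : ∃ X, X = XX A l := ⟨_, rfl⟩
  obtain ⟨W, hW⟩ : ∃ W, W = (X ×ˢ X).filter (fun p => p.1 / p.2 ∈ XX A (2 * l + 1)) := ⟨_, rfl⟩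
  rw [← hX, ← hW]
  have hpos : ∀ s ∈ X, 0 < s := fun s hs => by
    rw [hX, mem_XX hA h0] at hs
    exact hs.1
  have h1 := cs A (A.image (fun a : ℤ => (a : ℚ))) X (fun s => s) (fun s hs => (hpos s hs).ne')
  have h2 : (X.card : ℝ) * (Real.exp (-l) * A.card) ≤ ∑ s ∈ X, (ww A s : ℝ) := by
    have := Finset.card_nsmul_le_sum X (fun s => (ww A s : ℝ)) (Real.exp (-l) * A.card)
      (fun s hs => by
        rw [hX, mem_XX hA h0] at hs
        exact hs.2)
    rwa [nsmul_eq_mul] at this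
  have h3 : ((X.card : ℝ) * (Real.exp (-l) * A.card)) ^ 2 ≤
      A.card * ∑ s ∈ X, ∑ t ∈ X, (ww A (s / t) : ℝ) := by
    refine (pow_le_pow_left₀ (by positivity) h2 2).trans ?_
    have h4 : ((∑ s ∈ X, ww A s) ^ 2 : ℕ) ≤ A.card * ∑ s ∈ X, ∑ t ∈ X, ww A (s / t) :=
      h1.trans (Nat.mul_le_mul_right _ Finset.card_image_le)
    exact_mod_cast h4
  have h4 : Real.exp (-(2 * l)) * (X.card : ℝ) ^ 2 * A.card ≤
      ∑ s ∈ X, ∑ t ∈ X, (ww A (s / t) : ℝ) := by
    have e1 : Real.exp (-(2 * l)) = Real.exp (-l) ^ 2 := by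
      rw [← Real.exp_nat_mul]
      congr 1
      push_cast
      ring
    have h5 : (A.card : ℝ) * (Real.exp (-(2 * l)) * (X.card : ℝ) ^ 2 * A.card) ≤
        A.card * ∑ s ∈ X, ∑ t ∈ X, (ww A (s / t) : ℝ) := by
      refine le_trans (le_of_eq ?_) h3
      rw [e1]
      ring
    exact le_of_mul_le_mul_left h5 hA0
  rw [← Finset.sum_product' (f := fun s t => (ww A (s / t) : ℝ))] at h4
  have h5 : ∑ p ∈ X ×ˢ X, (ww A (p.1 / p.2) : ℝ) ≤ ∑ p ∈ X ×ˢ X,
      (Real.exp (-(2 * l)) / 2 * A.card + if p.1 / p.2 ∈ XX A (2 * l + 1) then (A.card : ℝ) else 0) := by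
    refine Finset.sum_le_sum fun p hp => ?_
    rw [Finset.mem_product] at hp
    split_ifs with h
    · have h6 : (ww A (p.1 / p.2) : ℝ) ≤ A.card := by exact_mod_cast ww_le A _
      have h7 : 0 ≤ Real.exp (-(2 * l)) / 2 * A.card := by positivity
      linarith
    · rw [mem_XX hA h0, not_and, not_le] at h
      have h6 := h (div_pos (hpos _ hp.1) (hpos _ hp.2))
      have h7 : Real.exp (-(2 * l + 1)) ≤ Real.exp (-(2 * l)) / 2 := by
        have e1 : Real.exp (-(2 * l + 1)) = Real.exp (-(2 * l)) * Real.exp (-1) := by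
          rw [← Real.exp_add]
          congr 1
          ring
        rw [e1]
        have := mul_le_mul_of_nonneg_left exp_neg_one_le (Real.exp_pos (-(2 * l))).le
        linarith
      have h8 := mul_le_mul_of_nonneg_right h7 hA0.le
      linarith
  rw [Finset.sum_add_distrib, Finset.sum_const, nsmul_eq_mul, ← Finset.sum_filter, ← hW,
    Finset.sum_const, nsmul_eq_mul, Finset.card_product] at h5
  push_cast at h5
  have h6 : (Real.exp (-(2 * l)) / 2 * (X.card : ℝ) ^ 2) * A.card ≤ W.card * A.card := by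
    nlinarith
  exact le_of_mul_le_mul_right h6 hA0

/-- **One step.** -/
theorem step {A : Finset ℤ} (hA : A.Nonempty) (h0 : (0 : ℤ) ∉ A) (l : ℝ) (hl : 0 ≤ l) {R : ℕ}
    (pr : Fin R → ℕ) (hpr : ∀ j, (pr j).Prime)
    (hinj : ∀ x ∈ XX A (2 * l + 1), ∀ y ∈ XX A (2 * l + 1),
      (∀ j, padicValRat (pr j) x = padicValRat (pr j) y) → x = y) (hne : (XX A l).Nonempty) :
    ∃ b ∈ osh R ((XX A (2 * l + 1)).image (vq pr)),
      Real.exp (-(4 * l)) / 4 * ((XX A l).card : ℝ) ^ 2 ≤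
        ((bx b : ℕ) : ℝ) ^ 9 * (XX A (2 * l + 1)).card := by
  classical
  have hmany := many_pairs hA h0 l
  obtain ⟨X, hX⟩ : ∃ X, X = XX A l := ⟨_, rfl⟩
  obtain ⟨Y, hY⟩ : ∃ Y, Y = XX A (2 * l + 1) := ⟨_, rfl⟩
  have hXY : X ⊆ Y := by
    rw [hX, hY]
    exact XX_mono hA h0 (by linarith)
  rw [← hX, ← hY] at hmany
  rw [← hY] at hinj
  rw [← hX] at hne
  rw [← hX, ← hY]
  have hposY : ∀ s ∈ Y, 0 < s := fun s hs => by
    rw [hY, mem_XX hA h0] at hs
    exact hs.1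
  have hpos : ∀ s ∈ X, 0 < s := fun s hs => hposY s (hXY hs)
  have hvinj : ∀ x ∈ Y, ∀ y ∈ Y, vq pr x = vq pr y → x = y := fun x hx y hy h =>
    hinj x hx y hy fun j => congrFun h j
  have c1 : ((X ×ˢ X).filter (fun p => p.1 / p.2 ∈ Y)).card ≤
      (sol3 (X.image (vq pr)) (X.image (vq pr)) (Y.image (vq pr))).card := by
    refine Finset.card_le_card_of_injOn (fun p : ℚ × ℚ => (vq pr p.1, vq pr p.2,
      vq pr (p.1 / p.2))) ?_ ?_
    · intro p hp
      have h1 := Finset.mem_filter.1 (Finset.mem_coe.1 hp)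
      have h2 := Finset.mem_product.1 h1.1
      refine Finset.mem_coe.2 (mem_sol3.2 ⟨⟨Finset.mem_image_of_mem _ h2.1,
        Finset.mem_image_of_mem _ h2.2, Finset.mem_image_of_mem _ h1.2⟩, ?_⟩)
      funext j
      show vq pr p.1 j = vq pr p.2 j + vq pr (p.1 / p.2) j
      rw [vq_div pr hpr _ _ (hpos _ h2.1).ne' (hpos _ h2.2).ne']
      ring
    · intro p hp p' hp' h
      have h1 := Finset.mem_product.1 (Finset.mem_filter.1 (Finset.mem_coe.1 hp)).1
      have h2 := Finset.mem_product.1 (Finset.mem_filter.1 (Finset.mem_coe.1 hp')).1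
      obtain ⟨e1, e2⟩ := Prod.mk.inj h
      obtain ⟨e2, e3⟩ := Prod.mk.inj e2
      exact Prod.ext (hvinj _ (hXY h1.1) _ (hXY h2.1) e1) (hvinj _ (hXY h1.2) _ (hXY h2.2) e2)
  have c2 := c1.trans (tri R _ _ _)
  obtain ⟨D, hD⟩ : ∃ D, D = osh R (X.image (vq pr)) := ⟨_, rfl⟩
  obtain ⟨D', hD'⟩ : ∃ D', D' = osh R (Y.image (vq pr)) := ⟨_, rfl⟩
  rw [← hD, ← hD'] at c2
  have cD : D.card = X.card := by
    rw [hD, card_osh, Finset.card_image_of_injOn]
    intro x hx y hy h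
    exact hvinj x (hXY (Finset.mem_coe.1 hx)) y (hXY (Finset.mem_coe.1 hy)) h
  have cD' : D'.card = Y.card := by
    rw [hD', card_osh, Finset.card_image_of_injOn]
    intro x hx y hy h
    exact hvinj x (Finset.mem_coe.1 hx) y (Finset.mem_coe.1 hy) h
  have hne' : D'.Nonempty := by
    rw [← Finset.card_pos, cD']
    exact (hne.mono hXY).card_pos
  obtain ⟨b, hb, hmax⟩ := Finset.exists_max_image D' (fun b => bx b) hne'
  have c3 := gd3_card D D' (by
    rw [hD, hD']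
    exact osh_mono R _ _ (Finset.image_subset_image hXY)) (by
    rw [hD]
    exact osh_down R _) (by
    rw [hD']
    exact osh_down R _) (bx b) hmax
  refine ⟨b, by rw [← hD']; exact hb, ?_⟩
  rw [cD, cD'] at c3
  have hX0 : (0 : ℝ) < X.card := by exact_mod_cast hne.card_pos
  have c4 : Real.exp (-(2 * l)) / 2 * (X.card : ℝ) ^ 2 ≤ (gd3 D D D').card :=
    hmany.trans (by exact_mod_cast c2)
  have c5 : (Real.exp (-(2 * l)) / 2 * (X.card : ℝ) ^ 2) ^ 2 ≤
      ((bx b : ℕ) : ℝ) ^ 9 * (X.card : ℝ) ^ 2 * Y.card := by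
    refine (pow_le_pow_left₀ (by positivity) c4 2).trans ?_
    exact_mod_cast c3
  have e1 : Real.exp (-(4 * l)) = Real.exp (-(2 * l)) ^ 2 := by
    rw [← Real.exp_nat_mul]
    congr 1
    push_cast
    ring
  have c6 : (X.card : ℝ) ^ 2 * (Real.exp (-(4 * l)) / 4 * (X.card : ℝ) ^ 2) ≤
      (X.card : ℝ) ^ 2 * (((bx b : ℕ) : ℝ) ^ 9 * Y.card) := by
    calc (X.card : ℝ) ^ 2 * (Real.exp (-(4 * l)) / 4 * (X.card : ℝ) ^ 2) =
        (Real.exp (-(2 * l)) / 2 * (X.card : ℝ) ^ 2) ^ 2 := by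
          rw [e1]
          ring
      _ ≤ _ := c5
      _ = _ := by ring
  exact le_of_mul_le_mul_left c6 (by positivity)

/-- the choice of the scale -/
theorem select (f : ℕ → ℝ) (g B : ℝ) (hg : 0 < g) (h0 : f 0 = g) (hB : ∀ i, f i ≤ B) :
    ∃ i : ℕ, f (i + 1) ≤ 13 / 10 * f i ∧ (13 / 10) ^ i * g ≤ f i := by
  classical
  have hex : ∃ i : ℕ, f (i + 1) ≤ 13 / 10 * f i := by
    by_contra hcon
    push Not at hcon
    have h1 : ∀ i : ℕ, (13 / 10 : ℝ) ^ i * g ≤ f i := by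
      intro i
      induction i with
      | zero => rw [pow_zero, one_mul, h0]
      | succ i ih =>
        have := hcon i
        rw [pow_succ]
        nlinarith
    obtain ⟨n, hn⟩ := pow_unbounded_of_one_lt (B / g) (show (1 : ℝ) < 13 / 10 by norm_num)
    rw [div_lt_iff₀ hg] at hn
    have := h1 n
    have := hB n
    linarith
  refine ⟨Nat.find hex, Nat.find_spec hex, ?_⟩
  have h1 : ∀ i : ℕ, i ≤ Nat.find hex → (13 / 10 : ℝ) ^ i * g ≤ f i := by
    intro i
    induction i with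
    | zero => intro _; rw [pow_zero, one_mul, h0]
    | succ i ih =>
      intro hi
      have h2 := Nat.find_min hex (m := i) (by omega)
      rw [not_le] at h2
      have h3 := ih (by omega)
      rw [pow_succ]
      nlinarith
  exact h1 _ le_rfl

end Pool.Agent.Helper15.GPR
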