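import Pool.Agent.Helper15.GPQ.Opt

set_option autoImplicit false

/-!
# Project GL++ (MP_120218), Tent: the extremal sets with smooth weights
-/

namespace Pool.Agent.Helper15.GPR

open Finset Pool.Agent.Helper15.GPQ

/-- the tent -/
def tau (n x : ℕ) : ℕ := min (x + 1) (2 * n - x)

/-- the sum of the squares -/
def SS (n : ℕ) : ℕ := ∑ x ∈ Finset.range (2 * n), tau n x ^ 2

theorem tau_le (n x : ℕ) : tau n x ≤ n := by
  unfold tau
  omega

theorem tau_pos_lt (n x : ℕ) (h : 0 < tau n x) : x < 2 * n := by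
  unfold tau at h
  omega

theorem tau_step (n x : ℕ) : tau n x ^ 2 + tau n (x + 1) ^ 2 ≤ 2 * (tau n x * tau n (x + 1)) + 1 := by
  have h : tau n x = tau n (x + 1) ∨ tau n x = tau n (x + 1) + 1 ∨ tau n x + 1 = tau n (x + 1) := by
    unfold tau
    omega
  rcases h with h | h | h
  · rw [h]
    nlinarith
  · rw [h]
    nlinarith
  · rw [← h]
    nlinarith

theorem sum_shift (f : ℕ → ℕ) (m : ℕ) :
    ∑ x ∈ Finset.range m, f (x + 1) + f 0 = ∑ x ∈ Finset.range m, f x + f m := by
  rw [← Finset.sum_range_succ', Finset.sum_range_succ]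

theorem tau_shift (n : ℕ) (hn : 1 ≤ n) :
    ∑ x ∈ Finset.range (2 * n), tau n (x + 1) ^ 2 + 1 = SS n := by
  have h1 := sum_shift (fun x => tau n x ^ 2) (2 * n)
  have h2 : tau n 0 ^ 2 = 1 := by
    have : tau n 0 = 1 := by unfold tau; omega
    rw [this]
    norm_num
  have h3 : tau n (2 * n) ^ 2 = 0 := by
    have : tau n (2 * n) = 0 := by unfold tau; omega
    rw [this]
    norm_num
  simp only [h2, h3, add_zero] at h1
  exact h1

theorem tau_cross (n : ℕ) (hn : 1 ≤ n) :
    SS n ≤ ∑ x ∈ Finset.range (2 * n), tau n x * tau n (x + 1) + n := by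
  have h1 := Finset.sum_le_sum (s := Finset.range (2 * n)) (fun x _ => tau_step n x)
  rw [Finset.sum_add_distrib, Finset.sum_add_distrib, ← Finset.mul_sum, Finset.sum_const,
    Finset.card_range, smul_eq_mul, mul_one] at h1
  have h2 := tau_shift n hn
  have h3 : SS n = ∑ x ∈ Finset.range (2 * n), tau n x ^ 2 := rfl
  omega

theorem three_SS (n : ℕ) : 3 * SS n = n * (n + 1) * (2 * n + 1) := by
  have h1 : SS n = 2 * ∑ x ∈ Finset.range n, (x + 1) ^ 2 := by
    unfold SS
    rw [two_mul n, Finset.sum_range_add, two_mul]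
    congr 1
    · refine Finset.sum_congr rfl fun x hx => ?_
      have hx' := Finset.mem_range.1 hx
      have : tau n x = x + 1 := by unfold tau; omega
      rw [this]
    · rw [← Finset.sum_range_reflect]
      refine Finset.sum_congr rfl fun x hx => ?_
      have hx' := Finset.mem_range.1 hx
      have : tau n (n + (n - 1 - x)) = x + 1 := by unfold tau; omega
      rw [this]
  have h2 : ∀ m : ℕ, 6 * ∑ x ∈ Finset.range m, (x + 1) ^ 2 = m * (m + 1) * (2 * m + 1) := by
    intro m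
    induction m with
    | zero => simp
    | succ m ih =>
      rw [Finset.sum_range_succ, mul_add, ih]
      ring
  have h3 := h2 n
  rw [h1]
  linarith

/-- the weights -/
def FF {r : ℕ} (n : ℕ) (v : Fin r → ℕ) : ℕ := ∏ i, tau n (v i) ^ 2

/-- the box -/
def VV (r n : ℕ) : Finset (Fin r → ℕ) := Fintype.piFinset (fun _ : Fin r => Finset.range (2 * n))

theorem mem_VV {r n : ℕ} {v : Fin r → ℕ} : v ∈ VV r n ↔ ∀ i, v i < 2 * n := by
  unfold VV
  rw [Fintype.mem_piFinset]
  exact forall_congr' fun i => Finset.mem_range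

/-- the extremal set -/
def optB {r : ℕ} (p : Fin r → ℕ) (D K n : ℕ) : Finset ℤ :=
  ((VV r n).sigma (fun v => Finset.range (K * FF n v))).image
    (fun x : (_ : Fin r → ℕ) × ℕ => (((1 + D * x.2) * ∏ i, p i ^ x.1 i : ℕ) : ℤ))

theorem rep_inj {r : ℕ} (p : Fin r → ℕ) (hp : ∀ i, (p i).Prime) (hinj : Function.Injective p)
    (D : ℕ) (hD : ∀ i, p i ∣ D) (hD0 : 0 < D) (x y : (_ : Fin r → ℕ) × ℕ)
    (h : (((1 + D * x.2) * ∏ i, p i ^ x.1 i : ℕ) : ℤ) = (((1 + D * y.2) * ∏ i, p i ^ y.1 i : ℕ) : ℤ)) :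
    x = y := by
  obtain ⟨e, t⟩ := x
  obtain ⟨e', t'⟩ := y
  have h1 : (1 + D * t) * ∏ i, p i ^ e i = (1 + D * t') * ∏ i, p i ^ e' i := Int.natCast_inj.1 h
  have hnd : ∀ (t : ℕ) (i : Fin r), ¬ p i ∣ 1 + D * t := by
    intro t i hd
    have h2 : p i ∣ 1 := (Nat.dvd_add_left ((hD i).mul_right t)).1 hd
    exact (hp i).one_lt.ne' (Nat.dvd_one.1 h2)
  have he : e = e' := by
    funext i
    have h2 := opt_fac p hp hinj (1 + D * t) (by omega) (hnd t) e i
    have h3 := opt_fac p hp hinj (1 + D * t') (by omega) (hnd t') e' i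
    rw [← h2, ← h3, h1]
  subst he
  have hpos : 0 < ∏ i, p i ^ e i := Finset.prod_pos fun i _ => pow_pos (hp i).pos _
  have h4 := Nat.eq_of_mul_eq_mul_right hpos h1
  have h5 : t = t' := Nat.eq_of_mul_eq_mul_left hD0 (by omega)
  rw [h5]

theorem sum_FF (r n : ℕ) : ∑ v ∈ VV r n, FF n v = SS n ^ r := by
  have h1 := Finset.prod_univ_sum (fun _ : Fin r => Finset.range (2 * n)) (fun _ x => tau n x ^ 2)
  rw [Finset.prod_const, Finset.card_univ, Fintype.card_fin] at h1
  exact h1.symm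

theorem card_optB {r : ℕ} (p : Fin r → ℕ) (hp : ∀ i, (p i).Prime) (hinj : Function.Injective p)
    (D K n : ℕ) (hD : ∀ i, p i ∣ D) (hD0 : 0 < D) : (optB p D K n).card = K * SS n ^ r := by
  classical
  unfold optB
  rw [Finset.card_image_of_injOn]
  · rw [Finset.card_sigma, ← sum_FF, Finset.mul_sum]
    exact Finset.sum_congr rfl fun v _ => Finset.card_range _
  · intro x _ y _ h
    exact rep_inj p hp hinj D hD hD0 x y h

/-- the shift by the indicator of `E` -/
def sh {r : ℕ} (E : Finset (Fin r)) (v : Fin r → ℕ) : Fin r → ℕ := fun i =>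
  if i ∈ E then v i + 1 else v i

theorem overlap {r : ℕ} (p : Fin r → ℕ) (hp : ∀ i, (p i).Prime) (hinj : Function.Injective p)
    (D K n : ℕ) (hD : ∀ i, p i ∣ D) (hD0 : 0 < D) (E : Finset (Fin r)) :
    K * ∑ v ∈ VV r n, min (FF n v) (FF n (sh E v)) ≤
      ((optB p D K n).filter (fun a => ((∏ i ∈ E, p i : ℕ) : ℤ) * a ∈ optB p D K n)).card := by
  classical
  have h1 : K * ∑ v ∈ VV r n, min (FF n v) (FF n (sh E v)) =
      ((VV r n).sigma (fun v => Finset.range (K * min (FF n v) (FF n (sh E v))))).card := by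
    rw [Finset.card_sigma, Finset.mul_sum]
    exact Finset.sum_congr rfl fun v _ => (Finset.card_range _).symm
  rw [h1]
  refine Finset.card_le_card_of_injOn
    (fun x : (_ : Fin r → ℕ) × ℕ => (((1 + D * x.2) * ∏ i, p i ^ x.1 i : ℕ) : ℤ)) ?_ ?_
  · rintro ⟨v, t⟩ hx
    obtain ⟨hv, ht⟩ := Finset.mem_sigma.1 (Finset.mem_coe.1 hx)
    have ht' : t < K * min (FF n v) (FF n (sh E v)) := Finset.mem_range.1 ht
    have hK : 0 < K := by
      rcases Nat.eq_zero_or_pos K with h | h
      · rw [h, zero_mul] at ht'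
        omega
      · exact h
    have ht1 : t < K * FF n v := lt_of_lt_of_le ht' (Nat.mul_le_mul_left _ (min_le_left _ _))
    have ht2 : t < K * FF n (sh E v) :=
      lt_of_lt_of_le ht' (Nat.mul_le_mul_left _ (min_le_right _ _))
    refine Finset.mem_coe.2 (Finset.mem_filter.2 ⟨?_, ?_⟩)
    · exact Finset.mem_image.2 ⟨⟨v, t⟩, Finset.mem_sigma.2 ⟨hv, Finset.mem_range.2 ht1⟩, rfl⟩
    · refine Finset.mem_image.2 ⟨⟨sh E v, t⟩, Finset.mem_sigma.2 ⟨?_, Finset.mem_range.2 ht2⟩, ?_⟩
      · rw [mem_VV]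
        intro i
        have h2 : FF n (sh E v) ≠ 0 := by
          intro h
          rw [h, mul_zero] at ht2
          omega
        unfold FF at h2
        have h3 := (Finset.prod_ne_zero_iff.1 h2) i (Finset.mem_univ i)
        refine tau_pos_lt n _ (Nat.pos_of_ne_zero fun h => h3 ?_)
        rw [h]
        norm_num
      · have h2 : ∏ i, p i ^ (sh E v) i = (∏ i ∈ E, p i) * ∏ i, p i ^ v i := by
          have h3 : ∏ i ∈ E, p i = ∏ i, if i ∈ E then p i else 1 := by
            rw [← Finset.prod_filter, Finset.filter_mem_eq_inter, Finset.univ_inter]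
          rw [h3, ← Finset.prod_mul_distrib]
          refine Finset.prod_congr rfl fun i _ => ?_
          unfold sh
          by_cases h : i ∈ E
          · rw [if_pos h, if_pos h, pow_succ]
            ring
          · rw [if_neg h, if_neg h, one_mul]
        show (((1 + D * t) * ∏ i, p i ^ (sh E v) i : ℕ) : ℤ) =
          ((∏ i ∈ E, p i : ℕ) : ℤ) * (((1 + D * t) * ∏ i, p i ^ v i : ℕ) : ℤ)
        rw [h2]
        push_cast
        ring
  · intro x _ y _ h
    exact rep_inj p hp hinj D hD hD0 x y h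

theorem sum_min {r : ℕ} (n : ℕ) (hn : 1 ≤ n) (E : Finset (Fin r)) :
    (SS n - n) ^ (2 * r) ≤ 2 * SS n ^ r * ∑ v ∈ VV r n, min (FF n v) (FF n (sh E v)) := by
  classical
  obtain ⟨G, hG⟩ : ∃ G : (Fin r → ℕ) → ℕ, G = fun v => ∏ i, tau n (v i) * tau n (sh E v i) :=
    ⟨_, rfl⟩
  have hG2 : ∀ v, G v ^ 2 = min (FF n v) (FF n (sh E v)) * max (FF n v) (FF n (sh E v)) := by
    intro v
    rw [min_mul_max, hG]
    unfold FF
    rw [← Finset.prod_mul_distrib, ← Finset.prod_pow]
    exact Finset.prod_congr rfl fun i _ => by ring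
  have h1 := Finset.sum_sq_le_sum_mul_sum_of_sq_le_mul (VV r n) (r := G)
    (f := fun v => min (FF n v) (FF n (sh E v))) (g := fun v => max (FF n v) (FF n (sh E v)))
    (fun _ _ => Nat.zero_le _) (fun _ _ => Nat.zero_le _) (fun v _ => (hG2 v).le)
  -- the maxima
  have h2 : ∑ v ∈ VV r n, max (FF n v) (FF n (sh E v)) ≤ 2 * SS n ^ r := by
    have h3 : ∑ v ∈ VV r n, FF n (sh E v) ≤ SS n ^ r := by
      have h4 : ∑ v ∈ VV r n, FF n (sh E v) =
          ∏ i : Fin r, ∑ x ∈ Finset.range (2 * n), tau n (if i ∈ E then x + 1 else x) ^ 2 := by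
        unfold VV FF sh
        rw [Finset.prod_univ_sum]
      have h5 : SS n ^ r = ∏ _i : Fin r, SS n := by
        rw [Finset.prod_const, Finset.card_univ, Fintype.card_fin]
      rw [h4, h5]
      refine Finset.prod_le_prod' fun i _ => ?_
      by_cases h : i ∈ E
      · simp only [if_pos h]
        have := tau_shift n hn
        omega
      · simp only [if_neg h]
        exact le_rfl
    calc ∑ v ∈ VV r n, max (FF n v) (FF n (sh E v)) ≤
        ∑ v ∈ VV r n, (FF n v + FF n (sh E v)) :=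
          Finset.sum_le_sum fun v _ => max_le_add_of_nonneg (Nat.zero_le _) (Nat.zero_le _)
      _ = SS n ^ r + ∑ v ∈ VV r n, FF n (sh E v) := by rw [Finset.sum_add_distrib, sum_FF]
      _ ≤ 2 * SS n ^ r := by omega
  -- the cross terms
  have h3 : (SS n - n) ^ r ≤ ∑ v ∈ VV r n, G v := by
    have h4 : ∑ v ∈ VV r n, G v = ∏ i : Fin r, ∑ x ∈ Finset.range (2 * n),
        tau n x * tau n (if i ∈ E then x + 1 else x) := by
      rw [hG]
      unfold VV sh
      rw [Finset.prod_univ_sum]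
    have h5 : (SS n - n) ^ r = ∏ _i : Fin r, (SS n - n) := by
      rw [Finset.prod_const, Finset.card_univ, Fintype.card_fin]
    rw [h4, h5]
    refine Finset.prod_le_prod' fun i _ => ?_
    by_cases h : i ∈ E
    · simp only [if_pos h]
      have := tau_cross n hn
      omega
    · simp only [if_neg h]
      have h5 : ∑ x ∈ Finset.range (2 * n), tau n x * tau n x = SS n := by
        unfold SS
        exact Finset.sum_congr rfl fun x _ => by ring
      rw [h5]
      omega
  calc (SS n - n) ^ (2 * r) = ((SS n - n) ^ r) ^ 2 := by rw [← pow_mul, mul_comm]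
    _ ≤ (∑ v ∈ VV r n, G v) ^ 2 := Nat.pow_le_pow_left h3 2
    _ ≤ _ := h1
    _ ≤ (∑ v ∈ VV r n, min (FF n v) (FF n (sh E v))) * (2 * SS n ^ r) :=
        Nat.mul_le_mul_left _ h2
    _ = _ := by ring

/-- the elements are small -/
theorem sum_optB {r : ℕ} (p : Fin r → ℕ) (hp : ∀ i, (p i).Prime) (D K n : ℕ)
    (hD : D = ∏ i, p i) (hD0 : 0 < D) (k : ℕ) :
    ((Fintype.piFinset (fun _ : Fin k => optB p D K n)).image
      (fun f : Fin k → ℤ => ∑ i, f i)).card ≤ k * (K * n ^ (2 * r) * D ^ (2 * n + 1)) + 1 := by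
  classical
  obtain ⟨T, hT⟩ : ∃ T : ℕ, T = K * n ^ (2 * r) := ⟨_, rfl⟩
  rw [← hT]
  have hmem : ∀ a ∈ optB p D K n, 0 ≤ a ∧ a ≤ ((T * D ^ (2 * n + 1) : ℕ) : ℤ) := by
    intro a ha
    unfold optB at ha
    obtain ⟨⟨e, t⟩, hte, rfl⟩ := Finset.mem_image.1 ha
    rw [Finset.mem_sigma] at hte
    refine ⟨by positivity, ?_⟩
    have ht : t < K * FF n e := Finset.mem_range.1 hte.2
    have he := mem_VV.1 hte.1
    have h1 : ∏ i, p i ^ e i ≤ D ^ (2 * n) := by
      rw [hD, ← Finset.prod_pow]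
      refine Finset.prod_le_prod' fun i _ => ?_
      exact Nat.pow_le_pow_right (hp i).pos (he i).le
    have h0 : FF n e ≤ n ^ (2 * r) := by
      unfold FF
      calc ∏ i, tau n (e i) ^ 2 ≤ ∏ _i : Fin r, n ^ 2 :=
            Finset.prod_le_prod' fun i _ => Nat.pow_le_pow_left (tau_le n _) 2
        _ = n ^ (2 * r) := by
            rw [Finset.prod_const, Finset.card_univ, Fintype.card_fin, ← pow_mul]
    have ht' : t < T := by
      rw [hT]
      exact lt_of_lt_of_le ht (Nat.mul_le_mul_left _ h0)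
    have h2 : 1 + D * t ≤ T * D := by
      calc 1 + D * t ≤ D + D * t := by omega
        _ = (t + 1) * D := by ring
        _ ≤ T * D := Nat.mul_le_mul_right _ ht'
    have h3 : (1 + D * t) * ∏ i, p i ^ e i ≤ T * D ^ (2 * n + 1) := by
      calc (1 + D * t) * ∏ i, p i ^ e i ≤ (T * D) * D ^ (2 * n) := Nat.mul_le_mul h2 h1
        _ = T * D ^ (2 * n + 1) := by ring
    exact_mod_cast h3
  have hsub : (Fintype.piFinset (fun _ : Fin k => optB p D K n)).image
      (fun f : Fin k → ℤ => ∑ i, f i) ⊆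
      Finset.Icc 0 (((k * (T * D ^ (2 * n + 1)) : ℕ) : ℤ)) := by
    intro z hz
    obtain ⟨f, hf, rfl⟩ := Finset.mem_image.1 hz
    rw [Fintype.mem_piFinset] at hf
    rw [Finset.mem_Icc]
    refine ⟨Finset.sum_nonneg fun i _ => (hmem _ (hf i)).1, ?_⟩
    calc ∑ i, f i ≤ ∑ _i : Fin k, ((T * D ^ (2 * n + 1) : ℕ) : ℤ) :=
          Finset.sum_le_sum fun i _ => (hmem _ (hf i)).2
      _ = ((k * (T * D ^ (2 * n + 1)) : ℕ) : ℤ) := by
          rw [Finset.sum_const, Finset.card_univ, Fintype.card_fin, nsmul_eq_mul]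
          push_cast
          ring
  refine (Finset.card_le_card hsub).trans (le_of_eq ?_)
  rw [Int.card_Icc]
  omega

end Pool.Agent.Helper15.GPR
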