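import Pool.Agent.Helper15.GPP.Osh

set_option autoImplicit false

/-!
# Project GL++ (MP_120218), Tri: solutions of `x = y + z` and order shapes
-/

namespace Pool.Agent.Helper15.GPR

open Finset Pool.Agent.Helper15.GPP

/-- the maximum is attained at least twice -/
def gd (a b c : ℕ) : Prop := (a = b ∧ c ≤ a) ∨ (a = c ∧ b ≤ a) ∨ (b = c ∧ a ≤ b)

instance gd_dec (a b c : ℕ) : Decidable (gd a b c) := by
  unfold gd
  infer_instance

theorem gd_max1 (b c : ℕ) : gd (max b c) b c := by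
  unfold gd
  omega

theorem gd_max2 (a c : ℕ) : gd a (max a c) c := by
  unfold gd
  omega

theorem gd_max3 (a b : ℕ) : gd a b (max a b) := by
  unfold gd
  omega

/-- the good triples -/
def gd3 {R : ℕ} (D E F : Finset (Fin R → ℕ)) :
    Finset ((Fin R → ℕ) × (Fin R → ℕ) × (Fin R → ℕ)) :=
  (D ×ˢ E ×ˢ F).filter (fun q => ∀ j, gd (q.1 j) (q.2.1 j) (q.2.2 j))

/-- the solutions of `x = y + z` -/
def sol3 {R : ℕ} (S T X : Finset (Fin R → ℤ)) :
    Finset ((Fin R → ℤ) × (Fin R → ℤ) × (Fin R → ℤ)) :=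
  (S ×ˢ T ×ˢ X).filter (fun q => q.1 = q.2.1 + q.2.2)

theorem mem_gd3 {R : ℕ} {D E F : Finset (Fin R → ℕ)}
    {q : (Fin R → ℕ) × (Fin R → ℕ) × (Fin R → ℕ)} :
    q ∈ gd3 D E F ↔ (q.1 ∈ D ∧ q.2.1 ∈ E ∧ q.2.2 ∈ F) ∧
      ∀ j, gd (q.1 j) (q.2.1 j) (q.2.2 j) := by
  unfold gd3
  rw [Finset.mem_filter, Finset.mem_product, Finset.mem_product]

theorem mem_sol3 {R : ℕ} {S T X : Finset (Fin R → ℤ)}
    {q : (Fin R → ℤ) × (Fin R → ℤ) × (Fin R → ℤ)} :
    q ∈ sol3 S T X ↔ (q.1 ∈ S ∧ q.2.1 ∈ T ∧ q.2.2 ∈ X) ∧ q.1 = q.2.1 + q.2.2 := by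
  unfold sol3
  rw [Finset.mem_filter, Finset.mem_product, Finset.mem_product]

theorem one_dim (V W U : Finset ℤ) :
    ((V ×ˢ W ×ˢ U).filter (fun q => q.1 = q.2.1 + q.2.2)).card ≤
      ((Finset.range V.card ×ˢ Finset.range W.card ×ˢ Finset.range U.card).filter
        (fun k => gd k.1 k.2.1 k.2.2)).card := by
  obtain ⟨L, hL⟩ : ∃ L, L = (V ×ˢ W ×ˢ U).filter (fun q : ℤ × ℤ × ℤ => q.1 = q.2.1 + q.2.2) :=
    ⟨_, rfl⟩
  obtain ⟨K, hK⟩ : ∃ K, K = (Finset.range V.card ×ˢ Finset.range W.card ×ˢ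
    Finset.range U.card).filter (fun k : ℕ × ℕ × ℕ => gd k.1 k.2.1 k.2.2) := ⟨_, rfl⟩
  rw [← hL, ← hK]
  have memL : ∀ q, q ∈ L ↔ (q.1 ∈ V ∧ q.2.1 ∈ W ∧ q.2.2 ∈ U) ∧ q.1 = q.2.1 + q.2.2 := by
    intro q
    rw [hL, Finset.mem_filter, Finset.mem_product, Finset.mem_product]
  have memK : ∀ k, k ∈ K ↔ (k.1 < V.card ∧ k.2.1 < W.card ∧ k.2.2 < U.card) ∧
      gd k.1 k.2.1 k.2.2 := by
    intro k
    rw [hK, Finset.mem_filter, Finset.mem_product, Finset.mem_product, Finset.mem_range,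
      Finset.mem_range, Finset.mem_range]
  by_cases h1 : W.card ≤ V.card ∧ U.card ≤ V.card
  · calc L.card ≤ (W ×ˢ U).card := by
          refine Finset.card_le_card_of_injOn (fun q => q.2) ?_ ?_
          · intro q hq
            have h2 := (memL q).1 (Finset.mem_coe.1 hq)
            exact Finset.mem_coe.2 (Finset.mem_product.2 h2.1.2)
          · intro q hq q' hq' e
            have h2 := (memL q).1 (Finset.mem_coe.1 hq)
            have h3 := (memL q').1 (Finset.mem_coe.1 hq')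
            have e' : q.2 = q'.2 := e
            exact Prod.ext (by rw [h2.2, h3.2, e']) e'
      _ = (Finset.range W.card ×ˢ Finset.range U.card).card := by
          rw [Finset.card_product, Finset.card_product, Finset.card_range, Finset.card_range]
      _ ≤ K.card := by
          refine Finset.card_le_card_of_injOn (fun k => (max k.1 k.2, k)) ?_ ?_
          · intro k hk
            have h2 := Finset.mem_product.1 (Finset.mem_coe.1 hk)
            rw [Finset.mem_range, Finset.mem_range] at h2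
            refine Finset.mem_coe.2 ((memK _).2 ⟨⟨?_, h2.1, h2.2⟩, gd_max1 _ _⟩)
            show max k.1 k.2 < V.card
            omega
          · intro k _ k' _ e
            exact (Prod.mk.inj e).2
  by_cases h2 : V.card ≤ W.card ∧ U.card ≤ W.card
  · calc L.card ≤ (V ×ˢ U).card := by
          refine Finset.card_le_card_of_injOn (fun q => (q.1, q.2.2)) ?_ ?_
          · intro q hq
            have h2 := (memL q).1 (Finset.mem_coe.1 hq)
            exact Finset.mem_coe.2 (Finset.mem_product.2 ⟨h2.1.1, h2.1.2.2⟩)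
          · intro q hq q' hq' e
            have h2 := (memL q).1 (Finset.mem_coe.1 hq)
            have h3 := (memL q').1 (Finset.mem_coe.1 hq')
            obtain ⟨e1, e2⟩ := Prod.mk.inj e
            have e3 : q.2.1 = q'.2.1 := by
              have h4 := h2.2
              rw [e1, h3.2, e2] at h4
              exact (add_right_cancel h4).symm
            exact Prod.ext e1 (Prod.ext e3 e2)
      _ = (Finset.range V.card ×ˢ Finset.range U.card).card := by
          rw [Finset.card_product, Finset.card_product, Finset.card_range, Finset.card_range]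
      _ ≤ K.card := by
          refine Finset.card_le_card_of_injOn (fun k => (k.1, max k.1 k.2, k.2)) ?_ ?_
          · intro k hk
            have h3 := Finset.mem_product.1 (Finset.mem_coe.1 hk)
            rw [Finset.mem_range, Finset.mem_range] at h3
            refine Finset.mem_coe.2 ((memK _).2 ⟨⟨h3.1, ?_, h3.2⟩, gd_max2 _ _⟩)
            show max k.1 k.2 < W.card
            omega
          · intro k _ k' _ e
            obtain ⟨e1, e2⟩ := Prod.mk.inj e
            exact Prod.ext e1 (Prod.mk.inj e2).2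
  · calc L.card ≤ (V ×ˢ W).card := by
          refine Finset.card_le_card_of_injOn (fun q => (q.1, q.2.1)) ?_ ?_
          · intro q hq
            have h2 := (memL q).1 (Finset.mem_coe.1 hq)
            exact Finset.mem_coe.2 (Finset.mem_product.2 ⟨h2.1.1, h2.1.2.1⟩)
          · intro q hq q' hq' e
            have h2 := (memL q).1 (Finset.mem_coe.1 hq)
            have h3 := (memL q').1 (Finset.mem_coe.1 hq')
            obtain ⟨e1, e2⟩ := Prod.mk.inj e
            have e3 : q.2.2 = q'.2.2 := by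
              have h4 := h2.2
              rw [e1, h3.2, e2] at h4
              exact (add_left_cancel h4).symm
            exact Prod.ext e1 (Prod.ext e2 e3)
      _ = (Finset.range V.card ×ˢ Finset.range W.card).card := by
          rw [Finset.card_product, Finset.card_product, Finset.card_range, Finset.card_range]
      _ ≤ K.card := by
          refine Finset.card_le_card_of_injOn (fun k => (k.1, k.2, max k.1 k.2)) ?_ ?_
          · intro k hk
            have h3 := Finset.mem_product.1 (Finset.mem_coe.1 hk)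
            rw [Finset.mem_range, Finset.mem_range] at h3
            refine Finset.mem_coe.2 ((memK _).2 ⟨⟨h3.1, h3.2, ?_⟩, gd_max3 _ _⟩)
            show max k.1 k.2 < U.card
            omega
          · intro k _ k' _ e
            obtain ⟨e1, e2⟩ := Prod.mk.inj e
            exact Prod.ext e1 (Prod.mk.inj e2).1

/-- **Solutions of `x = y + z`** are at most as many as good triples of order shapes. -/
theorem tri : ∀ (R : ℕ) (S T X : Finset (Fin R → ℤ)),
    (sol3 S T X).card ≤ (gd3 (osh R S) (osh R T) (osh R X)).card := by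
  classical
  intro R
  induction R with
  | zero =>
    intro S T X
    have h1 : gd3 (osh 0 S) (osh 0 T) (osh 0 X) = osh 0 S ×ˢ osh 0 T ×ˢ osh 0 X := by
      unfold gd3
      refine Finset.filter_true_of_mem fun q _ j => j.elim0
    rw [h1, Finset.card_product, Finset.card_product, card_osh, card_osh, card_osh]
    unfold sol3
    refine (Finset.card_filter_le _ _).trans (le_of_eq ?_)
    rw [Finset.card_product, Finset.card_product]
  | succ R ih =>
    intro S T X
    obtain ⟨iS, hiS⟩ : ∃ I : Finset ℤ, I = S.image (fun f => f 0) := ⟨_, rfl⟩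
    obtain ⟨iT, hiT⟩ : ∃ I : Finset ℤ, I = T.image (fun f => f 0) := ⟨_, rfl⟩
    obtain ⟨iX, hiX⟩ : ∃ I : Finset ℤ, I = X.image (fun f => f 0) := ⟨_, rfl⟩
    obtain ⟨BS, hBS⟩ : ∃ B, B = iS.biUnion (fun v => osh R (fib S v)) := ⟨_, rfl⟩
    obtain ⟨BT, hBT⟩ : ∃ B, B = iT.biUnion (fun v => osh R (fib T v)) := ⟨_, rfl⟩
    obtain ⟨BX, hBX⟩ : ∃ B, B = iX.biUnion (fun v => osh R (fib X v)) := ⟨_, rfl⟩
    obtain ⟨W, hW⟩ : ∃ W, W = (iS ×ˢ iT ×ˢ iX).filter (fun v : ℤ × ℤ × ℤ => v.1 = v.2.1 + v.2.2) :=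
      ⟨_, rfl⟩
    have memW : ∀ v, v ∈ W ↔ (v.1 ∈ iS ∧ v.2.1 ∈ iT ∧ v.2.2 ∈ iX) ∧ v.1 = v.2.1 + v.2.2 := by
      intro v
      rw [hW, Finset.mem_filter, Finset.mem_product, Finset.mem_product]
    obtain ⟨Rel, hRel⟩ : ∃ Rel : (ℤ × ℤ × ℤ) → ((Fin R → ℕ) × (Fin R → ℕ) × (Fin R → ℕ)) → Prop,
      Rel = fun v b => b.1 ∈ osh R (fib S v.1) ∧ b.2.1 ∈ osh R (fib T v.2.1) ∧
        b.2.2 ∈ osh R (fib X v.2.2) := ⟨_, rfl⟩
    -- first step
    have step1 : (sol3 S T X).card ≤
        ∑ v ∈ W, (gd3 (osh R (fib S v.1)) (osh R (fib T v.2.1)) (osh R (fib X v.2.2))).card := by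
      have hmaps : ∀ q ∈ sol3 S T X, (q.1 0, q.2.1 0, q.2.2 0) ∈ W := by
        intro q hq
        rw [mem_sol3] at hq
        rw [memW, hiS, hiT, hiX]
        refine ⟨⟨Finset.mem_image_of_mem _ hq.1.1, Finset.mem_image_of_mem _ hq.1.2.1,
          Finset.mem_image_of_mem _ hq.1.2.2⟩, ?_⟩
        show q.1 0 = q.2.1 0 + q.2.2 0
        rw [hq.2]
        rfl
      rw [Finset.card_eq_sum_card_fiberwise hmaps]
      refine Finset.sum_le_sum fun v _ => ?_
      refine le_trans ?_ (ih _ _ _)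
      refine Finset.card_le_card_of_injOn (fun q : (Fin (R + 1) → ℤ) × (Fin (R + 1) → ℤ) ×
        (Fin (R + 1) → ℤ) => ((Fin.tail q.1 : Fin R → ℤ), (Fin.tail q.2.1 : Fin R → ℤ),
          (Fin.tail q.2.2 : Fin R → ℤ))) ?_ ?_
      · intro q hq
        have h1 := Finset.mem_filter.1 (Finset.mem_coe.1 hq)
        have h2 := mem_sol3.1 h1.1
        have h3 : (q.1 0, q.2.1 0, q.2.2 0) = v := h1.2
        refine Finset.mem_coe.2 (mem_sol3.2 ⟨⟨?_, ?_, ?_⟩, ?_⟩)
        · show (Fin.tail q.1 : Fin R → ℤ) ∈ fib S v.1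
          rw [mem_fib, ← h3]
          show (Fin.cons (q.1 0) (Fin.tail q.1) : Fin (R + 1) → ℤ) ∈ S
          rw [Fin.cons_self_tail]
          exact h2.1.1
        · show (Fin.tail q.2.1 : Fin R → ℤ) ∈ fib T v.2.1
          rw [mem_fib, ← h3]
          show (Fin.cons (q.2.1 0) (Fin.tail q.2.1) : Fin (R + 1) → ℤ) ∈ T
          rw [Fin.cons_self_tail]
          exact h2.1.2.1
        · show (Fin.tail q.2.2 : Fin R → ℤ) ∈ fib X v.2.2
          rw [mem_fib, ← h3]
          show (Fin.cons (q.2.2 0) (Fin.tail q.2.2) : Fin (R + 1) → ℤ) ∈ X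
          rw [Fin.cons_self_tail]
          exact h2.1.2.2
        · show (Fin.tail q.1 : Fin R → ℤ) = Fin.tail q.2.1 + Fin.tail q.2.2
          rw [h2.2]
          rfl
      · intro q hq q' hq' e
        have h1 := Finset.mem_filter.1 (Finset.mem_coe.1 hq)
        have h1' := Finset.mem_filter.1 (Finset.mem_coe.1 hq')
        have h3 : (q.1 0, q.2.1 0, q.2.2 0) = (q'.1 0, q'.2.1 0, q'.2.2 0) :=
          (show (q.1 0, q.2.1 0, q.2.2 0) = v from h1.2).trans
            (show (q'.1 0, q'.2.1 0, q'.2.2 0) = v from h1'.2).symm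
        obtain ⟨f1, f2⟩ := Prod.mk.inj h3
        obtain ⟨f2, f3⟩ := Prod.mk.inj f2
        obtain ⟨e1, e2⟩ := Prod.mk.inj e
        obtain ⟨e2, e3⟩ := Prod.mk.inj e2
        refine Prod.ext ?_ (Prod.ext ?_ ?_)
        · rw [← Fin.cons_self_tail q.1, ← Fin.cons_self_tail q'.1, f1, e1]
        · rw [← Fin.cons_self_tail q.2.1, ← Fin.cons_self_tail q'.2.1, f2, e2]
        · rw [← Fin.cons_self_tail q.2.2, ← Fin.cons_self_tail q'.2.2, f3, e3]
    -- second step
    have step2 : ∑ v ∈ W, (gd3 (osh R (fib S v.1)) (osh R (fib T v.2.1))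
        (osh R (fib X v.2.2))).card =
        ∑ b ∈ gd3 BS BT BX, (W.filter (fun v => Rel v b)).card := by
      have h1 : ∀ v ∈ W, gd3 (osh R (fib S v.1)) (osh R (fib T v.2.1)) (osh R (fib X v.2.2)) =
          (gd3 BS BT BX).filter (fun b => Rel v b) := by
        intro v hv
        rw [memW] at hv
        ext b
        rw [mem_gd3, Finset.mem_filter, mem_gd3, hRel, hBS, hBT, hBX]
        constructor
        · rintro ⟨⟨h1, h2, h3⟩, h4⟩
          exact ⟨⟨⟨Finset.mem_biUnion.2 ⟨_, hv.1.1, h1⟩, Finset.mem_biUnion.2 ⟨_, hv.1.2.1, h2⟩,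
            Finset.mem_biUnion.2 ⟨_, hv.1.2.2, h3⟩⟩, h4⟩, h1, h2, h3⟩
        · rintro ⟨⟨_, h4⟩, h1, h2, h3⟩
          exact ⟨⟨h1, h2, h3⟩, h4⟩
      rw [Finset.sum_congr rfl (fun v hv => by rw [h1 v hv])]
      have h2 : ∀ v ∈ W, ((gd3 BS BT BX).filter (fun b => Rel v b)).card =
          ∑ b ∈ gd3 BS BT BX, if Rel v b then 1 else 0 := by
        intro v _
        rw [Finset.card_filter]
      rw [Finset.sum_congr rfl h2, Finset.sum_comm]
      refine Finset.sum_congr rfl fun b _ => ?_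
      rw [Finset.card_filter]
    -- third step
    obtain ⟨nS, hnS⟩ : ∃ n : (Fin R → ℕ) → ℕ, n = fun b =>
      (iS.filter (fun v => b ∈ osh R (fib S v))).card := ⟨_, rfl⟩
    obtain ⟨nT, hnT⟩ : ∃ n : (Fin R → ℕ) → ℕ, n = fun b =>
      (iT.filter (fun v => b ∈ osh R (fib T v))).card := ⟨_, rfl⟩
    obtain ⟨nX, hnX⟩ : ∃ n : (Fin R → ℕ) → ℕ, n = fun b =>
      (iX.filter (fun v => b ∈ osh R (fib X v))).card := ⟨_, rfl⟩
    have step3 : ∀ b ∈ gd3 BS BT BX, (W.filter (fun v => Rel v b)).card ≤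
        ((Finset.range (nS b.1) ×ˢ Finset.range (nT b.2.1) ×ˢ Finset.range (nX b.2.2)).filter
          (fun k : ℕ × ℕ × ℕ => gd k.1 k.2.1 k.2.2)).card := by
      intro b _
      rw [hnS, hnT, hnX]
      refine le_trans (le_of_eq ?_) (one_dim _ _ _)
      congr 1
      ext v
      rw [Finset.mem_filter, memW, Finset.mem_filter, Finset.mem_product, Finset.mem_product,
        Finset.mem_filter, Finset.mem_filter, Finset.mem_filter, hRel]
      constructor
      · rintro ⟨⟨⟨h1, h2, h3⟩, h4⟩, h5, h6, h7⟩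
        exact ⟨⟨⟨h1, h5⟩, ⟨h2, h6⟩, ⟨h3, h7⟩⟩, h4⟩
      · rintro ⟨⟨⟨h1, h5⟩, ⟨h2, h6⟩, ⟨h3, h7⟩⟩, h4⟩
        exact ⟨⟨⟨h1, h2, h3⟩, h4⟩, h5, h6, h7⟩
    refine step1.trans (step2.le.trans ((Finset.sum_le_sum step3).trans ?_))
    rw [← Finset.card_sigma]
    refine Finset.card_le_card_of_injOn (fun x : (_ : (Fin R → ℕ) × (Fin R → ℕ) × (Fin R → ℕ)) ×
      (ℕ × ℕ × ℕ) => ((Fin.cons x.2.1 x.1.1 : Fin (R + 1) → ℕ),
        (Fin.cons x.2.2.1 x.1.2.1 : Fin (R + 1) → ℕ),
        (Fin.cons x.2.2.2 x.1.2.2 : Fin (R + 1) → ℕ))) ?_ ?_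
    · rintro ⟨b, k⟩ hx
      have h1 := Finset.mem_sigma.1 (Finset.mem_coe.1 hx)
      have h2 := mem_gd3.1 h1.1
      have h3 := Finset.mem_filter.1 h1.2
      have h4 := Finset.mem_product.1 h3.1
      have h5 := Finset.mem_product.1 h4.2
      have h6 := Finset.mem_range.1 h4.1
      have h7 := Finset.mem_range.1 h5.1
      have h8 := Finset.mem_range.1 h5.2
      rw [hnS] at h6
      rw [hnT] at h7
      rw [hnX] at h8
      rw [hiS] at h6
      rw [hiT] at h7
      rw [hiX] at h8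
      refine Finset.mem_coe.2 (mem_gd3.2 ⟨⟨mem_osh_succ.2 h6, mem_osh_succ.2 h7,
        mem_osh_succ.2 h8⟩, ?_⟩)
      intro j
      induction j using Fin.cases with
      | zero =>
        simp only [Fin.cons_zero]
        exact h3.2
      | succ j =>
        simp only [Fin.cons_succ]
        exact h2.2 j
    · rintro ⟨b, k⟩ _ ⟨b', k'⟩ _ e
      obtain ⟨e1, e2⟩ := Prod.mk.inj e
      obtain ⟨e2, e3⟩ := Prod.mk.inj e2
      have t1 : ∀ (n n' : ℕ) (f f' : Fin R → ℕ), (Fin.cons n f : Fin (R + 1) → ℕ) = Fin.cons n' f' →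
          n = n' ∧ f = f' := by
        intro n n' f f' h
        refine ⟨?_, ?_⟩
        · have := congrFun h 0
          simpa using this
        · have h2 : (Fin.tail (Fin.cons n f : Fin (R + 1) → ℕ) : Fin R → ℕ) =
            Fin.tail (Fin.cons n' f' : Fin (R + 1) → ℕ) := by rw [h]
          rwa [Fin.tail_cons, Fin.tail_cons] at h2
      obtain ⟨g1, g1'⟩ := t1 _ _ _ _ e1
      obtain ⟨g2, g2'⟩ := t1 _ _ _ _ e2
      obtain ⟨g3, g3'⟩ := t1 _ _ _ _ e3
      have hb : b = b' := Prod.ext g1' (Prod.ext g2' g3')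
      have hk : k = k' := Prod.ext g1 (Prod.ext g2 g3)
      rw [hb, hk]

end Pool.Agent.Helper15.GPR
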