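import Pool.Agent.Helper15.GPR.Conc

set_option autoImplicit false

/-!
# Project GL++ (MP_120218), Walk: sums of independent random leaves of trees
-/

namespace Pool.Agent.Helper15.GPR

open Finset

/-- the lower factor -/
def wl (J m : ℕ) : ℕ := if m = 0 then 1 else 2 ^ J * (m + 1)

/-- the upper factor -/
def wu (J m : ℕ) : ℕ := if m = 0 then 1 else 52 * (m + 1) ^ (4 ^ J)

/-- one coordinate -/
theorem walk_one (J m : ℕ) (e : Fin (4 ^ J) → ℕ → ℤ)
    (he : ∀ i, ∀ t t', t ≤ m → t' ≤ m → e i t = e i t' → t = t') (z : ℤ) :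
    ((Fintype.piFinset (fun _ : Fin (4 ^ J) => Finset.range (m + 1))).filter
      (fun σ => m ≠ 0 → ∑ i, e i (σ i) = z)).card * wl J m ≤ wu J m := by
  unfold wl wu
  by_cases hm : m = 0
  · rw [if_pos hm, if_pos hm, mul_one]
    refine (Finset.card_filter_le _ _).trans ?_
    rw [Fintype.card_piFinset, Finset.prod_const, Finset.card_range, hm, zero_add, one_pow]
  · rw [if_neg hm, if_neg hm]
    have h1 := conc J (m + 1) (by omega) (fun i => (Finset.range (m + 1)).image (e i)) (fun i => by
      rw [Finset.card_image_of_injOn, Finset.card_range]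
      intro t ht t' ht' h
      have h2 := Finset.mem_range.1 (Finset.mem_coe.1 ht)
      have h3 := Finset.mem_range.1 (Finset.mem_coe.1 ht')
      exact he i t t' (by omega) (by omega) h) z
    refine le_trans (Nat.mul_le_mul_right _ ?_) h1
    refine Finset.card_le_card_of_injOn (fun σ => fun i => e i (σ i)) ?_ ?_
    · intro σ hσ
      have h2 := Finset.mem_filter.1 (Finset.mem_coe.1 hσ)
      exact Finset.mem_coe.2 (Finset.mem_filter.2 ⟨Fintype.mem_piFinset.2 fun i =>
        Finset.mem_image_of_mem _ (Fintype.mem_piFinset.1 h2.1 i), h2.2 hm⟩)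
    · intro σ hσ σ' hσ' h
      have h2 := Finset.mem_filter.1 (Finset.mem_coe.1 hσ)
      have h3 := Finset.mem_filter.1 (Finset.mem_coe.1 hσ')
      funext i
      have h4 := Finset.mem_range.1 (Fintype.mem_piFinset.1 h2.1 i)
      have h5 := Finset.mem_range.1 (Fintype.mem_piFinset.1 h3.1 i)
      exact he i _ _ (by omega) (by omega) (congrFun h i)

/-- **The walk along trees.** -/
theorem walk (J : ℕ) : ∀ (R : ℕ) (b : Fin R → ℕ) (s : Fin (4 ^ J) → (Fin R → ℕ) → (Fin R → ℤ)),
    (∀ i, ∀ t t' : Fin R → ℕ, (∀ j, t j ≤ b j) → (∀ j, t' j ≤ b j) → ∀ j,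
      (∀ k, k < j → t k = t' k) → (s i t j = s i t' j ↔ t j = t' j)) →
    ∀ z : Fin R → ℤ,
    ((Fintype.piFinset (fun _ : Fin (4 ^ J) => Fintype.piFinset
      (fun j => Finset.range (b j + 1)))).filter
        (fun τ => ∀ j, b j ≠ 0 → ∑ i, s i (τ i) j = z j)).card * ∏ j, wl J (b j) ≤
      ∏ j, wu J (b j) := by
  intro R
  induction R with
  | zero =>
    intro b s _ z
    rw [Fin.prod_univ_zero, Fin.prod_univ_zero, mul_one]
    refine (Finset.card_filter_le _ _).trans ?_
    rw [Fintype.card_piFinset, Finset.prod_const, Fintype.card_piFinset, Fin.prod_univ_zero,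
      one_pow]
  | succ R ih =>
    intro b s hs z
    rw [Fin.prod_univ_succ, Fin.prod_univ_succ]
    obtain ⟨F, hF⟩ : ∃ F, F = (Fintype.piFinset (fun _ : Fin (4 ^ J) => Fintype.piFinset
      (fun j => Finset.range (b j + 1)))).filter
        (fun τ => ∀ j, b j ≠ 0 → ∑ i, s i (τ i) j = z j) := ⟨_, rfl⟩
    rw [← hF]
    have memF : ∀ τ, τ ∈ F ↔ (∀ i j, τ i j ≤ b j) ∧ ∀ j, b j ≠ 0 → ∑ i, s i (τ i) j = z j := by
      intro τ
      rw [hF, Finset.mem_filter, Fintype.mem_piFinset]
      refine and_congr_left fun _ => forall_congr' fun i => ?_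
      rw [Fintype.mem_piFinset]
      exact forall_congr' fun j => by rw [Finset.mem_range, Nat.lt_succ_iff]
    obtain ⟨e, he⟩ : ∃ e : Fin (4 ^ J) → ℕ → ℤ, e = fun i m =>
      s i (Fin.cons m (fun _ => 0) : Fin (R + 1) → ℕ) 0 := ⟨_, rfl⟩
    have hcons : ∀ m, m ≤ b 0 → ∀ j, (Fin.cons m (fun _ => 0) : Fin (R + 1) → ℕ) j ≤ b j := by
      intro m hm j
      induction j using Fin.cases with
      | zero => simpa using hm
      | succ j => simp
    have he1 : ∀ i, ∀ t : Fin (R + 1) → ℕ, (∀ j, t j ≤ b j) → s i t 0 = e i (t 0) := by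
      intro i t ht
      rw [he]
      refine (hs i t _ ht (hcons _ (ht 0)) 0 fun k hk => absurd hk (Fin.not_lt_zero k)).2 ?_
      simp
    have he2 : ∀ i, ∀ t t', t ≤ b 0 → t' ≤ b 0 → e i t = e i t' → t = t' := by
      intro i t t' ht ht' h
      rw [he] at h
      have h1 := (hs i _ _ (hcons t ht) (hcons t' ht') 0
        fun k hk => absurd hk (Fin.not_lt_zero k)).1 h
      simpa using h1
    have h1 := walk_one J (b 0) e he2 (z 0)
    obtain ⟨S0, hS0⟩ : ∃ S0, S0 = (Fintype.piFinset (fun _ : Fin (4 ^ J) =>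
      Finset.range (b 0 + 1))).filter (fun σ => b 0 ≠ 0 → ∑ i, e i (σ i) = z 0) := ⟨_, rfl⟩
    rw [← hS0] at h1
    have hmaps : ∀ τ ∈ F, (fun i => τ i 0) ∈ S0 := by
      intro τ hτ
      rw [memF] at hτ
      rw [hS0, Finset.mem_filter, Fintype.mem_piFinset]
      refine ⟨fun i => ?_, fun h0 => ?_⟩
      · rw [Finset.mem_range, Nat.lt_succ_iff]
        exact hτ.1 i 0
      · rw [← hτ.2 0 h0]
        exact Finset.sum_congr rfl fun i _ => (he1 i (τ i) (hτ.1 i)).symm
    have hfib : ∀ σ ∈ S0, (F.filter (fun τ => (fun i => τ i 0) = σ)).card *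
        ∏ j : Fin R, wl J (b j.succ) ≤ ∏ j : Fin R, wu J (b j.succ) := by
      intro σ hσ
      rw [hS0, Finset.mem_filter, Fintype.mem_piFinset] at hσ
      have hσ0 : ∀ i, σ i ≤ b 0 := fun i => by
        have := Finset.mem_range.1 (hσ.1 i)
        omega
      have h2 := ih (fun j => b j.succ) (fun i t => fun j => s i (Fin.cons (σ i) t) j.succ)
        (by
          intro i t t' ht ht' j hj
          refine (hs i (Fin.cons (σ i) t) (Fin.cons (σ i) t') ?_ ?_ j.succ ?_).trans ?_
          · intro k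
            induction k using Fin.cases with
            | zero => simpa using hσ0 i
            | succ k => simpa using ht k
          · intro k
            induction k using Fin.cases with
            | zero => simpa using hσ0 i
            | succ k => simpa using ht' k
          · intro k hk
            induction k using Fin.cases with
            | zero => simp
            | succ k => simpa using hj k (Fin.succ_lt_succ_iff.1 hk)
          · rw [Fin.cons_succ, Fin.cons_succ]) (fun j => z j.succ)
      refine le_trans (Nat.mul_le_mul_right _ ?_) h2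
      refine Finset.card_le_card_of_injOn (fun τ => fun i => (Fin.tail (τ i) : Fin R → ℕ)) ?_ ?_
      · intro τ hτ
        obtain ⟨h3, h4⟩ := Finset.mem_filter.1 (Finset.mem_coe.1 hτ)
        rw [memF] at h3
        refine Finset.mem_coe.2 (Finset.mem_filter.2 ⟨Fintype.mem_piFinset.2 fun i =>
          Fintype.mem_piFinset.2 fun j => ?_, fun j hj => ?_⟩)
        · rw [Finset.mem_range, Nat.lt_succ_iff]
          exact h3.1 i j.succ
        · rw [← h3.2 j.succ hj]
          refine Finset.sum_congr rfl fun i _ => ?_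
          rw [← congrFun h4 i, Fin.cons_self_tail]
      · intro τ hτ τ' hτ' h
        have h4 := (Finset.mem_filter.1 (Finset.mem_coe.1 hτ)).2
        have h4' := (Finset.mem_filter.1 (Finset.mem_coe.1 hτ')).2
        funext i
        have h5 : τ i 0 = τ' i 0 := (congrFun h4 i).trans (congrFun h4' i).symm
        have h6 : (Fin.tail (τ i) : Fin R → ℕ) = Fin.tail (τ' i) := congrFun h i
        rw [← Fin.cons_self_tail (τ i), ← Fin.cons_self_tail (τ' i), h5, h6]
    rw [Finset.card_eq_sum_card_fiberwise hmaps]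
    calc (∑ σ ∈ S0, (F.filter (fun τ => (fun i => τ i 0) = σ)).card) *
          (wl J (b 0) * ∏ j : Fin R, wl J (b j.succ)) =
          wl J (b 0) * ∑ σ ∈ S0, (F.filter (fun τ => (fun i => τ i 0) = σ)).card *
            ∏ j : Fin R, wl J (b j.succ) := by
          rw [← Finset.sum_mul]
          ring
      _ ≤ wl J (b 0) * ∑ _σ ∈ S0, ∏ j : Fin R, wu J (b j.succ) :=
          Nat.mul_le_mul_left _ (Finset.sum_le_sum hfib)
      _ = (S0.card * wl J (b 0)) * ∏ j : Fin R, wu J (b j.succ) := by
          rw [Finset.sum_const, smul_eq_mul]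
          ring
      _ ≤ wu J (b 0) * ∏ j : Fin R, wu J (b j.succ) := Nat.mul_le_mul_right _ h1

end Pool.Agent.Helper15.GPR
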